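import Pool.Agent.Lib.MP_7fdcdd_gt.BB.Bits

/-! Linear forms stored as digits. -/

namespace Pool.Agent.Lib.MP_7fdcdd_gt.BB

open Finset

/-- `A` stores a form on the first `n` digits whose value at `X` is `g` -/
def Rep (n : ℕ) (X : ℕ → ℝ) (A : Acc) (g : ℝ) : Prop :=
  ∃ p q : ℕ → ℕ, A.P = ∑ j ∈ range n, p j * (2 ^ 96) ^ j ∧ A.N = ∑ j ∈ range n, q j * (2 ^ 96) ^ j ∧
    (∀ j, p j ≤ A.bd) ∧ (∀ j, q j ≤ A.bd) ∧ ∑ j ∈ range n, ((p j : ℝ) - q j) * X j = g

variable {n : ℕ} {X : ℕ → ℝ} {A : Acc} {g : ℝ}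

lemma Rep.zero : Rep n X ⟨0, 0, 0⟩ 0 := ⟨fun _ => 0, fun _ => 0, by simp, by simp, by simp, by simp,
  by simp⟩

lemma sum_bump (p : ℕ → ℕ) {j : ℕ} (hj : j < n) (c : ℕ) :
    ∑ i ∈ range n, (p i + if i = j then c else 0) * (2 ^ 96) ^ i =
      ∑ i ∈ range n, p i * (2 ^ 96) ^ i + c <<< (96 * j) := by
  simp only [add_mul, sum_add_distrib, ite_mul, zero_mul]
  rw [sum_ite_eq' (range n) j, if_pos (mem_range.2 hj), Nat.shiftLeft_eq, pow_mul]

lemma Rep.p (h : Rep n X A g) {j : ℕ} (hj : j < n) (c : ℕ) : Rep n X (A.p j c) (g + c * X j) := by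
  obtain ⟨p, q, h1, h2, h3, h4, h5⟩ := h
  refine ⟨fun i => p i + if i = j then c else 0, q, ?_, h2, fun i => ?_, fun i => ?_, ?_⟩
  · rw [sum_bump p hj, ← h1]; rfl
  · change p i + (if i = j then c else 0) ≤ A.bd + c
    have := h3 i
    split_ifs <;> omega
  · exact (h4 i).trans (Nat.le_add_right _ _)
  · rw [← h5]
    have : ∀ i, (((p i + if i = j then c else 0 : ℕ) : ℝ) - q i) * X i =
        ((p i : ℝ) - q i) * X i + if i = j then c * X i else 0 := fun i => by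
      split_ifs <;> push_cast <;> ring
    simp only [this, sum_add_distrib]
    rw [sum_ite_eq' (range n) j, if_pos (mem_range.2 hj)]

lemma Rep.q (h : Rep n X A g) {j : ℕ} (hj : j < n) (c : ℕ) : Rep n X (A.q j c) (g - c * X j) := by
  obtain ⟨p, q, h1, h2, h3, h4, h5⟩ := h
  refine ⟨p, fun i => q i + if i = j then c else 0, h1, ?_, fun i => ?_, fun i => ?_, ?_⟩
  · rw [sum_bump q hj, ← h2]; rfl
  · exact (h3 i).trans (Nat.le_add_right _ _)
  · change q i + (if i = j then c else 0) ≤ A.bd + c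
    have := h4 i
    split_ifs <;> omega
  · rw [← h5]
    have : ∀ i, ((p i : ℝ) - ((q i + if i = j then c else 0 : ℕ) : ℝ)) * X i =
        ((p i : ℝ) - q i) * X i - if i = j then c * X i else 0 := fun i => by
      split_ifs <;> push_cast <;> ring
    simp only [this, sum_sub_distrib]
    rw [sum_ite_eq' (range n) j, if_pos (mem_range.2 hj)]

lemma dig_eq (Y j : ℕ) : dig Y j = Y >>> (96 * j) % 2 ^ 96 := rfl

lemma dig_shift (Y i j : ℕ) : dig (Y >>> (96 * i)) j = dig Y (j + i) := by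
  rw [dig_eq, dig_eq, ← Nat.shiftRight_add]
  congr 2
  ring

lemma dig_sum {n : ℕ} {p : ℕ → ℕ} (hp : ∀ j, p j < 2 ^ 96) {i : ℕ} (hi : i < n) :
    dig (∑ j ∈ range n, p j * (2 ^ 96) ^ j) i = p i := by
  induction n generalizing p i with
  | zero => omega
  | succ n ih =>
    have e : ∑ j ∈ range (n + 1), p j * (2 ^ 96) ^ j =
        p 0 + 2 ^ 96 * ∑ j ∈ range n, p (j + 1) * (2 ^ 96) ^ j := by
      rw [sum_range_succ', mul_sum, pow_zero, mul_one, add_comm]
      congr 1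
      exact sum_congr rfl fun j _ => by ring
    rw [e]
    rcases i with _ | i
    · rw [dig_eq, Nat.mul_zero, Nat.shiftRight_zero, Nat.add_mul_mod_self_left,
        Nat.mod_eq_of_lt (hp 0)]
    · rw [← dig_shift, Nat.mul_one, Nat.shiftRight_eq_div_pow,
        Nat.add_mul_div_left _ _ (by positivity), Nat.div_eq_of_lt (hp 0), zero_add]
      exact ih (p := fun j => p (j + 1)) (fun j => hp _) (by omega)

lemma defic_eq (k P N lev r : ℕ) : defic k P N lev r =
    r + ∑ t ∈ range k, (dig N t - dig P t) * 2 ^ fld lev t := by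
  induction k generalizing P N lev r with
  | zero => simp [defic]
  | succ k ih =>
    have e1 : ∀ Y t, dig (Nat.shiftRight Y 96) t = dig Y (t + 1) := fun Y t => dig_shift Y 1 t
    rw [defic, ih, sum_range_succ']
    simp only [e1, fld_shift]
    have : Nat.add r (Nat.shiftLeft (Nat.sub (Nat.mod N 79228162514264337593543950336)
        (Nat.mod P 79228162514264337593543950336)) (Nat.mod lev 256)) =
        r + (dig N 0 - dig P 0) * 2 ^ fld lev 0 := by
      rw [← Nat.shiftLeft_eq]; rfl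
    rw [this]
    ring

lemma sub_mul_le {a b : ℕ} {y z : ℝ} (h0 : 0 ≤ y) (h1 : y ≤ z) :
    -(((b - a : ℕ) : ℝ) * z) ≤ ((a : ℝ) - b) * y := by
  rcases le_total a b with h | h
  · rw [Nat.cast_sub h]
    have : (a : ℝ) ≤ b := by exact_mod_cast h
    nlinarith
  · rw [Nat.sub_eq_zero_of_le h]
    have : (b : ℝ) ≤ a := by exact_mod_cast h
    simp only [Nat.cast_zero, zero_mul, neg_zero]
    exact mul_nonneg (by linarith) h0

/-- the final comparison shows that the stored form is nonnegative -/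
lemma fin_sound {s : St} (hn : 1 ≤ s.n) (h : Rep (s.n + 2) X A g) (e : fin s A = true)
    (h1 : 0 ≤ X 1 ∧ X 1 ≤ X 0) (h2 : X 2 = 0)
    (h3 : ∀ a < s.n, 0 ≤ X (a + 2) ∧ X (a + 2) ≤ 2 ^ s.lv a * X 0) : 0 ≤ g := by
  obtain ⟨p, q, e1, e2, e3, e4, rfl⟩ := h
  simp only [fin, Bool.and_eq_true, Nat.blt_eq, Nat.ble_eq, defic_eq] at e
  obtain ⟨e5, e6⟩ := e
  have hp : ∀ i < s.n + 2, dig A.P i = p i := fun i hi => by
    rw [e1]; exact dig_sum (fun j => (e3 j).trans_lt e5) hi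
  have hq : ∀ i < s.n + 2, dig A.N i = q i := fun i hi => by
    rw [e2]; exact dig_sum (fun j => (e4 j).trans_lt e5) hi
  obtain ⟨m, hm⟩ : ∃ m, s.n = m + 1 := ⟨s.n - 1, by omega⟩
  have e7 : q 0 + ((q 1 - p 1) + ∑ t ∈ range m, (q (t + 3) - p (t + 3)) * 2 ^ s.lv (t + 1)) ≤
      p 0 := by
    rw [← hp 0 (by omega), ← hq 0 (by omega), ← hp 1 (by omega), ← hq 1 (by omega)]
    refine le_trans (le_of_eq ?_) e6
    have e8 : Nat.sub s.n 1 = m := by change s.n - 1 = m; omega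
    rw [e8]
    congr 2
    refine sum_congr rfl fun t ht => ?_
    have := mem_range.1 ht
    rw [← hp (t + 3) (by omega), ← hq (t + 3) (by omega), fld_shift]
    congr 2
    exacts [(dig_shift _ 3 t).symm, (dig_shift _ 3 t).symm]
  have e8 : (q 0 : ℝ) + (((q 1 - p 1 : ℕ) : ℝ) +
      ∑ t ∈ range m, ((q (t + 3) - p (t + 3) : ℕ) : ℝ) * 2 ^ s.lv (t + 1)) ≤ p 0 := by
    exact_mod_cast e7
  have hW : 0 ≤ X 0 := h1.1.trans h1.2
  rw [hm, show m + 1 + 2 = m + 1 + 1 + 1 from rfl, sum_range_succ', sum_range_succ',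
    sum_range_succ']
  have k1 := sub_mul_le (a := p 1) (b := q 1) h1.1 h1.2
  have k2 : -((∑ t ∈ range m, ((q (t + 3) - p (t + 3) : ℕ) : ℝ) * 2 ^ s.lv (t + 1)) * X 0) ≤
      ∑ t ∈ range m, ((p (t + 1 + 1 + 1) : ℝ) - q (t + 1 + 1 + 1)) * X (t + 1 + 1 + 1) := by
    rw [sum_mul, ← sum_neg_distrib]
    refine sum_le_sum fun t ht => ?_
    have := h3 (t + 1) (by have := mem_range.1 ht; omega)
    rw [mul_assoc]
    exact sub_mul_le this.1 this.2
  have k3 := mul_le_mul_of_nonneg_right e8 hW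
  simp only [zero_add, Nat.reduceAdd, h2, mul_zero] at *
  nlinarith

end Pool.Agent.Lib.MP_7fdcdd_gt.BB
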