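import Pool.Agent.Lib.MP_7fdcdd_gt.BB.Chk
import Mathlib.Tactic

/-! Bytes, words and bits. -/

namespace Pool.Agent.Lib.MP_7fdcdd_gt.BB

lemma blk_eq (x w i : ℕ) (j : ℕ) :
    (x >>> (w * i) % 2 ^ w).testBit j = (decide (j < w) && x.testBit (w * i + j)) := by
  rw [Nat.testBit_mod_two_pow, Nat.testBit_shiftRight]

lemma blk_set {w v : ℕ} (hv : v < 2 ^ w) (x i j : ℕ) :
    (x ^^^ ((x >>> (w * i) % 2 ^ w) ^^^ v) <<< (w * i)) >>> (w * j) % 2 ^ w =
      if j = i then v else x >>> (w * j) % 2 ^ w := by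
  apply Nat.eq_of_testBit_eq
  intro t
  have hvt : ∀ r, w ≤ r → v.testBit r = false := fun r hr =>
    Nat.testBit_eq_false_of_lt (lt_of_lt_of_le hv (Nat.pow_le_pow_right (by norm_num) hr))
  rw [blk_eq, Nat.testBit_xor, Nat.testBit_shiftLeft, Nat.testBit_xor, blk_eq]
  split_ifs with h
  · subst h
    by_cases ht : t < w
    · simp [ht]
    · simp [ht, hvt t (not_lt.1 ht)]
  · rw [blk_eq]
    by_cases ht : t < w
    · rcases lt_or_gt_of_ne h with h | h
      · have : ¬ (w * j + t ≥ w * i) := by nlinarith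
        simp [this]
      · have h1 : w ≤ w * j + t - w * i := by
          have : w * (i + 1) ≤ w * j := Nat.mul_le_mul_left _ h
          rw [Nat.mul_succ] at this
          omega
        have h2 : ¬ (w * j + t - w * i < w) := by omega
        simp [hvt _ h1, h2]
    · simp [ht]

lemma fld_lt (x i : ℕ) : fld x i < 256 := Nat.mod_lt _ (by norm_num)

lemma fld_setf {v : ℕ} (hv : v < 256) (x i j : ℕ) :
    fld (setf x i v) j = if j = i then v else fld x j :=
  blk_set (w := 8) hv x i j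

lemma wrd_setw {v : ℕ} (hv : v < 2 ^ 64) (x i j : ℕ) :
    wrd (setw x i v) j = if j = i then v else wrd x j :=
  blk_set (w := 64) hv x i j

lemma bit_eq (x a b : ℕ) : bit x a b = x.testBit (256 * a + b) := by
  have e : bit x a b = Nat.beq (x >>> (256 * a + b) % 2) 1 := rfl
  rw [e, Nat.testBit, Nat.one_and_eq_mod_two]
  rcases Nat.mod_two_eq_zero_or_one (x >>> (256 * a + b)) with h | h <;> rw [h] <;> rfl

lemma bit_ins {x a b c d : ℕ} (hb : b < 256) (hd : d < 256) (h : bit (ins x a b) c d = true) :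
    bit x c d = true ∨ (c = a ∧ d = b) := by
  have e : ins x a b = x ||| (1 <<< (256 * a + b)) := rfl
  rw [bit_eq, e, Nat.testBit_or, Nat.one_shiftLeft, Nat.testBit_two_pow, Bool.or_eq_true] at h
  rcases h with h | h
  · left; rwa [bit_eq]
  · right
    have := of_decide_eq_true h
    omega

lemma bit_zero (a b : ℕ) : bit 0 a b = false := by simp [bit_eq]

lemma mkE_lt {k a b c d e : ℕ} (hk : k < 256) (ha : a < 256) (hb : b < 256) (hc : c < 256)
    (hd : d < 256) (he : e < 256) : mkE k a b c d e < 2 ^ 64 := by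
  have : mkE k a b c d e = k + 256 * (a + 256 * (b + 256 * (c + 256 * (d + 256 * e)))) := rfl
  omega

lemma fld_mkE {k a b c d e : ℕ} (hk : k < 256) (ha : a < 256) (hb : b < 256) (hc : c < 256)
    (hd : d < 256) (he : e < 256) :
    fld (mkE k a b c d e) 0 = k ∧ fld (mkE k a b c d e) 1 = a ∧ fld (mkE k a b c d e) 2 = b ∧
      fld (mkE k a b c d e) 3 = c ∧ fld (mkE k a b c d e) 4 = d ∧ fld (mkE k a b c d e) 5 = e := by
  have h : mkE k a b c d e = k + 256 * (a + 256 * (b + 256 * (c + 256 * (d + 256 * e)))) := rfl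
  have f : ∀ x i, fld x i = x / 2 ^ (8 * i) % 256 := fun x i => by
    rw [← Nat.shiftRight_eq_div_pow]; rfl
  simp only [f, h]
  norm_num
  omega

lemma fld_shift (x i : ℕ) : fld (Nat.shiftRight x 8) i = fld x (i + 1) := by
  have e : ∀ y j, fld y j = y >>> (8 * j) % 256 := fun _ _ => rfl
  have e2 : Nat.shiftRight x 8 = x >>> 8 := rfl
  rw [e, e, e2, ← Nat.shiftRight_add]
  congr 2
  ring

end Pool.Agent.Lib.MP_7fdcdd_gt.BB
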