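import Pool.Agent.Lib.MP_7fdcdd_gt.BB.Un

/-! Soundness of the case distinctions. -/

namespace Pool.Agent.Lib.MP_7fdcdd_gt.BB

open H77

variable {M : Mdl} {s : St} {ρ : ℕ → E} {x : ℕ → ℝ} {φ : ℕ → L} {mm : ℕ → ℝ}

lemma mem4_iff {x a b c d : ℕ} : mem4 x a b c d = true ↔ x = a ∨ x = b ∨ x = c ∨ x = d := by
  simp [mem4, or_assoc]

lemma Mdl.lt_of_ne (M : Mdl) {k : ℕ} (hk : k ≤ 12) {a b : E} (ha : a ∈ lv M.V k)
    (hb : b ∈ lv M.V k) (h : M.u a ≤ M.u b) (hne : a ≠ b) : M.u a < M.u b :=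
  lt_of_le_of_ne h fun e => hne (M.inj k hk a ha b hb e)

lemma br0 (h : Sem M s ρ x φ mm) {c : ℕ} (e0 : fld c 0 = 0) (e : brOk s c = true) :
    Good M (brApp s c 0) ∨ Good M (brApp s c 1) := by
  simp only [brOk, e0, Bool.and_eq_true, room_iff] at e
  obtain ⟨⟨e1, e2⟩, e3⟩ := e
  obtain ⟨k, p, q, h1, h2, h3⟩ := h.isAdj (fld_lt _ _) e1
  obtain ⟨j, a, b, g1, g2, g3, g4⟩ := h.isMid e2
  obtain ⟨rfl, rfl⟩ := h2.uniq g4
  obtain ⟨z, z1, z2, z3⟩ := share_parent (M.cp j) g3 (M.lv_succ j ▸ h3.symm)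
  rcases z3 with ⟨z3, rfl⟩ | ⟨z3, rfl⟩
  · left
    obtain ⟨ρ', x', g, k1, t⟩ := h.addV (h.lev g1) e3 z3.2.1
    have := (((g.addAdj (t g1) k1 z3).addNe k1 (t g2) z2).setMid (t g1) k1 z3 (t h1)).good
    simp only [brApp, e0]
    rw [show s.lv (fld c (Nat.add 3 0)) = j from g1.2.1]
    exact this
  · right
    obtain ⟨ρ', x', g, k1, t⟩ := h.addV (h.lev g2) e3 z3.2.1
    have := (((g.addAdj (t g2) k1 z3).addNe k1 (t g1) z1).setMid (t g2) k1 z3 (t h1)).good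
    simp only [brApp, e0]
    rw [show s.lv (fld c (Nat.add 3 1)) = j from g2.2.1]
    exact this

lemma br1 (h : Sem M s ρ x φ mm) {c : ℕ} (e0 : fld c 0 = 1) (e : brOk s c = true) :
    Good M (brApp s c 0) ∨ Good M (brApp s c 1) := by
  simp only [brOk, e0, Bool.and_eq_true, Nat.beq_eq, isV_iff] at e
  have ha := e.1.1.at ρ
  have hb := e.1.2.at ρ
  rw [← e.2] at hb
  simp only [brApp, e0]
  by_cases g : ρ (fld c 1) = ρ (fld c 2)
  · exact Or.inl (h.addEq ha (g ▸ hb)).good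
  · exact Or.inr (h.addNe ha hb g).good

lemma br2 (h : Sem M s ρ x φ mm) {c : ℕ} (e0 : fld c 0 = 2) (e : brOk s c = true) :
    Good M (brApp s c 0) ∨ Good M (brApp s c 1) := by
  simp only [brOk, e0, Bool.and_eq_true, Nat.beq_eq, isV_iff] at e
  have ha := e.1.1.at ρ
  have hb := e.1.2.at ρ
  rw [← e.2] at hb
  simp only [brApp, e0]
  rcases le_total (M.Z (s.lv (fld c 1)) (ρ (fld c 1))) (M.Z (s.lv (fld c 1)) (ρ (fld c 2)))
    with g | g
  · exact Or.inl (h.addLe ha hb g).good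
  · exact Or.inr (h.addLe hb ha g).good

lemma br3 (h : Sem M s ρ x φ mm) {c : ℕ} (e0 : fld c 0 = 3) (e : brOk s c = true) :
    ∃ r ≤ 2, Good M (brApp s c r) := by
  simp only [brOk, e0, Bool.and_eq_true, Bool.or_eq_true, Nat.beq_eq, lo_iff, mem4_iff] at e
  obtain ⟨⟨⟨⟨⟨⟨⟨e1, e2⟩, e3⟩, e4⟩, e5⟩, e6⟩, e7⟩, e8⟩ := e
  obtain ⟨k, a, q, h1, h2, h3⟩ := h.isAdj (fld_lt _ _) e2
  obtain ⟨j, a', q', h4, h5, h6⟩ := h.le _ _ (fld_lt _ _) e3
  obtain ⟨rfl, rfl⟩ := h1.uniq h4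
  obtain ⟨-, rfl⟩ := h2.uniq h5
  have hk : k ≤ 12 := by have := h.lev h1; omega
  have hle := (M.Z_le_iff _ _ _).1 h6
  have hc : ∃ y ∈ lv M.V k, y ≠ a ∧ M.u q < M.u y := by
    by_cases ha : a = M.s k
    · rcases e5 with e5 | e5
      · refine ⟨M.t k, M.ht k, ha ▸ M.hts k, M.lt_of_ne hk h3.2.1 (M.ht k)
          (M.ht' k q h3.2.1 (ha ▸ h3.2.2.1.symm)) (h.isNe' h2 (h.sec h2) e5)⟩
      · exact absurd ha (h.isNe' h1 (h.top h2) e5)
    · exact ⟨M.s k, M.hs k, Ne.symm ha,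
        hle.trans_lt (M.lt_of_ne hk h3.1 (M.hs k) (M.hs' k a h3.1) ha)⟩
  obtain ⟨y, y1, y2, y3⟩ := hc
  obtain ⟨w, w1, w2, w3⟩ := link_up (M.cp k) M.u h3 hle y1 y2 y3
  have hi : fld c 1 < s.nent := by
    rcases e1 with e1 | e1
    exacts [(isE_iff.1 e1.1).1, (isE_iff.1 e1).1]
  obtain ⟨j, p1, p2, p3, p4, p5, g1, g2, g3, g4, g5, g6, g7, -⟩ := h.ent _ hi
  obtain ⟨rfl, rfl⟩ := h2.uniq g2
  have hw : w = p3 ∨ w = p4 ∨ w = p5 := by
    by_contra hcon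
    simp only [not_or] at hcon
    rcases e1 with ⟨e1, e9⟩ | e1
    · obtain ⟨-, rfl⟩ := h1.uniq (e9 ▸ g1)
      exact absurd (g6 (isE_iff.1 e1).2 w w1 hcon.1 hcon.2.1 hcon.2.2) (not_le.2 w2)
    · exact absurd (g7 (isE_iff.1 e1).2 w w1.2.1 hcon.1 hcon.2.1 hcon.2.2) (not_le.2 w2)
  have key : ∀ i, At s ρ i k w → (i = fld c 2 ∨ i = fld c 3 ∨ i = fld c 4 ∨ i = fld c 5) →
      ∃ r ≤ 2, Good M (brApp s c r) := by
    intro i hi hm
    have := (((h.addAdj h1 hi w1).addLe hi h2 ((M.Z_le_iff _ _ _).2 w2.le)).mkE (j := 2)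
      (by norm_num) h1 h2 hi hi hi (by omega) (by omega) (fun _ => M.lv_succ k ▸ w3)).good
    simp only [brApp, e0]
    rcases hm with rfl | rfl | rfl | rfl
    · exact absurd (h1.uniq hi).2 w1.2.2.1
    · exact ⟨0, by norm_num, this⟩
    · exact ⟨1, by norm_num, this⟩
    · exact ⟨2, by norm_num, this⟩
  rcases hw with rfl | rfl | rfl
  exacts [key _ g3 e6, key _ g4 e7, key _ g5 e8]

lemma br4 (h : Sem M s ρ x φ mm) {c : ℕ} (e0 : fld c 0 = 4) (e : brOk s c = true) :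
    ∃ r ≤ 2, Good M (brApp s c r) := by
  simp only [brOk, e0, Bool.and_eq_true, Nat.ble_eq] at e
  obtain ⟨⟨e1, -⟩, e3⟩ := e
  obtain ⟨⟨k, p1, q, p3, p4, p5, -, g2, g3, g4, g5, -, g7, -⟩, e6⟩ := h.isE e1
  have hk : k ≤ 12 := by have := h.lev g2; omega
  obtain ⟨a, a1, a2⟩ := up_nbr (M.cp k) M.u (h.mem g2) (M.hs k) (M.lt_of_ne hk (h.mem g2) (M.hs k)
    (M.hs' k q (h.mem g2)) (h.isNe' g2 (h.top g2) e3))
  have hw : a = p3 ∨ a = p4 ∨ a = p5 := by
    by_contra hcon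
    simp only [not_or] at hcon
    exact absurd (g7 e6 a a1.1 hcon.1 hcon.2.1 hcon.2.2) (not_le.2 a2)
  have a3 := (M.Z_le_iff k _ _).2 a2.le
  simp only [brApp, e0]
  rcases hw with rfl | rfl | rfl
  · exact ⟨0, by norm_num, ((h.addAdj g3 g2 a1).addLe g3 g2 a3).good⟩
  · exact ⟨1, by norm_num, ((h.addAdj g4 g2 a1).addLe g4 g2 a3).good⟩
  · exact ⟨2, by norm_num, ((h.addAdj g5 g2 a1).addLe g5 g2 a3).good⟩

lemma brOk_code {c : ℕ} (e : brOk s c = true) : fld c 0 ≤ 4 := by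
  unfold brOk at e
  simp only [] at e
  split at e <;> first | omega | cases e

theorem br_three (h : Good M s) {c : ℕ} (e : brOk s c = true) (e3 : 3 ≤ fld c 0) :
    Good M (brApp s c 0) ∨ Good M (brApp s c 1) ∨ Good M (brApp s c 2) := by
  obtain ⟨ρ, x, φ, mm, h⟩ := h
  have := brOk_code e
  have : ∃ r ≤ 2, Good M (brApp s c r) := by
    rcases (by omega : fld c 0 = 3 ∨ fld c 0 = 4) with e0 | e0
    exacts [br3 h e0 e, br4 h e0 e]
  obtain ⟨r, hr, g⟩ := this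
  rcases (by omega : r = 0 ∨ r = 1 ∨ r = 2) with rfl | rfl | rfl
  exacts [Or.inl g, Or.inr (Or.inl g), Or.inr (Or.inr g)]

theorem br_two (h : Good M s) {c : ℕ} (e : brOk s c = true) (e2 : two s c = true) :
    Good M (brApp s c 0) ∨ Good M (brApp s c 1) := by
  have := brOk_code e
  rcases (by omega : fld c 0 = 0 ∨ fld c 0 = 1 ∨ fld c 0 = 2 ∨ fld c 0 = 3 ∨ fld c 0 = 4)
    with e0 | e0 | e0 | e0 | e0
  · obtain ⟨ρ, x, φ, mm, h⟩ := h; exact br0 h e0 e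
  · obtain ⟨ρ, x, φ, mm, h⟩ := h; exact br1 h e0 e
  · obtain ⟨ρ, x, φ, mm, h⟩ := h; exact br2 h e0 e
  · simp only [two, e0, Nat.beq_eq] at e2
    have e4 : brApp s c 2 = brApp s c 1 := by
      simp only [brApp, e0]
      rw [show fld c (Nat.add 3 2) = fld c (Nat.add 3 1) from e2.symm]
    rcases br_three h e (by omega) with g | g | g
    exacts [Or.inl g, Or.inr g, Or.inr (e4 ▸ g)]
  · simp only [two, e0, Nat.beq_eq] at e2
    have e4 : brApp s c 2 = brApp s c 1 := by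
      simp only [brApp, e0]
      rw [show fld (s.en (fld c 1)) (Nat.add 3 2) = fld (s.en (fld c 1)) (Nat.add 3 1) from e2.symm]
    rcases br_three h e (by omega) with g | g | g
    exacts [Or.inl g, Or.inr g, Or.inr (e4 ▸ g)]

theorem br_one (h : Good M s) {c : ℕ} (e : brOk s c = true) (e1 : one c = true) :
    Good M (brApp s c 0) := by
  simp only [one, Bool.and_eq_true, Nat.beq_eq] at e1
  obtain ⟨⟨e0, e2⟩, e3⟩ := e1
  have e4 : brApp s c 2 = brApp s c 0 := by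
    simp only [brApp, e0]
    rw [show fld c (Nat.add 3 2) = fld c (Nat.add 3 0) from (e2.trans e3).symm]
  have e5 : brApp s c 1 = brApp s c 0 := by
    simp only [brApp, e0]
    rw [show fld c (Nat.add 3 1) = fld c (Nat.add 3 0) from e2.symm]
  rcases br_three h e (by omega) with g | g | g
  exacts [g, e5 ▸ g, e4 ▸ g]

theorem step_sound (h : Good M s) {c : ℕ} {s' : St} (e : step s c = some s') : Good M s' := by
  unfold step at e
  cases e0 : Nat.beq (fld c 0) 28 <;> rw [e0] at e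
  · obtain ⟨ρ, x, φ, mm, h⟩ := h
    exact un_sound h e
  · obtain ⟨e1, e2⟩ := cond_some (show cond _ _ none = _ from e)
    cases e2
    rw [Bool.and_eq_true] at e1
    exact br_one h e1.1 e1.2

theorem steps_sound {k : ℕ} {s s' : St} {c : ℕ} (h : Good M s) (e : steps k s c = some s') :
    Good M s' := by
  induction k generalizing s c with
  | zero => cases e; exact h
  | succ k ih =>
    unfold steps at e
    split at e
    · cases e
    · rename_i s1 e1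
      exact ih (step_sound h e1) e

end Pool.Agent.Lib.MP_7fdcdd_gt.BB
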