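import Pool.Agent.Lib.MP_7fdcdd_gt.BB.Tree
import Pool.Agent.Lib.MP_7fdcdd_gt.BB.CII0
import Pool.Agent.Lib.MP_7fdcdd_gt.BB.CII1
import Pool.Agent.Lib.MP_7fdcdd_gt.BB.CII2
import Pool.Agent.Lib.MP_7fdcdd_gt.BB.CII3
import Pool.Agent.Lib.MP_7fdcdd_gt.BB.CII4
import Pool.Agent.Lib.MP_7fdcdd_gt.BB.CII5
import Pool.Agent.Lib.MP_7fdcdd_gt.BB.CII6

/-! Certificate data: composition. -/

namespace Pool.Agent.Lib.MP_7fdcdd_gt.BB.CII

theorem cp13 : Cl true 2346 10000 p13 := Cl.C rfl k0

theorem cp26 : Cl true 2346 10000 p26 := Cl.C rfl k1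

theorem cp35 : Cl true 2346 10000 p35 := Cl.C rfl k2

theorem cp38 : Cl true 2346 10000 p38 := Cl.C rfl k3

theorem cp39 : Cl true 2346 10000 p39 := Cl.C rfl k4

theorem cp37 : Cl true 2346 10000 p37 := Cl.B (c := 0x09080a9800) (by decide +kernel) cp38 cp39

theorem cp36 : Cl true 2346 10000 p36 := Cl.U cp37

theorem cp34 : Cl true 2346 10000 p34 := Cl.B (c := 0x0d0c0e0f00) (by decide +kernel) cp35 cp36

theorem cp33 : Cl true 2346 10000 p33 := Cl.U cp34

theorem cp40 : Cl true 2346 10000 p40 := Cl.C rfl k5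

theorem cp32 : Cl true 2346 10000 p32 := Cl.B (c := 0x0b0a0c0d00) (by decide +kernel) cp33 cp40

theorem cp31 : Cl true 2346 10000 p31 := Cl.U cp32

theorem cp45 : Cl true 2346 10000 p45 := Cl.C rfl k6

theorem cp48 : Cl true 2346 10000 p48 := Cl.C rfl k7

theorem cp49 : Cl true 2346 10000 p49 := Cl.C rfl k8

theorem cp47 : Cl true 2346 10000 p47 := Cl.B (c := 0x09080a9900) (by decide +kernel) cp48 cp49

theorem cp46 : Cl true 2346 10000 p46 := Cl.U cp47

theorem cp44 : Cl true 2346 10000 p44 := Cl.B (c := 0x0d0c0e0f00) (by decide +kernel) cp45 cp46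

theorem cp43 : Cl true 2346 10000 p43 := Cl.U cp44

theorem cp50 : Cl true 2346 10000 p50 := Cl.C rfl k9

theorem cp42 : Cl true 2346 10000 p42 := Cl.B (c := 0x0b0a0c0d00) (by decide +kernel) cp43 cp50

theorem cp41 : Cl true 2346 10000 p41 := Cl.U cp42

theorem cp30 : Cl true 2346 10000 p30 := Cl.B (c := 0x0706089300) (by decide +kernel) cp31 cp41

theorem cp29 : Cl true 2346 10000 p29 := Cl.U cp30

theorem cp57 : Cl true 2346 10000 p57 := Cl.C rfl k10

theorem cp60 : Cl true 2346 10000 p60 := Cl.C rfl k11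

theorem cp61 : Cl true 2346 10000 p61 := Cl.C rfl k12

theorem cp59 : Cl true 2346 10000 p59 := Cl.B (c := 0x09080a9800) (by decide +kernel) cp60 cp61

theorem cp58 : Cl true 2346 10000 p58 := Cl.U cp59

theorem cp56 : Cl true 2346 10000 p56 := Cl.B (c := 0x0d0c0e0f00) (by decide +kernel) cp57 cp58

theorem cp55 : Cl true 2346 10000 p55 := Cl.U cp56

theorem cp62 : Cl true 2346 10000 p62 := Cl.C rfl k13

theorem cp54 : Cl true 2346 10000 p54 := Cl.B (c := 0x0b0a0c0d00) (by decide +kernel) cp55 cp62

theorem cp53 : Cl true 2346 10000 p53 := Cl.U cp54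

theorem cp63 : Cl true 2346 10000 p63 := Cl.C rfl k14

theorem cp52 : Cl true 2346 10000 p52 := Cl.B (c := 0x5406099300) (by decide +kernel) cp53 cp63

theorem cp51 : Cl true 2346 10000 p51 := Cl.U cp52

theorem cp28 : Cl true 2346 10000 p28 := Cl.B (c := 0x09080a0b00) (by decide +kernel) cp29 cp51

theorem cp27 : Cl true 2346 10000 p27 := Cl.U cp28

theorem cp25 : Cl true 2346 10000 p25 := Cl.B (c := 0x740b01) (by decide +kernel) cp26 cp27

theorem cp24 : Cl true 2346 10000 p24 := Cl.U cp25

theorem cp64 : Cl true 2346 10000 p64 := Cl.C rfl k15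

theorem cp23 : Cl true 2346 10000 p23 := Cl.B (c := 0x6e5401) (by decide +kernel) cp24 cp64

theorem cp22 : Cl true 2346 10000 p22 := Cl.U cp23

theorem cp65 : Cl true 2346 10000 p65 := Cl.C rfl k16

theorem cp21 : Cl true 2346 10000 p21 := Cl.B (c := 0x6b5101) (by decide +kernel) cp22 cp65

theorem cp20 : Cl true 2346 10000 p20 := Cl.U cp21

theorem cp66 : Cl true 2346 10000 p66 := Cl.C rfl k17

theorem cp19 : Cl true 2346 10000 p19 := Cl.B (c := 0x4b3e01) (by decide +kernel) cp20 cp66

theorem cp18 : Cl true 2346 10000 p18 := Cl.U cp19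

theorem cp67 : Cl true 2346 10000 p67 := Cl.C rfl k18

theorem cp17 : Cl true 2346 10000 p17 := Cl.B (c := 0x4e3f01) (by decide +kernel) cp18 cp67

theorem cp16 : Cl true 2346 10000 p16 := Cl.U cp17

theorem cp68 : Cl true 2346 10000 p68 := Cl.C rfl k19

theorem cp15 : Cl true 2346 10000 p15 := Cl.B (c := 0x423901) (by decide +kernel) cp16 cp68

theorem cp14 : Cl true 2346 10000 p14 := Cl.U cp15

theorem cp12 : Cl true 2346 10000 p12 := Cl.B (c := 0x730b01) (by decide +kernel) cp13 cp14

theorem cp11 : Cl true 2346 10000 p11 := Cl.U cp12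

theorem cp73 : Cl true 2346 10000 p73 := Cl.C rfl k20

theorem cp74 : Cl true 2346 10000 p74 := Cl.C rfl k21

theorem cp72 : Cl true 2346 10000 p72 := Cl.B (c := 0x7d0d01) (by decide +kernel) cp73 cp74

theorem cp71 : Cl true 2346 10000 p71 := Cl.U cp72

theorem cp75 : Cl true 2346 10000 p75 := Cl.C rfl k22

theorem cp70 : Cl true 2346 10000 p70 := Cl.B (c := 0x09080a0b00) (by decide +kernel) cp71 cp75

theorem cp69 : Cl true 2346 10000 p69 := Cl.U cp70

theorem cp10 : Cl true 2346 10000 p10 := Cl.B (c := 0x0706080900) (by decide +kernel) cp11 cp69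

theorem cp9 : Cl true 2346 10000 p9 := Cl.U cp10

theorem cp82 : Cl true 2346 10000 p82 := Cl.C rfl k23

theorem cp95 : Cl true 2346 10000 p95 := Cl.C rfl k24

theorem cp104 : Cl true 2346 10000 p104 := Cl.C rfl k25

theorem cp107 : Cl true 2346 10000 p107 := Cl.C rfl k26

theorem cp108 : Cl true 2346 10000 p108 := Cl.C rfl k27

theorem cp106 : Cl true 2346 10000 p106 := Cl.B (c := 0x09080a9900) (by decide +kernel) cp107 cp108

theorem cp105 : Cl true 2346 10000 p105 := Cl.U cp106

theorem cp103 : Cl true 2346 10000 p103 := Cl.B (c := 0x0d0c0e0f00) (by decide +kernel) cp104 cp105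

theorem cp102 : Cl true 2346 10000 p102 := Cl.U cp103

theorem cp109 : Cl true 2346 10000 p109 := Cl.C rfl k28

theorem cp101 : Cl true 2346 10000 p101 := Cl.B (c := 0x0b0a0c0d00) (by decide +kernel) cp102 cp109

theorem cp100 : Cl true 2346 10000 p100 := Cl.U cp101

theorem cp114 : Cl true 2346 10000 p114 := Cl.C rfl k29

theorem cp117 : Cl true 2346 10000 p117 := Cl.C rfl k30

theorem cp118 : Cl true 2346 10000 p118 := Cl.C rfl k31

theorem cp116 : Cl true 2346 10000 p116 := Cl.B (c := 0x09080a9a00) (by decide +kernel) cp117 cp118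

theorem cp115 : Cl true 2346 10000 p115 := Cl.U cp116

theorem cp113 : Cl true 2346 10000 p113 := Cl.B (c := 0x0d0c0e0f00) (by decide +kernel) cp114 cp115

theorem cp112 : Cl true 2346 10000 p112 := Cl.U cp113

theorem cp119 : Cl true 2346 10000 p119 := Cl.C rfl k32

theorem cp111 : Cl true 2346 10000 p111 := Cl.B (c := 0x0b0a0c0d00) (by decide +kernel) cp112 cp119

theorem cp110 : Cl true 2346 10000 p110 := Cl.U cp111

theorem cp99 : Cl true 2346 10000 p99 := Cl.B (c := 0x0706089400) (by decide +kernel) cp100 cp110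

theorem cp98 : Cl true 2346 10000 p98 := Cl.U cp99

theorem cp126 : Cl true 2346 10000 p126 := Cl.C rfl k33

theorem cp129 : Cl true 2346 10000 p129 := Cl.C rfl k34

theorem cp130 : Cl true 2346 10000 p130 := Cl.C rfl k35

theorem cp128 : Cl true 2346 10000 p128 := Cl.B (c := 0x09080a9900) (by decide +kernel) cp129 cp130

theorem cp127 : Cl true 2346 10000 p127 := Cl.U cp128

theorem cp125 : Cl true 2346 10000 p125 := Cl.B (c := 0x0d0c0e0f00) (by decide +kernel) cp126 cp127

theorem cp124 : Cl true 2346 10000 p124 := Cl.U cp125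

theorem cp131 : Cl true 2346 10000 p131 := Cl.C rfl k36

theorem cp123 : Cl true 2346 10000 p123 := Cl.B (c := 0x0b0a0c0d00) (by decide +kernel) cp124 cp131

theorem cp122 : Cl true 2346 10000 p122 := Cl.U cp123

theorem cp132 : Cl true 2346 10000 p132 := Cl.C rfl k37

theorem cp121 : Cl true 2346 10000 p121 := Cl.B (c := 0x5306099400) (by decide +kernel) cp122 cp132

theorem cp120 : Cl true 2346 10000 p120 := Cl.U cp121

theorem cp97 : Cl true 2346 10000 p97 := Cl.B (c := 0x09080a0b00) (by decide +kernel) cp98 cp120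

theorem cp96 : Cl true 2346 10000 p96 := Cl.U cp97

theorem cp94 : Cl true 2346 10000 p94 := Cl.B (c := 0x6e0b01) (by decide +kernel) cp95 cp96

theorem cp93 : Cl true 2346 10000 p93 := Cl.U cp94

theorem cp133 : Cl true 2346 10000 p133 := Cl.C rfl k38

theorem cp92 : Cl true 2346 10000 p92 := Cl.B (c := 0x685301) (by decide +kernel) cp93 cp133

theorem cp91 : Cl true 2346 10000 p91 := Cl.U cp92

theorem cp134 : Cl true 2346 10000 p134 := Cl.C rfl k39

theorem cp90 : Cl true 2346 10000 p90 := Cl.B (c := 0x644f01) (by decide +kernel) cp91 cp134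

theorem cp89 : Cl true 2346 10000 p89 := Cl.U cp90

theorem cp135 : Cl true 2346 10000 p135 := Cl.C rfl k40

theorem cp88 : Cl true 2346 10000 p88 := Cl.B (c := 0x4b3e01) (by decide +kernel) cp89 cp135

theorem cp87 : Cl true 2346 10000 p87 := Cl.U cp88

theorem cp136 : Cl true 2346 10000 p136 := Cl.C rfl k41

theorem cp86 : Cl true 2346 10000 p86 := Cl.B (c := 0x4e3f01) (by decide +kernel) cp87 cp136

theorem cp85 : Cl true 2346 10000 p85 := Cl.U cp86

theorem cp137 : Cl true 2346 10000 p137 := Cl.C rfl k42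

theorem cp84 : Cl true 2346 10000 p84 := Cl.B (c := 0x423901) (by decide +kernel) cp85 cp137

theorem cp83 : Cl true 2346 10000 p83 := Cl.U cp84

theorem cp81 : Cl true 2346 10000 p81 := Cl.B (c := 0x6d0b01) (by decide +kernel) cp82 cp83

theorem cp80 : Cl true 2346 10000 p80 := Cl.U cp81

theorem cp138 : Cl true 2346 10000 p138 := Cl.C rfl k43

theorem cp79 : Cl true 2346 10000 p79 := Cl.B (c := 0x0706080900) (by decide +kernel) cp80 cp138

theorem cp78 : Cl true 2346 10000 p78 := Cl.U cp79

theorem cp149 : Cl true 2346 10000 p149 := Cl.C rfl k44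

theorem cp150 : Cl true 2346 10000 p150 := Cl.C rfl k45

theorem cp148 : Cl true 2346 10000 p148 := Cl.B (c := 0x910d01) (by decide +kernel) cp149 cp150

theorem cp147 : Cl true 2346 10000 p147 := Cl.U cp148

theorem cp157 : Cl true 2346 10000 p157 := Cl.C rfl k46

theorem cp158 : Cl true 2346 10000 p158 := Cl.C rfl k47

theorem cp156 : Cl true 2346 10000 p156 := Cl.B (c := 0x4e3f01) (by decide +kernel) cp157 cp158

theorem cp155 : Cl true 2346 10000 p155 := Cl.U cp156

theorem cp161 : Cl true 2346 10000 p161 := Cl.C rfl k48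

theorem cp164 : Cl true 2346 10000 p164 := Cl.C rfl k49

theorem cp166 : Cl true 2346 10000 p166 := Cl.C rfl k50

theorem cp167 : Cl true 2346 10000 p167 := Cl.C rfl k51

theorem cp165 : Cl true 2346 10000 p165 := Cl.B (c := 0x0100025200) (by decide +kernel) cp166 cp167

theorem cp163 : Cl true 2346 10000 p163 := Cl.B (c := 0x0100025000) (by decide +kernel) cp164 cp165

theorem cp162 : Cl true 2346 10000 p162 := Cl.U cp163

theorem cp160 : Cl true 2346 10000 p160 := Cl.B (c := 0x4e3f01) (by decide +kernel) cp161 cp162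

theorem cp159 : Cl true 2346 10000 p159 := Cl.U cp160

theorem cp154 : Cl true 2346 10000 p154 := Cl.B (c := 0xaa0d01) (by decide +kernel) cp155 cp159

theorem cp153 : Cl true 2346 10000 p153 := Cl.U cp154

theorem cp168 : Cl true 2346 10000 p168 := Cl.C rfl k52

theorem cp152 : Cl true 2346 10000 p152 := Cl.B (c := 0x423901) (by decide +kernel) cp153 cp168

theorem cp151 : Cl true 2346 10000 p151 := Cl.U cp152

theorem cp146 : Cl true 2346 10000 p146 := Cl.B (c := 0x0a04) (by decide +kernel) cp147 cp151

theorem cp145 : Cl true 2346 10000 p145 := Cl.U cp146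

theorem cp171 : Cl true 2346 10000 p171 := Cl.C rfl k53

theorem cp180 : Cl true 2346 10000 p180 := Cl.C rfl k54

theorem cp181 : Cl true 2346 10000 p181 := Cl.C rfl k55

theorem cp179 : Cl true 2346 10000 p179 := Cl.B (c := 0x0302047900) (by decide +kernel) cp180 cp181

theorem cp178 : Cl true 2346 10000 p178 := Cl.U cp179

theorem cp182 : Cl true 2346 10000 p182 := Cl.C rfl k56

theorem cp177 : Cl true 2346 10000 p177 := Cl.B (c := 0x4b3e01) (by decide +kernel) cp178 cp182

theorem cp176 : Cl true 2346 10000 p176 := Cl.U cp177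

theorem cp185 : Cl true 2346 10000 p185 := Cl.C rfl k57

theorem cp187 : Cl true 2346 10000 p187 := Cl.C rfl k58

theorem cp188 : Cl true 2346 10000 p188 := Cl.C rfl k59

theorem cp186 : Cl true 2346 10000 p186 := Cl.B (c := 0x0100025000) (by decide +kernel) cp187 cp188

theorem cp184 : Cl true 2346 10000 p184 := Cl.B (c := 0x0100025200) (by decide +kernel) cp185 cp186

theorem cp183 : Cl true 2346 10000 p183 := Cl.U cp184

theorem cp175 : Cl true 2346 10000 p175 := Cl.B (c := 0x4e3f01) (by decide +kernel) cp176 cp183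

theorem cp174 : Cl true 2346 10000 p174 := Cl.U cp175

theorem cp189 : Cl true 2346 10000 p189 := Cl.C rfl k60

theorem cp173 : Cl true 2346 10000 p173 := Cl.B (c := 0x423901) (by decide +kernel) cp174 cp189

theorem cp172 : Cl true 2346 10000 p172 := Cl.U cp173

theorem cp170 : Cl true 2346 10000 p170 := Cl.B (c := 0x8f0b01) (by decide +kernel) cp171 cp172

theorem cp169 : Cl true 2346 10000 p169 := Cl.U cp170

theorem cp144 : Cl true 2346 10000 p144 := Cl.B (c := 0x8e0b01) (by decide +kernel) cp145 cp169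

theorem cp143 : Cl true 2346 10000 p143 := Cl.U cp144

theorem cp190 : Cl true 2346 10000 p190 := Cl.C rfl k61

theorem cp142 : Cl true 2346 10000 p142 := Cl.B (c := 0x0706080900) (by decide +kernel) cp143 cp190

theorem cp141 : Cl true 2346 10000 p141 := Cl.U cp142

theorem cp195 : Cl true 2346 10000 p195 := Cl.C rfl k62

theorem cp198 : Cl true 2346 10000 p198 := Cl.C rfl k63

theorem cp203 : Cl true 2346 10000 p203 := Cl.C rfl k64

theorem cp210 : Cl true 2346 10000 p210 := Cl.C rfl k65

theorem cp212 : Cl true 2346 10000 p212 := Cl.C rfl k66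

theorem cp213 : Cl true 2346 10000 p213 := Cl.C rfl k67

theorem cp211 : Cl true 2346 10000 p211 := Cl.B (c := 0xa49f01) (by decide +kernel) cp212 cp213

theorem cp209 : Cl true 2346 10000 p209 := Cl.B (c := 0x3f02057900) (by decide +kernel) cp210 cp211

theorem cp208 : Cl true 2346 10000 p208 := Cl.U cp209

theorem cp214 : Cl true 2346 10000 p214 := Cl.C rfl k68

theorem cp207 : Cl true 2346 10000 p207 := Cl.B (c := 0x4b3e01) (by decide +kernel) cp208 cp214

theorem cp206 : Cl true 2346 10000 p206 := Cl.U cp207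

theorem cp215 : Cl true 2346 10000 p215 := Cl.C rfl k69

theorem cp205 : Cl true 2346 10000 p205 := Cl.B (c := 0x9d3e01) (by decide +kernel) cp206 cp215

theorem cp204 : Cl true 2346 10000 p204 := Cl.U cp205

theorem cp202 : Cl true 2346 10000 p202 := Cl.B (c := 0x0100024e00) (by decide +kernel) cp203 cp204

theorem cp201 : Cl true 2346 10000 p201 := Cl.U cp202

theorem cp216 : Cl true 2346 10000 p216 := Cl.C rfl k70

theorem cp200 : Cl true 2346 10000 p200 := Cl.B (c := 0x423901) (by decide +kernel) cp201 cp216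

theorem cp199 : Cl true 2346 10000 p199 := Cl.U cp200

theorem cp197 : Cl true 2346 10000 p197 := Cl.B (c := 0x8e0b01) (by decide +kernel) cp198 cp199

theorem cp196 : Cl true 2346 10000 p196 := Cl.U cp197

theorem cp194 : Cl true 2346 10000 p194 := Cl.B (c := 0x8d0b01) (by decide +kernel) cp195 cp196

theorem cp193 : Cl true 2346 10000 p193 := Cl.U cp194

theorem cp217 : Cl true 2346 10000 p217 := Cl.C rfl k71

theorem cp192 : Cl true 2346 10000 p192 := Cl.B (c := 0x0706080900) (by decide +kernel) cp193 cp217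

theorem cp191 : Cl true 2346 10000 p191 := Cl.U cp192

theorem cp140 : Cl true 2346 10000 p140 := Cl.B (c := 0x0504060700) (by decide +kernel) cp141 cp191

theorem cp139 : Cl true 2346 10000 p139 := Cl.U cp140

theorem cp77 : Cl true 2346 10000 p77 := Cl.B (c := 0x540701) (by decide +kernel) cp78 cp139

theorem cp76 : Cl true 2346 10000 p76 := Cl.U cp77

theorem cp8 : Cl true 2346 10000 p8 := Cl.B (c := 0x530701) (by decide +kernel) cp9 cp76

theorem cp7 : Cl true 2346 10000 p7 := Cl.U cp8

theorem cp218 : Cl true 2346 10000 p218 := Cl.C rfl k72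

theorem cp6 : Cl true 2346 10000 p6 := Cl.B (c := 0x0302040500) (by decide +kernel) cp7 cp218

theorem cp5 : Cl true 2346 10000 p5 := Cl.U cp6

theorem cp235 : Cl true 2346 10000 p235 := Cl.C rfl k73

theorem cp240 : Cl true 2346 10000 p240 := Cl.C rfl k74

theorem cp245 : Cl true 2346 10000 p245 := Cl.C rfl k75

theorem cp249 : Cl true 2346 10000 p249 := Cl.C rfl k76

theorem cp252 : Cl true 2346 10000 p252 := Cl.C rfl k77

theorem cp253 : Cl true 2346 10000 p253 := Cl.C rfl k78

theorem cp251 : Cl true 2346 10000 p251 := Cl.B (c := 0x978701) (by decide +kernel) cp252 cp253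

theorem cp250 : Cl true 2346 10000 p250 := Cl.U cp251

theorem cp248 : Cl true 2346 10000 p248 := Cl.B (c := 0x0d0c0e0f00) (by decide +kernel) cp249 cp250

theorem cp247 : Cl true 2346 10000 p247 := Cl.U cp248

theorem cp254 : Cl true 2346 10000 p254 := Cl.C rfl k79

theorem cp246 : Cl true 2346 10000 p246 := Cl.B (c := 0x0b0a0c0d00) (by decide +kernel) cp247 cp254

theorem cp244 : Cl true 2346 10000 p244 := Cl.B (c := 0x0706089200) (by decide +kernel) cp245 cp246

theorem cp243 : Cl true 2346 10000 p243 := Cl.U cp244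

theorem cp255 : Cl true 2346 10000 p255 := Cl.C rfl k80

theorem cp242 : Cl true 2346 10000 p242 := Cl.B (c := 0x09080a0b00) (by decide +kernel) cp243 cp255

theorem cp241 : Cl true 2346 10000 p241 := Cl.U cp242

theorem cp239 : Cl true 2346 10000 p239 := Cl.B (c := 0x870b01) (by decide +kernel) cp240 cp241

theorem cp238 : Cl true 2346 10000 p238 := Cl.U cp239

theorem cp258 : Cl true 2346 10000 p258 := Cl.C rfl k81

theorem cp259 : Cl true 2346 10000 p259 := Cl.C rfl k82

theorem cp257 : Cl true 2346 10000 p257 := Cl.B (c := 0x09080a0b00) (by decide +kernel) cp258 cp259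

theorem cp256 : Cl true 2346 10000 p256 := Cl.U cp257

theorem cp237 : Cl true 2346 10000 p237 := Cl.B (c := 0x6a5401) (by decide +kernel) cp238 cp256

theorem cp236 : Cl true 2346 10000 p236 := Cl.U cp237

theorem cp234 : Cl true 2346 10000 p234 := Cl.B (c := 0x860b01) (by decide +kernel) cp235 cp236

theorem cp233 : Cl true 2346 10000 p233 := Cl.U cp234

theorem cp260 : Cl true 2346 10000 p260 := Cl.C rfl k83

theorem cp232 : Cl true 2346 10000 p232 := Cl.B (c := 0x590901) (by decide +kernel) cp233 cp260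

theorem cp231 : Cl true 2346 10000 p231 := Cl.U cp232

theorem cp261 : Cl true 2346 10000 p261 := Cl.C rfl k84

theorem cp230 : Cl true 2346 10000 p230 := Cl.B (c := 0x423e01) (by decide +kernel) cp231 cp261

theorem cp229 : Cl true 2346 10000 p229 := Cl.U cp230

theorem cp270 : Cl true 2346 10000 p270 := Cl.C rfl k85

theorem cp271 : Cl true 2346 10000 p271 := Cl.C rfl k86

theorem cp269 : Cl true 2346 10000 p269 := Cl.B (c := 0x423e01) (by decide +kernel) cp270 cp271

theorem cp268 : Cl true 2346 10000 p268 := Cl.U cp269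

theorem cp276 : Cl true 2346 10000 p276 := Cl.C rfl k87

theorem cp277 : Cl true 2346 10000 p277 := Cl.C rfl k88

theorem cp275 : Cl true 2346 10000 p275 := Cl.B (c := 0x423e01) (by decide +kernel) cp276 cp277

theorem cp274 : Cl true 2346 10000 p274 := Cl.U cp275

theorem cp288 : Cl true 2346 10000 p288 := Cl.C rfl k89

theorem cp292 : Cl true 2346 10000 p292 := Cl.C rfl k90

theorem cp295 : Cl true 2346 10000 p295 := Cl.C rfl k91

theorem cp296 : Cl true 2346 10000 p296 := Cl.C rfl k92

theorem cp294 : Cl true 2346 10000 p294 := Cl.B (c := 0xa57401) (by decide +kernel) cp295 cp296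

theorem cp293 : Cl true 2346 10000 p293 := Cl.U cp294

theorem cp291 : Cl true 2346 10000 p291 := Cl.B (c := 0x0d0c0e0f00) (by decide +kernel) cp292 cp293

theorem cp290 : Cl true 2346 10000 p290 := Cl.U cp291

theorem cp297 : Cl true 2346 10000 p297 := Cl.C rfl k93

theorem cp289 : Cl true 2346 10000 p289 := Cl.B (c := 0x0b0a0c0d00) (by decide +kernel) cp290 cp297

theorem cp287 : Cl true 2346 10000 p287 := Cl.B (c := 0x070608a000) (by decide +kernel) cp288 cp289

theorem cp298 : Cl true 2346 10000 p298 := Cl.C rfl k94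

theorem cp286 : Cl true 2346 10000 p286 := Cl.B (c := 0x6b5201) (by decide +kernel) cp287 cp298

theorem cp285 : Cl true 2346 10000 p285 := Cl.U cp286

theorem cp301 : Cl true 2346 10000 p301 := Cl.C rfl k95

theorem cp310 : Cl true 2346 10000 p310 := Cl.C rfl k96

theorem cp312 : Cl true 2346 10000 p312 := Cl.C rfl k97

theorem cp316 : Cl true 2346 10000 p316 := Cl.C rfl k98

theorem cp321 : Cl true 2346 10000 p321 := Cl.C rfl k99

theorem cp324 : Cl true 2346 10000 p324 := Cl.C rfl k100

theorem cp329 : Cl true 2346 10000 p329 := Cl.C rfl k101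

theorem cp331 : Cl true 2346 10000 p331 := Cl.C rfl k102

theorem cp333 : Cl true 2346 10000 p333 := Cl.C rfl k103

theorem cp334 : Cl true 2346 10000 p334 := Cl.C rfl k104

theorem cp332 : Cl true 2346 10000 p332 := Cl.B (c := 0xafa501) (by decide +kernel) cp333 cp334

theorem cp330 : Cl true 2346 10000 p330 := Cl.B (c := 0xaf0a0dc200) (by decide +kernel) cp331 cp332

theorem cp328 : Cl true 2346 10000 p328 := Cl.B (c := 0x0d0c0e2200) (by decide +kernel) cp329 cp330

theorem cp327 : Cl true 2346 10000 p327 := Cl.U cp328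

theorem cp335 : Cl true 2346 10000 p335 := Cl.C rfl k105

theorem cp326 : Cl true 2346 10000 p326 := Cl.B (c := 0xc0a001) (by decide +kernel) cp327 cp335

theorem cp325 : Cl true 2346 10000 p325 := Cl.U cp326

theorem cp323 : Cl true 2346 10000 p323 := Cl.B (c := 0x1304) (by decide +kernel) cp324 cp325

theorem cp322 : Cl true 2346 10000 p322 := Cl.U cp323

theorem cp320 : Cl true 2346 10000 p320 := Cl.B (c := 0xaa8c01) (by decide +kernel) cp321 cp322

theorem cp319 : Cl true 2346 10000 p319 := Cl.U cp320

theorem cp336 : Cl true 2346 10000 p336 := Cl.C rfl k106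

theorem cp318 : Cl true 2346 10000 p318 := Cl.B (c := 0xbdaa01) (by decide +kernel) cp319 cp336

theorem cp317 : Cl true 2346 10000 p317 := Cl.U cp318

theorem cp315 : Cl true 2346 10000 p315 := Cl.B (c := 0x565607061003) (by decide +kernel) cp316 cp317

theorem cp314 : Cl true 2346 10000 p314 := Cl.U cp315

theorem cp337 : Cl true 2346 10000 p337 := Cl.C rfl k107

theorem cp313 : Cl true 2346 10000 p313 := Cl.B (c := 0xb9af01) (by decide +kernel) cp314 cp337

theorem cp311 : Cl true 2346 10000 p311 := Cl.B (c := 0x0100025500) (by decide +kernel) cp312 cp313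

theorem cp309 : Cl true 2346 10000 p309 := Cl.B (c := 0x0100025300) (by decide +kernel) cp310 cp311

theorem cp308 : Cl true 2346 10000 p308 := Cl.U cp309

theorem cp338 : Cl true 2346 10000 p338 := Cl.C rfl k108

theorem cp307 : Cl true 2346 10000 p307 := Cl.B (c := 0x0d04) (by decide +kernel) cp308 cp338

theorem cp306 : Cl true 2346 10000 p306 := Cl.U cp307

theorem cp339 : Cl true 2346 10000 p339 := Cl.C rfl k109

theorem cp305 : Cl true 2346 10000 p305 := Cl.B (c := 0x0b0a0c0d00) (by decide +kernel) cp306 cp339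

theorem cp304 : Cl true 2346 10000 p304 := Cl.U cp305

theorem cp340 : Cl true 2346 10000 p340 := Cl.C rfl k110

theorem cp303 : Cl true 2346 10000 p303 := Cl.B (c := 0x560609a000) (by decide +kernel) cp304 cp340

theorem cp302 : Cl true 2346 10000 p302 := Cl.U cp303

theorem cp300 : Cl true 2346 10000 p300 := Cl.B (c := 0x6b5201) (by decide +kernel) cp301 cp302

theorem cp299 : Cl true 2346 10000 p299 := Cl.U cp300

theorem cp284 : Cl true 2346 10000 p284 := Cl.B (c := 0x09080a0b00) (by decide +kernel) cp285 cp299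

theorem cp283 : Cl true 2346 10000 p283 := Cl.U cp284

theorem cp341 : Cl true 2346 10000 p341 := Cl.C rfl k111

theorem cp282 : Cl true 2346 10000 p282 := Cl.B (c := 0x905201) (by decide +kernel) cp283 cp341

theorem cp342 : Cl true 2346 10000 p342 := Cl.C rfl k112

theorem cp281 : Cl true 2346 10000 p281 := Cl.B (c := 0x0504066e00) (by decide +kernel) cp282 cp342

theorem cp280 : Cl true 2346 10000 p280 := Cl.U cp281

theorem cp343 : Cl true 2346 10000 p343 := Cl.C rfl k113

theorem cp279 : Cl true 2346 10000 p279 := Cl.B (c := 0x423e01) (by decide +kernel) cp280 cp343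

theorem cp278 : Cl true 2346 10000 p278 := Cl.U cp279

theorem cp273 : Cl true 2346 10000 p273 := Cl.B (c := 0x730b01) (by decide +kernel) cp274 cp278

theorem cp272 : Cl true 2346 10000 p272 := Cl.U cp273

theorem cp267 : Cl true 2346 10000 p267 := Cl.B (c := 0x740b01) (by decide +kernel) cp268 cp272

theorem cp266 : Cl true 2346 10000 p266 := Cl.U cp267

theorem cp344 : Cl true 2346 10000 p344 := Cl.C rfl k114

theorem cp265 : Cl true 2346 10000 p265 := Cl.B (c := 0x0706080900) (by decide +kernel) cp266 cp344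

theorem cp264 : Cl true 2346 10000 p264 := Cl.U cp265

theorem cp355 : Cl true 2346 10000 p355 := Cl.C rfl k115

theorem cp356 : Cl true 2346 10000 p356 := Cl.C rfl k116

theorem cp354 : Cl true 2346 10000 p354 := Cl.B (c := 0x0704) (by decide +kernel) cp355 cp356

theorem cp353 : Cl true 2346 10000 p353 := Cl.U cp354

theorem cp359 : Cl true 2346 10000 p359 := Cl.C rfl k117

theorem cp360 : Cl true 2346 10000 p360 := Cl.C rfl k118

theorem cp358 : Cl true 2346 10000 p358 := Cl.B (c := 0x0100025500) (by decide +kernel) cp359 cp360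

theorem cp357 : Cl true 2346 10000 p357 := Cl.U cp358

theorem cp352 : Cl true 2346 10000 p352 := Cl.B (c := 0x930901) (by decide +kernel) cp353 cp357

theorem cp351 : Cl true 2346 10000 p351 := Cl.U cp352

theorem cp363 : Cl true 2346 10000 p363 := Cl.C rfl k119

theorem cp364 : Cl true 2346 10000 p364 := Cl.C rfl k120

theorem cp362 : Cl true 2346 10000 p362 := Cl.B (c := 0x0302047b00) (by decide +kernel) cp363 cp364

theorem cp361 : Cl true 2346 10000 p361 := Cl.U cp362

theorem cp350 : Cl true 2346 10000 p350 := Cl.B (c := 0x8c7b01) (by decide +kernel) cp351 cp361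

theorem cp349 : Cl true 2346 10000 p349 := Cl.U cp350

theorem cp365 : Cl true 2346 10000 p365 := Cl.C rfl k121

theorem cp348 : Cl true 2346 10000 p348 := Cl.B (c := 0x423e01) (by decide +kernel) cp349 cp365

theorem cp347 : Cl true 2346 10000 p347 := Cl.U cp348

theorem cp370 : Cl true 2346 10000 p370 := Cl.C rfl k122

theorem cp381 : Cl true 2346 10000 p381 := Cl.C rfl k123

theorem cp382 : Cl true 2346 10000 p382 := Cl.C rfl k124

theorem cp380 : Cl true 2346 10000 p380 := Cl.B (c := 0x8f0d01) (by decide +kernel) cp381 cp382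

theorem cp379 : Cl true 2346 10000 p379 := Cl.U cp380

theorem cp385 : Cl true 2346 10000 p385 := Cl.C rfl k125

theorem cp386 : Cl true 2346 10000 p386 := Cl.C rfl k126

theorem cp384 : Cl true 2346 10000 p384 := Cl.B (c := 0x8f0d01) (by decide +kernel) cp385 cp386

theorem cp383 : Cl true 2346 10000 p383 := Cl.U cp384

theorem cp378 : Cl true 2346 10000 p378 := Cl.B (c := 0x595802) (by decide +kernel) cp379 cp383

theorem cp377 : Cl true 2346 10000 p377 := Cl.U cp378

theorem cp387 : Cl true 2346 10000 p387 := Cl.C rfl k127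

theorem cp376 : Cl true 2346 10000 p376 := Cl.B (c := 0x610b01) (by decide +kernel) cp377 cp387

theorem cp375 : Cl true 2346 10000 p375 := Cl.U cp376

theorem cp390 : Cl true 2346 10000 p390 := Cl.C rfl k128

theorem cp397 : Cl true 2346 10000 p397 := Cl.C rfl k129

theorem cp398 : Cl true 2346 10000 p398 := Cl.C rfl k130

theorem cp396 : Cl true 2346 10000 p396 := Cl.B (c := 0x8f0d01) (by decide +kernel) cp397 cp398

theorem cp395 : Cl true 2346 10000 p395 := Cl.U cp396

theorem cp401 : Cl true 2346 10000 p401 := Cl.C rfl k131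

theorem cp402 : Cl true 2346 10000 p402 := Cl.C rfl k132

theorem cp400 : Cl true 2346 10000 p400 := Cl.B (c := 0x8f0d01) (by decide +kernel) cp401 cp402

theorem cp399 : Cl true 2346 10000 p399 := Cl.U cp400

theorem cp394 : Cl true 2346 10000 p394 := Cl.B (c := 0x595802) (by decide +kernel) cp395 cp399

theorem cp393 : Cl true 2346 10000 p393 := Cl.U cp394

theorem cp403 : Cl true 2346 10000 p403 := Cl.C rfl k133

theorem cp392 : Cl true 2346 10000 p392 := Cl.B (c := 0x610b01) (by decide +kernel) cp393 cp403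

theorem cp391 : Cl true 2346 10000 p391 := Cl.U cp392

theorem cp389 : Cl true 2346 10000 p389 := Cl.B (c := 0xaba301) (by decide +kernel) cp390 cp391

theorem cp388 : Cl true 2346 10000 p388 := Cl.U cp389

theorem cp374 : Cl true 2346 10000 p374 := Cl.B (c := 0x3b02057b00) (by decide +kernel) cp375 cp388

theorem cp373 : Cl true 2346 10000 p373 := Cl.U cp374

theorem cp404 : Cl true 2346 10000 p404 := Cl.C rfl k134

theorem cp372 : Cl true 2346 10000 p372 := Cl.B (c := 0x423e01) (by decide +kernel) cp373 cp404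

theorem cp371 : Cl true 2346 10000 p371 := Cl.U cp372

theorem cp369 : Cl true 2346 10000 p369 := Cl.B (c := 0x8d0b01) (by decide +kernel) cp370 cp371

theorem cp368 : Cl true 2346 10000 p368 := Cl.U cp369

theorem cp405 : Cl true 2346 10000 p405 := Cl.C rfl k135

theorem cp367 : Cl true 2346 10000 p367 := Cl.B (c := 0x0706080900) (by decide +kernel) cp368 cp405

theorem cp366 : Cl true 2346 10000 p366 := Cl.U cp367

theorem cp346 : Cl true 2346 10000 p346 := Cl.B (c := 0x0504060700) (by decide +kernel) cp347 cp366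

theorem cp345 : Cl true 2346 10000 p345 := Cl.U cp346

theorem cp263 : Cl true 2346 10000 p263 := Cl.B (c := 0x570701) (by decide +kernel) cp264 cp345

theorem cp262 : Cl true 2346 10000 p262 := Cl.U cp263

theorem cp228 : Cl true 2346 10000 p228 := Cl.B (c := 0x560701) (by decide +kernel) cp229 cp262

theorem cp227 : Cl true 2346 10000 p227 := Cl.U cp228

theorem cp406 : Cl true 2346 10000 p406 := Cl.C rfl k136

theorem cp226 : Cl true 2346 10000 p226 := Cl.B (c := 0x5f3901) (by decide +kernel) cp227 cp406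

theorem cp225 : Cl true 2346 10000 p225 := Cl.U cp226

theorem cp407 : Cl true 2346 10000 p407 := Cl.C rfl k137

theorem cp224 : Cl true 2346 10000 p224 := Cl.B (c := 0x0100025100) (by decide +kernel) cp225 cp407

theorem cp223 : Cl true 2346 10000 p223 := Cl.U cp224

theorem cp408 : Cl true 2346 10000 p408 := Cl.C rfl k138

theorem cp222 : Cl true 2346 10000 p222 := Cl.B (c := 0x4e3901) (by decide +kernel) cp223 cp408

theorem cp221 : Cl true 2346 10000 p221 := Cl.U cp222

theorem cp409 : Cl true 2346 10000 p409 := Cl.C rfl k139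

theorem cp220 : Cl true 2346 10000 p220 := Cl.B (c := 0x0302040500) (by decide +kernel) cp221 cp409

theorem cp219 : Cl true 2346 10000 p219 := Cl.U cp220

theorem cp4 : Cl true 2346 10000 p4 := Cl.B (c := 0x0100020300) (by decide +kernel) cp5 cp219

theorem cp3 : Cl true 2346 10000 p3 := Cl.U cp4

theorem cp410 : Cl true 2346 10000 p410 := Cl.C rfl k140

theorem cp2 : Cl true 2346 10000 p2 := Cl.B (c := 0x190101) (by decide +kernel) cp3 cp410

theorem cp1 : Cl true 2346 10000 p1 := Cl.U cp2

theorem cp419 : Cl true 2346 10000 p419 := Cl.C rfl k141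

theorem cp424 : Cl true 2346 10000 p424 := Cl.C rfl k142

theorem cp427 : Cl true 2346 10000 p427 := Cl.C rfl k143

theorem cp434 : Cl true 2346 10000 p434 := Cl.C rfl k144

theorem cp437 : Cl true 2346 10000 p437 := Cl.C rfl k145

theorem cp440 : Cl true 2346 10000 p440 := Cl.C rfl k146

theorem cp442 : Cl true 2346 10000 p442 := Cl.C rfl k147

theorem cp444 : Cl true 2346 10000 p444 := Cl.C rfl k148

theorem cp445 : Cl true 2346 10000 p445 := Cl.C rfl k149

theorem cp443 : Cl true 2346 10000 p443 := Cl.B (c := 0x09080a0b00) (by decide +kernel) cp444 cp445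

theorem cp441 : Cl true 2346 10000 p441 := Cl.B (c := 0x4300039200) (by decide +kernel) cp442 cp443

theorem cp439 : Cl true 2346 10000 p439 := Cl.B (c := 0x0302049100) (by decide +kernel) cp440 cp441

theorem cp446 : Cl true 2346 10000 p446 := Cl.C rfl k150

theorem cp438 : Cl true 2346 10000 p438 := Cl.B (c := 0x0504067d00) (by decide +kernel) cp439 cp446

theorem cp436 : Cl true 2346 10000 p436 := Cl.B (c := 0x0100025600) (by decide +kernel) cp437 cp438

theorem cp435 : Cl true 2346 10000 p435 := Cl.U cp436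

theorem cp433 : Cl true 2346 10000 p433 := Cl.B (c := 0x800b01) (by decide +kernel) cp434 cp435

theorem cp432 : Cl true 2346 10000 p432 := Cl.U cp433

theorem cp447 : Cl true 2346 10000 p447 := Cl.C rfl k151

theorem cp431 : Cl true 2346 10000 p431 := Cl.B (c := 0x0706080900) (by decide +kernel) cp432 cp447

theorem cp430 : Cl true 2346 10000 p430 := Cl.U cp431

theorem cp448 : Cl true 2346 10000 p448 := Cl.C rfl k152

theorem cp429 : Cl true 2346 10000 p429 := Cl.B (c := 0x0504060700) (by decide +kernel) cp430 cp448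

theorem cp428 : Cl true 2346 10000 p428 := Cl.U cp429

theorem cp426 : Cl true 2346 10000 p426 := Cl.B (c := 0x0706081f00) (by decide +kernel) cp427 cp428

theorem cp425 : Cl true 2346 10000 p425 := Cl.U cp426

theorem cp423 : Cl true 2346 10000 p423 := Cl.B (c := 0x4f4302) (by decide +kernel) cp424 cp425

theorem cp422 : Cl true 2346 10000 p422 := Cl.U cp423

theorem cp449 : Cl true 2346 10000 p449 := Cl.C rfl k153

theorem cp421 : Cl true 2346 10000 p421 := Cl.B (c := 0x614f01) (by decide +kernel) cp422 cp449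

theorem cp420 : Cl true 2346 10000 p420 := Cl.U cp421

theorem cp418 : Cl true 2346 10000 p418 := Cl.B (c := 0x0100025200) (by decide +kernel) cp419 cp420

theorem cp417 : Cl true 2346 10000 p417 := Cl.U cp418

theorem cp450 : Cl true 2346 10000 p450 := Cl.C rfl k154

theorem cp416 : Cl true 2346 10000 p416 := Cl.B (c := 0x0302040500) (by decide +kernel) cp417 cp450

theorem cp415 : Cl true 2346 10000 p415 := Cl.U cp416

theorem cp459 : Cl true 2346 10000 p459 := Cl.C rfl k155

theorem cp461 : Cl true 2346 10000 p461 := Cl.C rfl k156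

theorem cp466 : Cl true 2346 10000 p466 := Cl.C rfl k157

theorem cp469 : Cl true 2346 10000 p469 := Cl.C rfl k158

theorem cp471 : Cl true 2346 10000 p471 := Cl.C rfl k159

theorem cp473 : Cl true 2346 10000 p473 := Cl.C rfl k160

theorem cp475 : Cl true 2346 10000 p475 := Cl.C rfl k161

theorem cp476 : Cl true 2346 10000 p476 := Cl.C rfl k162

theorem cp474 : Cl true 2346 10000 p474 := Cl.B (c := 0x09080a0b00) (by decide +kernel) cp475 cp476

theorem cp472 : Cl true 2346 10000 p472 := Cl.B (c := 0x4700488300) (by decide +kernel) cp473 cp474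

theorem cp470 : Cl true 2346 10000 p470 := Cl.B (c := 0x4802058200) (by decide +kernel) cp471 cp472

theorem cp468 : Cl true 2346 10000 p468 := Cl.B (c := 0x0504066e00) (by decide +kernel) cp469 cp470

theorem cp467 : Cl true 2346 10000 p467 := Cl.U cp468

theorem cp465 : Cl true 2346 10000 p465 := Cl.B (c := 0x710b01) (by decide +kernel) cp466 cp467

theorem cp464 : Cl true 2346 10000 p464 := Cl.U cp465

theorem cp477 : Cl true 2346 10000 p477 := Cl.C rfl k163

theorem cp463 : Cl true 2346 10000 p463 := Cl.B (c := 0x0706080900) (by decide +kernel) cp464 cp477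

theorem cp462 : Cl true 2346 10000 p462 := Cl.U cp463

theorem cp460 : Cl true 2346 10000 p460 := Cl.B (c := 0x0504060700) (by decide +kernel) cp461 cp462

theorem cp458 : Cl true 2346 10000 p458 := Cl.B (c := 0x0100024c00) (by decide +kernel) cp459 cp460

theorem cp457 : Cl true 2346 10000 p457 := Cl.U cp458

theorem cp478 : Cl true 2346 10000 p478 := Cl.C rfl k164

theorem cp456 : Cl true 2346 10000 p456 := Cl.B (c := 0x564701) (by decide +kernel) cp457 cp478

theorem cp455 : Cl true 2346 10000 p455 := Cl.U cp456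

theorem cp479 : Cl true 2346 10000 p479 := Cl.C rfl k165

theorem cp454 : Cl true 2346 10000 p454 := Cl.B (c := 0x0100024a00) (by decide +kernel) cp455 cp479

theorem cp453 : Cl true 2346 10000 p453 := Cl.U cp454

theorem cp480 : Cl true 2346 10000 p480 := Cl.C rfl k166

theorem cp452 : Cl true 2346 10000 p452 := Cl.B (c := 0x0302040500) (by decide +kernel) cp453 cp480

theorem cp451 : Cl true 2346 10000 p451 := Cl.U cp452

theorem cp414 : Cl true 2346 10000 p414 := Cl.B (c := 0x0100020300) (by decide +kernel) cp415 cp451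

theorem cp413 : Cl true 2346 10000 p413 := Cl.U cp414

theorem cp487 : Cl true 2346 10000 p487 := Cl.C rfl k167

theorem cp492 : Cl true 2346 10000 p492 := Cl.C rfl k168

theorem cp495 : Cl true 2346 10000 p495 := Cl.C rfl k169

theorem cp503 : Cl true 2346 10000 p503 := Cl.C rfl k170

theorem cp504 : Cl true 2346 10000 p504 := Cl.C rfl k171

theorem cp502 : Cl true 2346 10000 p502 := Cl.B (c := 0x890b01) (by decide +kernel) cp503 cp504

theorem cp501 : Cl true 2346 10000 p501 := Cl.U cp502

theorem cp505 : Cl true 2346 10000 p505 := Cl.C rfl k172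

theorem cp500 : Cl true 2346 10000 p500 := Cl.B (c := 0x0706080900) (by decide +kernel) cp501 cp505

theorem cp499 : Cl true 2346 10000 p499 := Cl.U cp500

theorem cp506 : Cl true 2346 10000 p506 := Cl.C rfl k173

theorem cp498 : Cl true 2346 10000 p498 := Cl.B (c := 0x0504060700) (by decide +kernel) cp499 cp506

theorem cp497 : Cl true 2346 10000 p497 := Cl.U cp498

theorem cp507 : Cl true 2346 10000 p507 := Cl.C rfl k174

theorem cp496 : Cl true 2346 10000 p496 := Cl.B (c := 0x644f01) (by decide +kernel) cp497 cp507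

theorem cp494 : Cl true 2346 10000 p494 := Cl.B (c := 0x644302) (by decide +kernel) cp495 cp496

theorem cp493 : Cl true 2346 10000 p493 := Cl.U cp494

theorem cp491 : Cl true 2346 10000 p491 := Cl.B (c := 0x0100025200) (by decide +kernel) cp492 cp493

theorem cp490 : Cl true 2346 10000 p490 := Cl.U cp491

theorem cp508 : Cl true 2346 10000 p508 := Cl.C rfl k175

theorem cp489 : Cl true 2346 10000 p489 := Cl.B (c := 0x614f01) (by decide +kernel) cp490 cp508

theorem cp488 : Cl true 2346 10000 p488 := Cl.U cp489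

theorem cp486 : Cl true 2346 10000 p486 := Cl.B (c := 0x0404) (by decide +kernel) cp487 cp488

theorem cp485 : Cl true 2346 10000 p485 := Cl.U cp486

theorem cp509 : Cl true 2346 10000 p509 := Cl.C rfl k176

theorem cp484 : Cl true 2346 10000 p484 := Cl.B (c := 0x0302040500) (by decide +kernel) cp485 cp509

theorem cp483 : Cl true 2346 10000 p483 := Cl.U cp484

theorem cp518 : Cl true 2346 10000 p518 := Cl.C rfl k177

theorem cp520 : Cl true 2346 10000 p520 := Cl.C rfl k178

theorem cp525 : Cl true 2346 10000 p525 := Cl.C rfl k179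

theorem cp528 : Cl true 2346 10000 p528 := Cl.C rfl k180

theorem cp530 : Cl true 2346 10000 p530 := Cl.C rfl k181

theorem cp532 : Cl true 2346 10000 p532 := Cl.C rfl k182

theorem cp534 : Cl true 2346 10000 p534 := Cl.C rfl k183

theorem cp535 : Cl true 2346 10000 p535 := Cl.C rfl k184

theorem cp533 : Cl true 2346 10000 p533 := Cl.B (c := 0x09080a0b00) (by decide +kernel) cp534 cp535

theorem cp531 : Cl true 2346 10000 p531 := Cl.B (c := 0x4f00509000) (by decide +kernel) cp532 cp533

theorem cp529 : Cl true 2346 10000 p529 := Cl.B (c := 0x5002058f00) (by decide +kernel) cp530 cp531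

theorem cp527 : Cl true 2346 10000 p527 := Cl.B (c := 0x0504067e00) (by decide +kernel) cp528 cp529

theorem cp526 : Cl true 2346 10000 p526 := Cl.U cp527

theorem cp524 : Cl true 2346 10000 p524 := Cl.B (c := 0x810b01) (by decide +kernel) cp525 cp526

theorem cp523 : Cl true 2346 10000 p523 := Cl.U cp524

theorem cp536 : Cl true 2346 10000 p536 := Cl.C rfl k185

theorem cp522 : Cl true 2346 10000 p522 := Cl.B (c := 0x0706080900) (by decide +kernel) cp523 cp536

theorem cp521 : Cl true 2346 10000 p521 := Cl.U cp522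

theorem cp519 : Cl true 2346 10000 p519 := Cl.B (c := 0x0504060700) (by decide +kernel) cp520 cp521

theorem cp517 : Cl true 2346 10000 p517 := Cl.B (c := 0x0100025400) (by decide +kernel) cp518 cp519

theorem cp516 : Cl true 2346 10000 p516 := Cl.U cp517

theorem cp537 : Cl true 2346 10000 p537 := Cl.C rfl k186

theorem cp515 : Cl true 2346 10000 p515 := Cl.B (c := 0x614f01) (by decide +kernel) cp516 cp537

theorem cp514 : Cl true 2346 10000 p514 := Cl.U cp515

theorem cp538 : Cl true 2346 10000 p538 := Cl.C rfl k187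

theorem cp513 : Cl true 2346 10000 p513 := Cl.B (c := 0x0100025200) (by decide +kernel) cp514 cp538

theorem cp512 : Cl true 2346 10000 p512 := Cl.U cp513

theorem cp539 : Cl true 2346 10000 p539 := Cl.C rfl k188

theorem cp511 : Cl true 2346 10000 p511 := Cl.B (c := 0x0302040500) (by decide +kernel) cp512 cp539

theorem cp510 : Cl true 2346 10000 p510 := Cl.U cp511

theorem cp482 : Cl true 2346 10000 p482 := Cl.B (c := 0x0100020300) (by decide +kernel) cp483 cp510

theorem cp481 : Cl true 2346 10000 p481 := Cl.U cp482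

theorem cp412 : Cl true 2346 10000 p412 := Cl.B (c := 0x180101) (by decide +kernel) cp413 cp481

theorem cp411 : Cl true 2346 10000 p411 := Cl.U cp412

theorem cp0 : Cl true 2346 10000 p0 := Cl.B (c := 0x180001) (by decide +kernel) cp1 cp411

theorem co : Cl true 2346 10000 Pa.o := Cl.U cp0

end Pool.Agent.Lib.MP_7fdcdd_gt.BB.CII
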