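import Pool.Agent.Lib.MP_7fdcdd_gt.BB.Tree
import Pool.Agent.Lib.MP_7fdcdd_gt.BB.CI0
import Pool.Agent.Lib.MP_7fdcdd_gt.BB.CI1
import Pool.Agent.Lib.MP_7fdcdd_gt.BB.CI2
import Pool.Agent.Lib.MP_7fdcdd_gt.BB.CI3
import Pool.Agent.Lib.MP_7fdcdd_gt.BB.CI4

/-! Certificate data: composition. -/

namespace Pool.Agent.Lib.MP_7fdcdd_gt.BB.CI

theorem cp17 : Cl false 3335 10000 p17 := Cl.C rfl k0

theorem cp18 : Cl false 3335 10000 p18 := Cl.C rfl k1

theorem cp16 : Cl false 3335 10000 p16 := Cl.B (c := 0x6b0b01) (by decide +kernel) cp17 cp18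

theorem cp15 : Cl false 3335 10000 p15 := Cl.U cp16

theorem cp19 : Cl false 3335 10000 p19 := Cl.C rfl k2

theorem cp14 : Cl false 3335 10000 p14 := Cl.B (c := 0x0404) (by decide +kernel) cp15 cp19

theorem cp13 : Cl false 3335 10000 p13 := Cl.U cp14

theorem cp20 : Cl false 3335 10000 p20 := Cl.C rfl k3

theorem cp12 : Cl false 3335 10000 p12 := Cl.B (c := 0x423901) (by decide +kernel) cp13 cp20

theorem cp11 : Cl false 3335 10000 p11 := Cl.U cp12

theorem cp25 : Cl false 3335 10000 p25 := Cl.C rfl k4

theorem cp29 : Cl false 3335 10000 p29 := Cl.C rfl k5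

theorem cp31 : Cl false 3335 10000 p31 := Cl.C rfl k6

theorem cp37 : Cl false 3335 10000 p37 := Cl.C rfl k7

theorem cp38 : Cl false 3335 10000 p38 := Cl.C rfl k8

theorem cp36 : Cl false 3335 10000 p36 := Cl.B (c := 0x763c01) (by decide +kernel) cp37 cp38

theorem cp35 : Cl false 3335 10000 p35 := Cl.U cp36

theorem cp39 : Cl false 3335 10000 p39 := Cl.C rfl k9

theorem cp34 : Cl false 3335 10000 p34 := Cl.B (c := 0x550901) (by decide +kernel) cp35 cp39

theorem cp33 : Cl false 3335 10000 p33 := Cl.U cp34

theorem cp40 : Cl false 3335 10000 p40 := Cl.C rfl k10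

theorem cp32 : Cl false 3335 10000 p32 := Cl.B (c := 0x7a3c01) (by decide +kernel) cp33 cp40

theorem cp30 : Cl false 3335 10000 p30 := Cl.B (c := 0x7a4402) (by decide +kernel) cp31 cp32

theorem cp28 : Cl false 3335 10000 p28 := Cl.B (c := 0x0100027700) (by decide +kernel) cp29 cp30

theorem cp27 : Cl false 3335 10000 p27 := Cl.U cp28

theorem cp49 : Cl false 3335 10000 p49 := Cl.C rfl k11

theorem cp62 : Cl false 3335 10000 p62 := Cl.C rfl k12

theorem cp63 : Cl false 3335 10000 p63 := Cl.C rfl k13

theorem cp61 : Cl false 3335 10000 p61 := Cl.B (c := 0x484805040603) (by decide +kernel) cp62 cp63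

theorem cp60 : Cl false 3335 10000 p60 := Cl.U cp61

theorem cp64 : Cl false 3335 10000 p64 := Cl.C rfl k14

theorem cp59 : Cl false 3335 10000 p59 := Cl.B (c := 0x09080a0b00) (by decide +kernel) cp60 cp64

theorem cp65 : Cl false 3335 10000 p65 := Cl.C rfl k15

theorem cp58 : Cl false 3335 10000 p58 := Cl.B (c := 0x0504068700) (by decide +kernel) cp59 cp65

theorem cp57 : Cl false 3335 10000 p57 := Cl.U cp58

theorem cp66 : Cl false 3335 10000 p66 := Cl.C rfl k16

theorem cp56 : Cl false 3335 10000 p56 := Cl.B (c := 0x898701) (by decide +kernel) cp57 cp66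

theorem cp55 : Cl false 3335 10000 p55 := Cl.U cp56

theorem cp70 : Cl false 3335 10000 p70 := Cl.C rfl k17

theorem cp71 : Cl false 3335 10000 p71 := Cl.C rfl k18

theorem cp69 : Cl false 3335 10000 p69 := Cl.B (c := 0x814601) (by decide +kernel) cp70 cp71

theorem cp72 : Cl false 3335 10000 p72 := Cl.C rfl k19

theorem cp68 : Cl false 3335 10000 p68 := Cl.B (c := 0x8706098b00) (by decide +kernel) cp69 cp72

theorem cp67 : Cl false 3335 10000 p67 := Cl.U cp68

theorem cp54 : Cl false 3335 10000 p54 := Cl.B (c := 0x09080a2000) (by decide +kernel) cp55 cp67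

theorem cp53 : Cl false 3335 10000 p53 := Cl.U cp54

theorem cp73 : Cl false 3335 10000 p73 := Cl.C rfl k20

theorem cp52 : Cl false 3335 10000 p52 := Cl.B (c := 0x0404) (by decide +kernel) cp53 cp73

theorem cp51 : Cl false 3335 10000 p51 := Cl.U cp52

theorem cp74 : Cl false 3335 10000 p74 := Cl.C rfl k21

theorem cp50 : Cl false 3335 10000 p50 := Cl.B (c := 0x0706080900) (by decide +kernel) cp51 cp74

theorem cp48 : Cl false 3335 10000 p48 := Cl.B (c := 0x0100028200) (by decide +kernel) cp49 cp50

theorem cp47 : Cl false 3335 10000 p47 := Cl.U cp48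

theorem cp76 : Cl false 3335 10000 p76 := Cl.C rfl k22

theorem cp82 : Cl false 3335 10000 p82 := Cl.C rfl k23

theorem cp86 : Cl false 3335 10000 p86 := Cl.C rfl k24

theorem cp87 : Cl false 3335 10000 p87 := Cl.C rfl k25

theorem cp85 : Cl false 3335 10000 p85 := Cl.B (c := 0x814601) (by decide +kernel) cp86 cp87

theorem cp88 : Cl false 3335 10000 p88 := Cl.C rfl k26

theorem cp84 : Cl false 3335 10000 p84 := Cl.B (c := 0x8406099100) (by decide +kernel) cp85 cp88

theorem cp83 : Cl false 3335 10000 p83 := Cl.U cp84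

theorem cp81 : Cl false 3335 10000 p81 := Cl.B (c := 0x09080a2000) (by decide +kernel) cp82 cp83

theorem cp80 : Cl false 3335 10000 p80 := Cl.U cp81

theorem cp89 : Cl false 3335 10000 p89 := Cl.C rfl k27

theorem cp79 : Cl false 3335 10000 p79 := Cl.B (c := 0x0404) (by decide +kernel) cp80 cp89

theorem cp78 : Cl false 3335 10000 p78 := Cl.U cp79

theorem cp102 : Cl false 3335 10000 p102 := Cl.C rfl k28

theorem cp107 : Cl false 3335 10000 p107 := Cl.C rfl k29

theorem cp109 : Cl false 3335 10000 p109 := Cl.C rfl k30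

theorem cp112 : Cl false 3335 10000 p112 := Cl.C rfl k31

theorem cp117 : Cl false 3335 10000 p117 := Cl.C rfl k32

theorem cp119 : Cl false 3335 10000 p119 := Cl.C rfl k33

theorem cp121 : Cl false 3335 10000 p121 := Cl.C rfl k34

theorem cp122 : Cl false 3335 10000 p122 := Cl.C rfl k35

theorem cp120 : Cl false 3335 10000 p120 := Cl.B (c := 0x0504069300) (by decide +kernel) cp121 cp122

theorem cp118 : Cl false 3335 10000 p118 := Cl.B (c := 0x8a080b9d00) (by decide +kernel) cp119 cp120

theorem cp116 : Cl false 3335 10000 p116 := Cl.B (c := 0x0b0a0c2100) (by decide +kernel) cp117 cp118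

theorem cp115 : Cl false 3335 10000 p115 := Cl.U cp116

theorem cp123 : Cl false 3335 10000 p123 := Cl.C rfl k36

theorem cp114 : Cl false 3335 10000 p114 := Cl.B (c := 0x9b8401) (by decide +kernel) cp115 cp123

theorem cp113 : Cl false 3335 10000 p113 := Cl.U cp114

theorem cp111 : Cl false 3335 10000 p111 := Cl.B (c := 0x0904) (by decide +kernel) cp112 cp113

theorem cp110 : Cl false 3335 10000 p110 := Cl.U cp111

theorem cp108 : Cl false 3335 10000 p108 := Cl.B (c := 0x856501) (by decide +kernel) cp109 cp110

theorem cp106 : Cl false 3335 10000 p106 := Cl.B (c := 0x855d01) (by decide +kernel) cp107 cp108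

theorem cp105 : Cl false 3335 10000 p105 := Cl.U cp106

theorem cp124 : Cl false 3335 10000 p124 := Cl.C rfl k37

theorem cp104 : Cl false 3335 10000 p104 := Cl.B (c := 0x988501) (by decide +kernel) cp105 cp124

theorem cp103 : Cl false 3335 10000 p103 := Cl.U cp104

theorem cp101 : Cl false 3335 10000 p101 := Cl.B (c := 0x484805040703) (by decide +kernel) cp102 cp103

theorem cp100 : Cl false 3335 10000 p100 := Cl.U cp101

theorem cp125 : Cl false 3335 10000 p125 := Cl.C rfl k38

theorem cp99 : Cl false 3335 10000 p99 := Cl.B (c := 0x0706088a00) (by decide +kernel) cp100 cp125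

theorem cp98 : Cl false 3335 10000 p98 := Cl.U cp99

theorem cp126 : Cl false 3335 10000 p126 := Cl.C rfl k39

theorem cp97 : Cl false 3335 10000 p97 := Cl.B (c := 0x918a01) (by decide +kernel) cp98 cp126

theorem cp96 : Cl false 3335 10000 p96 := Cl.U cp97

theorem cp127 : Cl false 3335 10000 p127 := Cl.C rfl k40

theorem cp95 : Cl false 3335 10000 p95 := Cl.B (c := 0x0404) (by decide +kernel) cp96 cp127

theorem cp94 : Cl false 3335 10000 p94 := Cl.U cp95

theorem cp128 : Cl false 3335 10000 p128 := Cl.C rfl k41

theorem cp93 : Cl false 3335 10000 p93 := Cl.B (c := 0x09080a0b00) (by decide +kernel) cp94 cp128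

theorem cp92 : Cl false 3335 10000 p92 := Cl.U cp93

theorem cp129 : Cl false 3335 10000 p129 := Cl.C rfl k42

theorem cp91 : Cl false 3335 10000 p91 := Cl.B (c := 0x4804078400) (by decide +kernel) cp92 cp129

theorem cp90 : Cl false 3335 10000 p90 := Cl.U cp91

theorem cp77 : Cl false 3335 10000 p77 := Cl.B (c := 0x0706080900) (by decide +kernel) cp78 cp90

theorem cp75 : Cl false 3335 10000 p75 := Cl.B (c := 0x3900038200) (by decide +kernel) cp76 cp77

theorem cp46 : Cl false 3335 10000 p46 := Cl.B (c := 0x0302046500) (by decide +kernel) cp47 cp75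

theorem cp130 : Cl false 3335 10000 p130 := Cl.C rfl k43

theorem cp45 : Cl false 3335 10000 p45 := Cl.B (c := 0x3900035800) (by decide +kernel) cp46 cp130

theorem cp44 : Cl false 3335 10000 p44 := Cl.U cp45

theorem cp131 : Cl false 3335 10000 p131 := Cl.C rfl k44

theorem cp43 : Cl false 3335 10000 p43 := Cl.B (c := 0x794601) (by decide +kernel) cp44 cp131

theorem cp132 : Cl false 3335 10000 p132 := Cl.C rfl k45

theorem cp42 : Cl false 3335 10000 p42 := Cl.B (c := 0x3900037700) (by decide +kernel) cp43 cp132

theorem cp41 : Cl false 3335 10000 p41 := Cl.U cp42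

theorem cp26 : Cl false 3335 10000 p26 := Cl.B (c := 0x0302046300) (by decide +kernel) cp27 cp41

theorem cp24 : Cl false 3335 10000 p24 := Cl.B (c := 0x0100025e00) (by decide +kernel) cp25 cp26

theorem cp23 : Cl false 3335 10000 p23 := Cl.U cp24

theorem cp133 : Cl false 3335 10000 p133 := Cl.C rfl k46

theorem cp22 : Cl false 3335 10000 p22 := Cl.B (c := 0x423901) (by decide +kernel) cp23 cp133

theorem cp21 : Cl false 3335 10000 p21 := Cl.U cp22

theorem cp10 : Cl false 3335 10000 p10 := Cl.B (c := 0x680901) (by decide +kernel) cp11 cp21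

theorem cp9 : Cl false 3335 10000 p9 := Cl.U cp10

theorem cp134 : Cl false 3335 10000 p134 := Cl.C rfl k47

theorem cp8 : Cl false 3335 10000 p8 := Cl.B (c := 0x0504060700) (by decide +kernel) cp9 cp134

theorem cp7 : Cl false 3335 10000 p7 := Cl.U cp8

theorem cp143 : Cl false 3335 10000 p143 := Cl.C rfl k48

theorem cp147 : Cl false 3335 10000 p147 := Cl.C rfl k49

theorem cp155 : Cl false 3335 10000 p155 := Cl.C rfl k50

theorem cp156 : Cl false 3335 10000 p156 := Cl.C rfl k51

theorem cp154 : Cl false 3335 10000 p154 := Cl.B (c := 0x640b01) (by decide +kernel) cp155 cp156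

theorem cp157 : Cl false 3335 10000 p157 := Cl.C rfl k52

theorem cp153 : Cl false 3335 10000 p153 := Cl.B (c := 0x0504068900) (by decide +kernel) cp154 cp157

theorem cp152 : Cl false 3335 10000 p152 := Cl.U cp153

theorem cp158 : Cl false 3335 10000 p158 := Cl.C rfl k53

theorem cp151 : Cl false 3335 10000 p151 := Cl.B (c := 0x0706080900) (by decide +kernel) cp152 cp158

theorem cp150 : Cl false 3335 10000 p150 := Cl.U cp151

theorem cp167 : Cl false 3335 10000 p167 := Cl.C rfl k54

theorem cp168 : Cl false 3335 10000 p168 := Cl.C rfl k55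

theorem cp166 : Cl false 3335 10000 p166 := Cl.B (c := 0x525802) (by decide +kernel) cp167 cp168

theorem cp165 : Cl false 3335 10000 p165 := Cl.U cp166

theorem cp169 : Cl false 3335 10000 p169 := Cl.C rfl k56

theorem cp164 : Cl false 3335 10000 p164 := Cl.B (c := 0x995501) (by decide +kernel) cp165 cp169

theorem cp163 : Cl false 3335 10000 p163 := Cl.U cp164

theorem cp170 : Cl false 3335 10000 p170 := Cl.C rfl k57

theorem cp162 : Cl false 3335 10000 p162 := Cl.B (c := 0x0604) (by decide +kernel) cp163 cp170

theorem cp161 : Cl false 3335 10000 p161 := Cl.U cp162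

theorem cp175 : Cl false 3335 10000 p175 := Cl.C rfl k58

theorem cp176 : Cl false 3335 10000 p176 := Cl.C rfl k59

theorem cp174 : Cl false 3335 10000 p174 := Cl.B (c := 0xa15c01) (by decide +kernel) cp175 cp176

theorem cp173 : Cl false 3335 10000 p173 := Cl.U cp174

theorem cp177 : Cl false 3335 10000 p177 := Cl.C rfl k60

theorem cp172 : Cl false 3335 10000 p172 := Cl.B (c := 0x584301) (by decide +kernel) cp173 cp177

theorem cp171 : Cl false 3335 10000 p171 := Cl.U cp172

theorem cp160 : Cl false 3335 10000 p160 := Cl.B (c := 0x0706080900) (by decide +kernel) cp161 cp171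

theorem cp159 : Cl false 3335 10000 p159 := Cl.U cp160

theorem cp149 : Cl false 3335 10000 p149 := Cl.B (c := 0x0100025a00) (by decide +kernel) cp150 cp159

theorem cp148 : Cl false 3335 10000 p148 := Cl.U cp149

theorem cp146 : Cl false 3335 10000 p146 := Cl.B (c := 0x5e0901) (by decide +kernel) cp147 cp148

theorem cp145 : Cl false 3335 10000 p145 := Cl.U cp146

theorem cp180 : Cl false 3335 10000 p180 := Cl.C rfl k61

theorem cp183 : Cl false 3335 10000 p183 := Cl.C rfl k62

theorem cp185 : Cl false 3335 10000 p185 := Cl.C rfl k63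

theorem cp187 : Cl false 3335 10000 p187 := Cl.C rfl k64

theorem cp190 : Cl false 3335 10000 p190 := Cl.C rfl k65

theorem cp191 : Cl false 3335 10000 p191 := Cl.C rfl k66

theorem cp189 : Cl false 3335 10000 p189 := Cl.B (c := 0x09080a2000) (by decide +kernel) cp190 cp191

theorem cp188 : Cl false 3335 10000 p188 := Cl.U cp189

theorem cp186 : Cl false 3335 10000 p186 := Cl.B (c := 0x0706080900) (by decide +kernel) cp187 cp188

theorem cp184 : Cl false 3335 10000 p184 := Cl.B (c := 0x3900037900) (by decide +kernel) cp185 cp186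

theorem cp182 : Cl false 3335 10000 p182 := Cl.B (c := 0x0302046f00) (by decide +kernel) cp183 cp184

theorem cp181 : Cl false 3335 10000 p181 := Cl.U cp182

theorem cp179 : Cl false 3335 10000 p179 := Cl.B (c := 0x720901) (by decide +kernel) cp180 cp181

theorem cp178 : Cl false 3335 10000 p178 := Cl.U cp179

theorem cp144 : Cl false 3335 10000 p144 := Cl.B (c := 0x673c01) (by decide +kernel) cp145 cp178

theorem cp142 : Cl false 3335 10000 p142 := Cl.B (c := 0x0100025600) (by decide +kernel) cp143 cp144

theorem cp141 : Cl false 3335 10000 p141 := Cl.U cp142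

theorem cp201 : Cl false 3335 10000 p201 := Cl.C rfl k67

theorem cp203 : Cl false 3335 10000 p203 := Cl.C rfl k68

theorem cp204 : Cl false 3335 10000 p204 := Cl.C rfl k69

theorem cp202 : Cl false 3335 10000 p202 := Cl.B (c := 0x09080a0b00) (by decide +kernel) cp203 cp204

theorem cp200 : Cl false 3335 10000 p200 := Cl.B (c := 0x525802) (by decide +kernel) cp201 cp202

theorem cp199 : Cl false 3335 10000 p199 := Cl.U cp200

theorem cp205 : Cl false 3335 10000 p205 := Cl.C rfl k70

theorem cp198 : Cl false 3335 10000 p198 := Cl.B (c := 0x5d0901) (by decide +kernel) cp199 cp205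

theorem cp197 : Cl false 3335 10000 p197 := Cl.U cp198

theorem cp206 : Cl false 3335 10000 p206 := Cl.C rfl k71

theorem cp196 : Cl false 3335 10000 p196 := Cl.B (c := 0x550701) (by decide +kernel) cp197 cp206

theorem cp195 : Cl false 3335 10000 p195 := Cl.U cp196

theorem cp207 : Cl false 3335 10000 p207 := Cl.C rfl k72

theorem cp194 : Cl false 3335 10000 p194 := Cl.B (c := 0x563d01) (by decide +kernel) cp195 cp207

theorem cp209 : Cl false 3335 10000 p209 := Cl.C rfl k73

theorem cp225 : Cl false 3335 10000 p225 := Cl.C rfl k74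

theorem cp230 : Cl false 3335 10000 p230 := Cl.C rfl k75

theorem cp233 : Cl false 3335 10000 p233 := Cl.C rfl k76

theorem cp234 : Cl false 3335 10000 p234 := Cl.C rfl k77

theorem cp232 : Cl false 3335 10000 p232 := Cl.B (c := 0x395102) (by decide +kernel) cp233 cp234

theorem cp231 : Cl false 3335 10000 p231 := Cl.U cp232

theorem cp229 : Cl false 3335 10000 p229 := Cl.B (c := 0x0706088d00) (by decide +kernel) cp230 cp231

theorem cp228 : Cl false 3335 10000 p228 := Cl.U cp229

theorem cp236 : Cl false 3335 10000 p236 := Cl.C rfl k78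

theorem cp238 : Cl false 3335 10000 p238 := Cl.C rfl k79

theorem cp240 : Cl false 3335 10000 p240 := Cl.C rfl k80

theorem cp243 : Cl false 3335 10000 p243 := Cl.C rfl k81

theorem cp249 : Cl false 3335 10000 p249 := Cl.C rfl k82

theorem cp251 : Cl false 3335 10000 p251 := Cl.C rfl k83

theorem cp255 : Cl false 3335 10000 p255 := Cl.C rfl k84

theorem cp257 : Cl false 3335 10000 p257 := Cl.C rfl k85

theorem cp259 : Cl false 3335 10000 p259 := Cl.C rfl k86

theorem cp260 : Cl false 3335 10000 p260 := Cl.C rfl k87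

theorem cp258 : Cl false 3335 10000 p258 := Cl.B (c := 0x0b0a0c0d00) (by decide +kernel) cp259 cp260

theorem cp256 : Cl false 3335 10000 p256 := Cl.B (c := 0x9704919800) (by decide +kernel) cp257 cp258

theorem cp254 : Cl false 3335 10000 p254 := Cl.B (c := 0x9106869600) (by decide +kernel) cp255 cp256

theorem cp253 : Cl false 3335 10000 p253 := Cl.U cp254

theorem cp261 : Cl false 3335 10000 p261 := Cl.C rfl k88

theorem cp252 : Cl false 3335 10000 p252 := Cl.B (c := 0x0504069100) (by decide +kernel) cp253 cp261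

theorem cp250 : Cl false 3335 10000 p250 := Cl.B (c := 0x86080b9500) (by decide +kernel) cp251 cp252

theorem cp248 : Cl false 3335 10000 p248 := Cl.B (c := 0x0b0a0c2100) (by decide +kernel) cp249 cp250

theorem cp247 : Cl false 3335 10000 p247 := Cl.U cp248

theorem cp262 : Cl false 3335 10000 p262 := Cl.C rfl k89

theorem cp246 : Cl false 3335 10000 p246 := Cl.B (c := 0x0706088600) (by decide +kernel) cp247 cp262

theorem cp245 : Cl false 3335 10000 p245 := Cl.U cp246

theorem cp263 : Cl false 3335 10000 p263 := Cl.C rfl k90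

theorem cp244 : Cl false 3335 10000 p244 := Cl.B (c := 0x8a8601) (by decide +kernel) cp245 cp263

theorem cp242 : Cl false 3335 10000 p242 := Cl.B (c := 0x0100021c00) (by decide +kernel) cp243 cp244

theorem cp241 : Cl false 3335 10000 p241 := Cl.U cp242

theorem cp239 : Cl false 3335 10000 p239 := Cl.B (c := 0x805701) (by decide +kernel) cp240 cp241

theorem cp237 : Cl false 3335 10000 p237 := Cl.B (c := 0x8004708e00) (by decide +kernel) cp238 cp239

theorem cp235 : Cl false 3335 10000 p235 := Cl.B (c := 0x7006098d00) (by decide +kernel) cp236 cp237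

theorem cp227 : Cl false 3335 10000 p227 := Cl.B (c := 0x09080a2000) (by decide +kernel) cp228 cp235

theorem cp226 : Cl false 3335 10000 p226 := Cl.U cp227

theorem cp224 : Cl false 3335 10000 p224 := Cl.B (c := 0x807801) (by decide +kernel) cp225 cp226

theorem cp223 : Cl false 3335 10000 p223 := Cl.U cp224

theorem cp264 : Cl false 3335 10000 p264 := Cl.C rfl k91

theorem cp222 : Cl false 3335 10000 p222 := Cl.B (c := 0x0404) (by decide +kernel) cp223 cp264

theorem cp221 : Cl false 3335 10000 p221 := Cl.U cp222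

theorem cp265 : Cl false 3335 10000 p265 := Cl.C rfl k92

theorem cp220 : Cl false 3335 10000 p220 := Cl.B (c := 0x09080a0b00) (by decide +kernel) cp221 cp265

theorem cp219 : Cl false 3335 10000 p219 := Cl.U cp220

theorem cp266 : Cl false 3335 10000 p266 := Cl.C rfl k93

theorem cp218 : Cl false 3335 10000 p218 := Cl.B (c := 0x0504067000) (by decide +kernel) cp219 cp266

theorem cp217 : Cl false 3335 10000 p217 := Cl.U cp218

theorem cp267 : Cl false 3335 10000 p267 := Cl.C rfl k94

theorem cp216 : Cl false 3335 10000 p216 := Cl.B (c := 0x710901) (by decide +kernel) cp217 cp267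

theorem cp215 : Cl false 3335 10000 p215 := Cl.U cp216

theorem cp272 : Cl false 3335 10000 p272 := Cl.C rfl k95

theorem cp279 : Cl false 3335 10000 p279 := Cl.C rfl k96

theorem cp284 : Cl false 3335 10000 p284 := Cl.C rfl k97

theorem cp286 : Cl false 3335 10000 p286 := Cl.C rfl k98

theorem cp293 : Cl false 3335 10000 p293 := Cl.C rfl k99

theorem cp295 : Cl false 3335 10000 p295 := Cl.C rfl k100

theorem cp304 : Cl false 3335 10000 p304 := Cl.C rfl k101

theorem cp309 : Cl false 3335 10000 p309 := Cl.C rfl k102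

theorem cp314 : Cl false 3335 10000 p314 := Cl.C rfl k103

theorem cp317 : Cl false 3335 10000 p317 := Cl.C rfl k104

theorem cp318 : Cl false 3335 10000 p318 := Cl.C rfl k105

theorem cp316 : Cl false 3335 10000 p316 := Cl.B (c := 0x3d0205ca00) (by decide +kernel) cp317 cp318

theorem cp315 : Cl false 3335 10000 p315 := Cl.U cp316

theorem cp313 : Cl false 3335 10000 p313 := Cl.B (c := 0x050406c900) (by decide +kernel) cp314 cp315

theorem cp312 : Cl false 3335 10000 p312 := Cl.U cp313

theorem cp319 : Cl false 3335 10000 p319 := Cl.C rfl k106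

theorem cp311 : Cl false 3335 10000 p311 := Cl.B (c := 0x070608c500) (by decide +kernel) cp312 cp319

theorem cp310 : Cl false 3335 10000 p310 := Cl.U cp311

theorem cp308 : Cl false 3335 10000 p308 := Cl.B (c := 0xc508c2c300) (by decide +kernel) cp309 cp310

theorem cp307 : Cl false 3335 10000 p307 := Cl.U cp308

theorem cp320 : Cl false 3335 10000 p320 := Cl.C rfl k107

theorem cp306 : Cl false 3335 10000 p306 := Cl.B (c := 0x09080ac200) (by decide +kernel) cp307 cp320

theorem cp305 : Cl false 3335 10000 p305 := Cl.U cp306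

theorem cp303 : Cl false 3335 10000 p303 := Cl.B (c := 0xc20a0d9600) (by decide +kernel) cp304 cp305

theorem cp302 : Cl false 3335 10000 p302 := Cl.U cp303

theorem cp321 : Cl false 3335 10000 p321 := Cl.C rfl k108

theorem cp301 : Cl false 3335 10000 p301 := Cl.B (c := 0x0b0a0c0d00) (by decide +kernel) cp302 cp321

theorem cp300 : Cl false 3335 10000 p300 := Cl.U cp301

theorem cp322 : Cl false 3335 10000 p322 := Cl.C rfl k109

theorem cp299 : Cl false 3335 10000 p299 := Cl.B (c := 0x997001) (by decide +kernel) cp300 cp322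

theorem cp298 : Cl false 3335 10000 p298 := Cl.U cp299

theorem cp323 : Cl false 3335 10000 p323 := Cl.C rfl k110

theorem cp297 : Cl false 3335 10000 p297 := Cl.B (c := 0xa28c01) (by decide +kernel) cp298 cp323

theorem cp296 : Cl false 3335 10000 p296 := Cl.U cp297

theorem cp294 : Cl false 3335 10000 p294 := Cl.B (c := 0x838c02) (by decide +kernel) cp295 cp296

theorem cp292 : Cl false 3335 10000 p292 := Cl.B (c := 0x0d0c0e2200) (by decide +kernel) cp293 cp294

theorem cp291 : Cl false 3335 10000 p291 := Cl.U cp292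

theorem cp324 : Cl false 3335 10000 p324 := Cl.C rfl k111

theorem cp290 : Cl false 3335 10000 p290 := Cl.B (c := 0x933d01) (by decide +kernel) cp291 cp324

theorem cp289 : Cl false 3335 10000 p289 := Cl.U cp290

theorem cp325 : Cl false 3335 10000 p325 := Cl.C rfl k112

theorem cp288 : Cl false 3335 10000 p288 := Cl.B (c := 0x0404) (by decide +kernel) cp289 cp325

theorem cp287 : Cl false 3335 10000 p287 := Cl.U cp288

theorem cp285 : Cl false 3335 10000 p285 := Cl.B (c := 0x8c04729100) (by decide +kernel) cp286 cp287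

theorem cp283 : Cl false 3335 10000 p283 := Cl.B (c := 0x7206098a00) (by decide +kernel) cp284 cp285

theorem cp282 : Cl false 3335 10000 p282 := Cl.U cp283

theorem cp326 : Cl false 3335 10000 p326 := Cl.C rfl k113

theorem cp281 : Cl false 3335 10000 p281 := Cl.B (c := 0x0504067200) (by decide +kernel) cp282 cp326

theorem cp280 : Cl false 3335 10000 p280 := Cl.U cp281

theorem cp278 : Cl false 3335 10000 p278 := Cl.B (c := 0x09080a8900) (by decide +kernel) cp279 cp280

theorem cp327 : Cl false 3335 10000 p327 := Cl.C rfl k114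

theorem cp277 : Cl false 3335 10000 p277 := Cl.B (c := 0x0b0a0c2100) (by decide +kernel) cp278 cp327

theorem cp276 : Cl false 3335 10000 p276 := Cl.U cp277

theorem cp328 : Cl false 3335 10000 p328 := Cl.C rfl k115

theorem cp275 : Cl false 3335 10000 p275 := Cl.B (c := 0x810b01) (by decide +kernel) cp276 cp328

theorem cp274 : Cl false 3335 10000 p274 := Cl.U cp275

theorem cp329 : Cl false 3335 10000 p329 := Cl.C rfl k116

theorem cp273 : Cl false 3335 10000 p273 := Cl.B (c := 0x5304077000) (by decide +kernel) cp274 cp329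

theorem cp271 : Cl false 3335 10000 p271 := Cl.B (c := 0x0100025a00) (by decide +kernel) cp272 cp273

theorem cp270 : Cl false 3335 10000 p270 := Cl.U cp271

theorem cp342 : Cl false 3335 10000 p342 := Cl.C rfl k117

theorem cp345 : Cl false 3335 10000 p345 := Cl.C rfl k118

theorem cp347 : Cl false 3335 10000 p347 := Cl.C rfl k119

theorem cp351 : Cl false 3335 10000 p351 := Cl.C rfl k120

theorem cp353 : Cl false 3335 10000 p353 := Cl.C rfl k121

theorem cp355 : Cl false 3335 10000 p355 := Cl.C rfl k122

theorem cp356 : Cl false 3335 10000 p356 := Cl.C rfl k123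

theorem cp354 : Cl false 3335 10000 p354 := Cl.B (c := 0x0b0a0c0d00) (by decide +kernel) cp355 cp356

theorem cp352 : Cl false 3335 10000 p352 := Cl.B (c := 0x8c04778d00) (by decide +kernel) cp353 cp354

theorem cp350 : Cl false 3335 10000 p350 := Cl.B (c := 0x7706788b00) (by decide +kernel) cp351 cp352

theorem cp349 : Cl false 3335 10000 p349 := Cl.U cp350

theorem cp357 : Cl false 3335 10000 p357 := Cl.C rfl k124

theorem cp348 : Cl false 3335 10000 p348 := Cl.B (c := 0x0504067700) (by decide +kernel) cp349 cp357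

theorem cp346 : Cl false 3335 10000 p346 := Cl.B (c := 0x78080b8a00) (by decide +kernel) cp347 cp348

theorem cp344 : Cl false 3335 10000 p344 := Cl.B (c := 0x0b0a0c2100) (by decide +kernel) cp345 cp346

theorem cp343 : Cl false 3335 10000 p343 := Cl.U cp344

theorem cp341 : Cl false 3335 10000 p341 := Cl.B (c := 0x535305040903) (by decide +kernel) cp342 cp343

theorem cp340 : Cl false 3335 10000 p340 := Cl.U cp341

theorem cp358 : Cl false 3335 10000 p358 := Cl.C rfl k125

theorem cp339 : Cl false 3335 10000 p339 := Cl.B (c := 0x7c0b01) (by decide +kernel) cp340 cp358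

theorem cp338 : Cl false 3335 10000 p338 := Cl.U cp339

theorem cp359 : Cl false 3335 10000 p359 := Cl.C rfl k126

theorem cp337 : Cl false 3335 10000 p337 := Cl.B (c := 0x837801) (by decide +kernel) cp338 cp359

theorem cp336 : Cl false 3335 10000 p336 := Cl.U cp337

theorem cp360 : Cl false 3335 10000 p360 := Cl.C rfl k127

theorem cp335 : Cl false 3335 10000 p335 := Cl.B (c := 0x0604) (by decide +kernel) cp336 cp360

theorem cp334 : Cl false 3335 10000 p334 := Cl.U cp335

theorem cp361 : Cl false 3335 10000 p361 := Cl.C rfl k128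

theorem cp333 : Cl false 3335 10000 p333 := Cl.B (c := 0x5304077000) (by decide +kernel) cp334 cp361

theorem cp332 : Cl false 3335 10000 p332 := Cl.U cp333

theorem cp362 : Cl false 3335 10000 p362 := Cl.C rfl k129

theorem cp331 : Cl false 3335 10000 p331 := Cl.B (c := 0x727001) (by decide +kernel) cp332 cp362

theorem cp330 : Cl false 3335 10000 p330 := Cl.U cp331

theorem cp269 : Cl false 3335 10000 p269 := Cl.B (c := 0x0706080900) (by decide +kernel) cp270 cp330

theorem cp268 : Cl false 3335 10000 p268 := Cl.U cp269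

theorem cp214 : Cl false 3335 10000 p214 := Cl.B (c := 0x0204) (by decide +kernel) cp215 cp268

theorem cp213 : Cl false 3335 10000 p213 := Cl.U cp214

theorem cp367 : Cl false 3335 10000 p367 := Cl.C rfl k130

theorem cp368 : Cl false 3335 10000 p368 := Cl.C rfl k131

theorem cp366 : Cl false 3335 10000 p366 := Cl.B (c := 0x0706080900) (by decide +kernel) cp367 cp368

theorem cp365 : Cl false 3335 10000 p365 := Cl.U cp366

theorem cp374 : Cl false 3335 10000 p374 := Cl.C rfl k132

theorem cp375 : Cl false 3335 10000 p375 := Cl.C rfl k133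

theorem cp373 : Cl false 3335 10000 p373 := Cl.B (c := 0x0204) (by decide +kernel) cp374 cp375

theorem cp372 : Cl false 3335 10000 p372 := Cl.U cp373

theorem cp376 : Cl false 3335 10000 p376 := Cl.C rfl k134

theorem cp371 : Cl false 3335 10000 p371 := Cl.B (c := 0x0706080900) (by decide +kernel) cp372 cp376

theorem cp370 : Cl false 3335 10000 p370 := Cl.U cp371

theorem cp377 : Cl false 3335 10000 p377 := Cl.C rfl k135

theorem cp369 : Cl false 3335 10000 p369 := Cl.B (c := 0x0504060700) (by decide +kernel) cp370 cp377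

theorem cp364 : Cl false 3335 10000 p364 := Cl.B (c := 0x490701) (by decide +kernel) cp365 cp369

theorem cp363 : Cl false 3335 10000 p363 := Cl.U cp364

theorem cp212 : Cl false 3335 10000 p212 := Cl.B (c := 0x550701) (by decide +kernel) cp213 cp363

theorem cp211 : Cl false 3335 10000 p211 := Cl.U cp212

theorem cp378 : Cl false 3335 10000 p378 := Cl.C rfl k136

theorem cp210 : Cl false 3335 10000 p210 := Cl.B (c := 0x613c01) (by decide +kernel) cp211 cp378

theorem cp208 : Cl false 3335 10000 p208 := Cl.B (c := 0x0100025600) (by decide +kernel) cp209 cp210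

theorem cp193 : Cl false 3335 10000 p193 := Cl.B (c := 0x0100025800) (by decide +kernel) cp194 cp208

theorem cp192 : Cl false 3335 10000 p192 := Cl.U cp193

theorem cp140 : Cl false 3335 10000 p140 := Cl.B (c := 0x5b0701) (by decide +kernel) cp141 cp192

theorem cp139 : Cl false 3335 10000 p139 := Cl.U cp140

theorem cp383 : Cl false 3335 10000 p383 := Cl.C rfl k137

theorem cp390 : Cl false 3335 10000 p390 := Cl.C rfl k138

theorem cp393 : Cl false 3335 10000 p393 := Cl.C rfl k139

theorem cp396 : Cl false 3335 10000 p396 := Cl.C rfl k140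

theorem cp397 : Cl false 3335 10000 p397 := Cl.C rfl k141

theorem cp395 : Cl false 3335 10000 p395 := Cl.B (c := 0x714601) (by decide +kernel) cp396 cp397

theorem cp394 : Cl false 3335 10000 p394 := Cl.U cp395

theorem cp392 : Cl false 3335 10000 p392 := Cl.B (c := 0x0706080900) (by decide +kernel) cp393 cp394

theorem cp391 : Cl false 3335 10000 p391 := Cl.U cp392

theorem cp389 : Cl false 3335 10000 p389 := Cl.B (c := 0x0204) (by decide +kernel) cp390 cp391

theorem cp388 : Cl false 3335 10000 p388 := Cl.U cp389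

theorem cp398 : Cl false 3335 10000 p398 := Cl.C rfl k142

theorem cp387 : Cl false 3335 10000 p387 := Cl.B (c := 0x0302046200) (by decide +kernel) cp388 cp398

theorem cp386 : Cl false 3335 10000 p386 := Cl.U cp387

theorem cp399 : Cl false 3335 10000 p399 := Cl.C rfl k143

theorem cp385 : Cl false 3335 10000 p385 := Cl.B (c := 0x3900035600) (by decide +kernel) cp386 cp399

theorem cp384 : Cl false 3335 10000 p384 := Cl.U cp385

theorem cp382 : Cl false 3335 10000 p382 := Cl.B (c := 0x680901) (by decide +kernel) cp383 cp384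

theorem cp381 : Cl false 3335 10000 p381 := Cl.U cp382

theorem cp400 : Cl false 3335 10000 p400 := Cl.C rfl k144

theorem cp380 : Cl false 3335 10000 p380 := Cl.B (c := 0x0504060700) (by decide +kernel) cp381 cp400

theorem cp379 : Cl false 3335 10000 p379 := Cl.U cp380

theorem cp138 : Cl false 3335 10000 p138 := Cl.B (c := 0x0302040500) (by decide +kernel) cp139 cp379

theorem cp137 : Cl false 3335 10000 p137 := Cl.U cp138

theorem cp401 : Cl false 3335 10000 p401 := Cl.C rfl k145

theorem cp136 : Cl false 3335 10000 p136 := Cl.B (c := 0x423901) (by decide +kernel) cp137 cp401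

theorem cp135 : Cl false 3335 10000 p135 := Cl.U cp136

theorem cp6 : Cl false 3335 10000 p6 := Cl.B (c := 0x470501) (by decide +kernel) cp7 cp135

theorem cp5 : Cl false 3335 10000 p5 := Cl.U cp6

theorem cp402 : Cl false 3335 10000 p402 := Cl.C rfl k146

theorem cp4 : Cl false 3335 10000 p4 := Cl.B (c := 0x0100020300) (by decide +kernel) cp5 cp402

theorem cp3 : Cl false 3335 10000 p3 := Cl.U cp4

theorem cp407 : Cl false 3335 10000 p407 := Cl.C rfl k147

theorem cp412 : Cl false 3335 10000 p412 := Cl.C rfl k148

theorem cp415 : Cl false 3335 10000 p415 := Cl.C rfl k149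

theorem cp416 : Cl false 3335 10000 p416 := Cl.C rfl k150

theorem cp414 : Cl false 3335 10000 p414 := Cl.B (c := 0x1900034f00) (by decide +kernel) cp415 cp416

theorem cp413 : Cl false 3335 10000 p413 := Cl.U cp414

theorem cp411 : Cl false 3335 10000 p411 := Cl.B (c := 0x0504060700) (by decide +kernel) cp412 cp413

theorem cp410 : Cl false 3335 10000 p410 := Cl.U cp411

theorem cp417 : Cl false 3335 10000 p417 := Cl.C rfl k151

theorem cp409 : Cl false 3335 10000 p409 := Cl.B (c := 0x421901) (by decide +kernel) cp410 cp417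

theorem cp408 : Cl false 3335 10000 p408 := Cl.U cp409

theorem cp406 : Cl false 3335 10000 p406 := Cl.B (c := 0x0302040500) (by decide +kernel) cp407 cp408

theorem cp405 : Cl false 3335 10000 p405 := Cl.U cp406

theorem cp418 : Cl false 3335 10000 p418 := Cl.C rfl k152

theorem cp404 : Cl false 3335 10000 p404 := Cl.B (c := 0x0100020300) (by decide +kernel) cp405 cp418

theorem cp403 : Cl false 3335 10000 p403 := Cl.U cp404

theorem cp2 : Cl false 3335 10000 p2 := Cl.B (c := 0x190101) (by decide +kernel) cp3 cp403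

theorem cp1 : Cl false 3335 10000 p1 := Cl.U cp2

theorem cp423 : Cl false 3335 10000 p423 := Cl.C rfl k153

theorem cp426 : Cl false 3335 10000 p426 := Cl.C rfl k154

theorem cp433 : Cl false 3335 10000 p433 := Cl.C rfl k155

theorem cp434 : Cl false 3335 10000 p434 := Cl.C rfl k156

theorem cp432 : Cl false 3335 10000 p432 := Cl.B (c := 0x660901) (by decide +kernel) cp433 cp434

theorem cp431 : Cl false 3335 10000 p431 := Cl.U cp432

theorem cp435 : Cl false 3335 10000 p435 := Cl.C rfl k157

theorem cp430 : Cl false 3335 10000 p430 := Cl.B (c := 0x0504060700) (by decide +kernel) cp431 cp435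

theorem cp429 : Cl false 3335 10000 p429 := Cl.U cp430

theorem cp438 : Cl false 3335 10000 p438 := Cl.C rfl k158

theorem cp440 : Cl false 3335 10000 p440 := Cl.C rfl k159

theorem cp441 : Cl false 3335 10000 p441 := Cl.C rfl k160

theorem cp439 : Cl false 3335 10000 p439 := Cl.B (c := 0x4e03056100) (by decide +kernel) cp440 cp441

theorem cp437 : Cl false 3335 10000 p437 := Cl.B (c := 0x0504061e00) (by decide +kernel) cp438 cp439

theorem cp436 : Cl false 3335 10000 p436 := Cl.U cp437

theorem cp428 : Cl false 3335 10000 p428 := Cl.B (c := 0x411901) (by decide +kernel) cp429 cp436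

theorem cp427 : Cl false 3335 10000 p427 := Cl.U cp428

theorem cp425 : Cl false 3335 10000 p425 := Cl.B (c := 0x0302040500) (by decide +kernel) cp426 cp427

theorem cp424 : Cl false 3335 10000 p424 := Cl.U cp425

theorem cp422 : Cl false 3335 10000 p422 := Cl.B (c := 0x0100020300) (by decide +kernel) cp423 cp424

theorem cp421 : Cl false 3335 10000 p421 := Cl.U cp422

theorem cp446 : Cl false 3335 10000 p446 := Cl.C rfl k161

theorem cp447 : Cl false 3335 10000 p447 := Cl.C rfl k162

theorem cp445 : Cl false 3335 10000 p445 := Cl.B (c := 0x0204) (by decide +kernel) cp446 cp447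

theorem cp444 : Cl false 3335 10000 p444 := Cl.U cp445

theorem cp450 : Cl false 3335 10000 p450 := Cl.C rfl k163

theorem cp453 : Cl false 3335 10000 p453 := Cl.C rfl k164

theorem cp454 : Cl false 3335 10000 p454 := Cl.C rfl k165

theorem cp452 : Cl false 3335 10000 p452 := Cl.B (c := 0x0504060700) (by decide +kernel) cp453 cp454

theorem cp451 : Cl false 3335 10000 p451 := Cl.U cp452

theorem cp449 : Cl false 3335 10000 p449 := Cl.B (c := 0x0302040500) (by decide +kernel) cp450 cp451

theorem cp448 : Cl false 3335 10000 p448 := Cl.U cp449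

theorem cp443 : Cl false 3335 10000 p443 := Cl.B (c := 0x0100020300) (by decide +kernel) cp444 cp448

theorem cp442 : Cl false 3335 10000 p442 := Cl.U cp443

theorem cp420 : Cl false 3335 10000 p420 := Cl.B (c := 0x180101) (by decide +kernel) cp421 cp442

theorem cp419 : Cl false 3335 10000 p419 := Cl.U cp420

theorem cp0 : Cl false 3335 10000 p0 := Cl.B (c := 0x180001) (by decide +kernel) cp1 cp419

theorem co : Cl false 3335 10000 Pa.o := Cl.U cp0

end Pool.Agent.Lib.MP_7fdcdd_gt.BB.CI
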