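import Pool.Agent.Lib.MP_7fdcdd_gt.BB.Hole
import Pool.Agent.Lib.MP_7fdcdd_gt.BB.CK0
import Pool.Agent.Lib.MP_7fdcdd_gt.BB.CK1
import Pool.Agent.Lib.MP_7fdcdd_gt.BB.CK2
import Pool.Agent.Lib.MP_7fdcdd_gt.BB.CK3
import Pool.Agent.Lib.MP_7fdcdd_gt.BB.CK4
import Pool.Agent.Lib.MP_7fdcdd_gt.BB.CK5
import Pool.Agent.Lib.MP_7fdcdd_gt.BB.CK6
import Pool.Agent.Lib.MP_7fdcdd_gt.BB.CK7
import Pool.Agent.Lib.MP_7fdcdd_gt.BB.CK8
import Pool.Agent.Lib.MP_7fdcdd_gt.BB.CK9
import Pool.Agent.Lib.MP_7fdcdd_gt.BB.CK10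
import Pool.Agent.Lib.MP_7fdcdd_gt.BB.CK11
import Pool.Agent.Lib.MP_7fdcdd_gt.BB.CK12
import Pool.Agent.Lib.MP_7fdcdd_gt.BB.CK13
import Pool.Agent.Lib.MP_7fdcdd_gt.BB.CK14
import Pool.Agent.Lib.MP_7fdcdd_gt.BB.CK15
import Pool.Agent.Lib.MP_7fdcdd_gt.BB.CK16
import Pool.Agent.Lib.MP_7fdcdd_gt.BB.CK17
import Pool.Agent.Lib.MP_7fdcdd_gt.BB.CK18
import Pool.Agent.Lib.MP_7fdcdd_gt.BB.CK19
import Pool.Agent.Lib.MP_7fdcdd_gt.BB.CK20
import Pool.Agent.Lib.MP_7fdcdd_gt.BB.CK21
import Pool.Agent.Lib.MP_7fdcdd_gt.BB.CK22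
import Pool.Agent.Lib.MP_7fdcdd_gt.BB.CK23
import Pool.Agent.Lib.MP_7fdcdd_gt.BB.CK24
import Pool.Agent.Lib.MP_7fdcdd_gt.BB.CK25
import Pool.Agent.Lib.MP_7fdcdd_gt.BB.CK26
import Pool.Agent.Lib.MP_7fdcdd_gt.BB.CK27

/-! Certificate data: composition. -/

namespace Pool.Agent.Lib.MP_7fdcdd_gt.BB.CK

theorem c0 : Cl false 3240 10000 p13 := Cl.S rfl k0 trivial

theorem c1 : Cl false 3240 10000 p12 := Cl.S rfl k1 ⟨c0, trivial⟩

theorem c2 : Cl false 3240 10000 p15 := Cl.S rfl k2 trivial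

theorem c3 : Cl false 3240 10000 p14 := Cl.S rfl k3 ⟨c2, trivial⟩

theorem c4 : Cl false 3240 10000 p18 := Cl.S rfl k4 trivial

theorem c5 : Cl false 3240 10000 p19 := Cl.S rfl k5 trivial

theorem c6 : Cl false 3240 10000 p16 := Cl.S rfl k6 ⟨c4, c5, trivial⟩

theorem c7 : Cl false 3240 10000 p9 := Cl.S rfl k7 ⟨c1, c3, c6, trivial⟩

theorem c8 : Cl false 3240 10000 p28 := Cl.S rfl k8 trivial

theorem c9 : Cl false 3240 10000 p29 := Cl.S rfl k9 trivial

theorem c10 : Cl false 3240 10000 p26 := Cl.S rfl k10 ⟨c8, c9, trivial⟩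

theorem c11 : Cl false 3240 10000 p33 := Cl.S rfl k11 trivial

theorem c12 : Cl false 3240 10000 p34 := Cl.S rfl k12 trivial

theorem c13 : Cl false 3240 10000 p31 := Cl.S rfl k13 ⟨c11, c12, trivial⟩

theorem c14 : Cl false 3240 10000 p36 := Cl.S rfl k14 trivial

theorem c15 : Cl false 3240 10000 p37 := Cl.S rfl k15 trivial

theorem c16 : Cl false 3240 10000 p24 := Cl.S rfl k16 ⟨c10, c13, c14, c15, trivial⟩

theorem c17 : Cl false 3240 10000 p38 := Cl.S rfl k17 trivial

theorem c18 : Cl false 3240 10000 p45 := Cl.S rfl k18 trivial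

theorem c19 : Cl false 3240 10000 p46 := Cl.S rfl k19 trivial

theorem c20 : Cl false 3240 10000 p43 := Cl.S rfl k20 ⟨c18, c19, trivial⟩

theorem c21 : Cl false 3240 10000 p47 := Cl.S rfl k21 trivial

theorem c22 : Cl false 3240 10000 p50 := Cl.S rfl k22 trivial

theorem c23 : Cl false 3240 10000 p49 := Cl.S rfl k23 ⟨c22, trivial⟩

theorem c24 : Cl false 3240 10000 p53 := Cl.S rfl k24 trivial

theorem c25 : Cl false 3240 10000 p55 := Cl.S rfl k25 trivial

theorem c26 : Cl false 3240 10000 p56 := Cl.S rfl k26 trivial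

theorem c27 : Cl false 3240 10000 p51 := Cl.S rfl k27 ⟨c24, c25, c26, trivial⟩

theorem c28 : Cl false 3240 10000 p48 := Cl.S rfl k28 ⟨c23, c27, trivial⟩

theorem c29 : Cl false 3240 10000 p40 := Cl.S rfl k29 ⟨c20, c21, c28, trivial⟩

theorem c30 : Cl false 3240 10000 p58 := Cl.S rfl k30 trivial

theorem c31 : Cl false 3240 10000 p57 := Cl.S rfl k31 ⟨c30, trivial⟩

theorem c32 : Cl false 3240 10000 p21 := Cl.S rfl k32 ⟨c16, c17, c29, c31, trivial⟩

theorem c33 : Cl false 3240 10000 p62 := Cl.S rfl k33 trivial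

theorem c34 : Cl false 3240 10000 p61 := Cl.S rfl k34 ⟨c33, trivial⟩

theorem c35 : Cl false 3240 10000 p63 := Cl.S rfl k35 trivial

theorem c36 : Cl false 3240 10000 p59 := Cl.S rfl k36 ⟨c34, c35, trivial⟩

theorem c37 : Cl false 3240 10000 p7 := Cl.S rfl k37 ⟨c7, c32, c36, trivial⟩

theorem c38 : Cl false 3240 10000 p65 := Cl.S rfl k38 trivial

theorem c39 : Cl false 3240 10000 p66 := Cl.S rfl k39 trivial

theorem c40 : Cl false 3240 10000 p73 := Cl.S rfl k40 trivial

theorem c41 : Cl false 3240 10000 p77 := Cl.S rfl k41 trivial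

theorem c42 : Cl false 3240 10000 p78 := Cl.S rfl k42 trivial

theorem c43 : Cl false 3240 10000 p75 := Cl.S rfl k43 ⟨c41, c42, trivial⟩

theorem c44 : Cl false 3240 10000 p88 := Cl.S rfl k44 trivial

theorem c45 : Cl false 3240 10000 p87 := Cl.S rfl k45 ⟨c44, trivial⟩

theorem c46 : Cl false 3240 10000 p86 := Cl.S rfl k46 ⟨c45, trivial⟩

theorem c47 : Cl false 3240 10000 p85 := Cl.S rfl k47 ⟨c46, trivial⟩

theorem c48 : Cl false 3240 10000 p92 := Cl.S rfl k48 trivial

theorem c49 : Cl false 3240 10000 p95 := Cl.S rfl k49 trivial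

theorem c50 : Cl false 3240 10000 p96 := Cl.S rfl k50 trivial

theorem c51 : Cl false 3240 10000 p93 := Cl.S rfl k51 ⟨c49, c50, trivial⟩

theorem c52 : Cl false 3240 10000 p97 := Cl.S rfl k52 trivial

theorem c53 : Cl false 3240 10000 p89 := Cl.S rfl k53 ⟨c48, c51, c52, trivial⟩

theorem c54 : Cl false 3240 10000 p83 := Cl.S rfl k54 ⟨c47, c53, trivial⟩

theorem c55 : Cl false 3240 10000 p82 := Cl.S rfl k55 ⟨c54, trivial⟩

theorem c56 : Cl false 3240 10000 p99 := Cl.S rfl k56 trivial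

theorem c57 : Cl false 3240 10000 p101 := Cl.S rfl k57 trivial

theorem c58 : Cl false 3240 10000 p102 := Cl.S rfl k58 trivial

theorem c59 : Cl false 3240 10000 p80 := Cl.S rfl k59 ⟨c55, c56, c57, c58, trivial⟩

theorem c60 : Cl false 3240 10000 p105 := Cl.S rfl k60 trivial

theorem c61 : Cl false 3240 10000 p108 := Cl.S rfl k61 trivial

theorem c62 : Cl false 3240 10000 p109 := Cl.S rfl k62 trivial

theorem c63 : Cl false 3240 10000 p106 := Cl.S rfl k63 ⟨c61, c62, trivial⟩

theorem c64 : Cl false 3240 10000 p110 := Cl.S rfl k64 trivial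

theorem c65 : Cl false 3240 10000 p114 := Cl.S rfl k65 trivial

theorem c66 : Cl false 3240 10000 p113 := Cl.S rfl k66 ⟨c65, trivial⟩

theorem c67 : Cl false 3240 10000 p116 := Cl.S rfl k67 trivial

theorem c68 : Cl false 3240 10000 p119 := Cl.S rfl k68 trivial

theorem c69 : Cl false 3240 10000 p121 := Cl.S rfl k69 trivial

theorem c70 : Cl false 3240 10000 p122 := Cl.S rfl k70 trivial

theorem c71 : Cl false 3240 10000 p117 := Cl.S rfl k71 ⟨c68, c69, c70, trivial⟩

theorem c72 : Cl false 3240 10000 p111 := Cl.S rfl k72 ⟨c66, c67, c71, trivial⟩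

theorem c73 : Cl false 3240 10000 p70 := Cl.S rfl k73 ⟨c40, c43, c59, c60, c63, c64, c72, trivial⟩

theorem c74 : Cl false 3240 10000 p130 := Cl.S rfl k74 trivial

theorem c75 : Cl false 3240 10000 p131 := Cl.S rfl k75 trivial

theorem c76 : Cl false 3240 10000 p133 := Cl.S rfl k76 trivial

theorem c77 : Cl false 3240 10000 p132 := Cl.S rfl k77 ⟨c76, trivial⟩

theorem c78 : Cl false 3240 10000 p127 := Cl.S rfl k78 ⟨c74, c75, c77, trivial⟩

theorem c79 : Cl false 3240 10000 p126 := Cl.S rfl k79 ⟨c78, trivial⟩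

theorem c80 : Cl false 3240 10000 p138 := Cl.S rfl k80 trivial

theorem c81 : Cl false 3240 10000 p140 := Cl.S rfl k81 trivial

theorem c82 : Cl false 3240 10000 p139 := Cl.S rfl k82 ⟨c81, trivial⟩

theorem c83 : Cl false 3240 10000 p136 := Cl.S rfl k83 ⟨c80, c82, trivial⟩

theorem c84 : Cl false 3240 10000 p142 := Cl.S rfl k84 trivial

theorem c85 : Cl false 3240 10000 p146 := Cl.S rfl k85 trivial

theorem c86 : Cl false 3240 10000 p145 := Cl.S rfl k86 ⟨c85, trivial⟩

theorem c87 : Cl false 3240 10000 p150 := Cl.S rfl k87 trivial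

theorem c88 : Cl false 3240 10000 p151 := Cl.S rfl k88 trivial

theorem c89 : Cl false 3240 10000 p148 := Cl.S rfl k89 ⟨c87, c88, trivial⟩

theorem c90 : Cl false 3240 10000 p147 := Cl.S rfl k90 ⟨c89, trivial⟩

theorem c91 : Cl false 3240 10000 p143 := Cl.S rfl k91 ⟨c86, c90, trivial⟩

theorem c92 : Cl false 3240 10000 p134 := Cl.S rfl k92 ⟨c83, c84, c91, trivial⟩

theorem c93 : Cl false 3240 10000 p124 := Cl.S rfl k93 ⟨c79, c92, trivial⟩

theorem c94 : Cl false 3240 10000 p157 := Cl.S rfl k94 trivial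

theorem c95 : Cl false 3240 10000 p156 := Cl.S rfl k95 ⟨c94, trivial⟩

theorem c96 : Cl false 3240 10000 p155 := Cl.S rfl k96 ⟨c95, trivial⟩

theorem c97 : Cl false 3240 10000 p154 := Cl.S rfl k97 ⟨c96, trivial⟩

theorem c98 : Cl false 3240 10000 p153 := Cl.S rfl k98 ⟨c97, trivial⟩

theorem c99 : Cl false 3240 10000 p169 := Cl.S rfl k99 trivial

theorem c100 : Cl false 3240 10000 p168 := Cl.S rfl k100 ⟨c99, trivial⟩

theorem c101 : Cl false 3240 10000 p172 := Cl.S rfl k101 trivial

theorem c102 : Cl false 3240 10000 p173 := Cl.S rfl k102 trivial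

theorem c103 : Cl false 3240 10000 p171 := Cl.S rfl k103 ⟨c101, c102, trivial⟩

theorem c104 : Cl false 3240 10000 p178 := Cl.S rfl k104 trivial

theorem c105 : Cl false 3240 10000 p177 := Cl.S rfl k105 ⟨c104, trivial⟩

theorem c106 : Cl false 3240 10000 p176 := Cl.S rfl k106 ⟨c105, trivial⟩

theorem c107 : Cl false 3240 10000 p181 := Cl.S rfl k107 trivial

theorem c108 : Cl false 3240 10000 p183 := Cl.S rfl k108 trivial

theorem c109 : Cl false 3240 10000 p182 := Cl.S rfl k109 ⟨c108, trivial⟩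

theorem c110 : Cl false 3240 10000 p179 := Cl.S rfl k110 ⟨c107, c109, trivial⟩

theorem c111 : Cl false 3240 10000 p174 := Cl.S rfl k111 ⟨c106, c110, trivial⟩

theorem c112 : Cl false 3240 10000 p166 := Cl.S rfl k112 ⟨c100, c103, c111, trivial⟩

theorem c113 : Cl false 3240 10000 p188 := Cl.S rfl k113 trivial

theorem c114 : Cl false 3240 10000 p187 := Cl.S rfl k114 ⟨c113, trivial⟩

theorem c115 : Cl false 3240 10000 p191 := Cl.S rfl k115 trivial

theorem c116 : Cl false 3240 10000 p192 := Cl.S rfl k116 trivial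

theorem c117 : Cl false 3240 10000 p189 := Cl.S rfl k117 ⟨c115, c116, trivial⟩

theorem c118 : Cl false 3240 10000 p185 := Cl.S rfl k118 ⟨c114, c117, trivial⟩

theorem c119 : Cl false 3240 10000 p184 := Cl.S rfl k119 ⟨c118, trivial⟩

theorem c120 : Cl false 3240 10000 p164 := Cl.S rfl k120 ⟨c112, c119, trivial⟩

theorem c121 : Cl false 3240 10000 p195 := Cl.S rfl k121 trivial

theorem c122 : Cl false 3240 10000 p196 := Cl.S rfl k122 trivial

theorem c123 : Cl false 3240 10000 p193 := Cl.S rfl k123 ⟨c121, c122, trivial⟩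

theorem c124 : Cl false 3240 10000 p162 := Cl.S rfl k124 ⟨c120, c123, trivial⟩

theorem c125 : Cl false 3240 10000 p201 := Cl.S rfl k125 trivial

theorem c126 : Cl false 3240 10000 p206 := Cl.S rfl k126 trivial

theorem c127 : Cl false 3240 10000 p207 := Cl.S rfl k127 trivial

theorem c128 : Cl false 3240 10000 p204 := Cl.S rfl k128 ⟨c126, c127, trivial⟩

theorem c129 : Cl false 3240 10000 p203 := Cl.S rfl k129 ⟨c128, trivial⟩

theorem c130 : Cl false 3240 10000 p202 := Cl.S rfl k130 ⟨c129, trivial⟩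

theorem c131 : Cl false 3240 10000 p199 := Cl.S rfl k131 ⟨c125, c130, trivial⟩

theorem c132 : Cl false 3240 10000 p211 := Cl.S rfl k132 trivial

theorem c133 : Cl false 3240 10000 p212 := Cl.S rfl k133 trivial

theorem c134 : Cl false 3240 10000 p217 := Cl.S rfl k134 trivial

theorem c135 : Cl false 3240 10000 p216 := Cl.S rfl k135 ⟨c134, trivial⟩

theorem c136 : Cl false 3240 10000 p215 := Cl.S rfl k136 ⟨c135, trivial⟩

theorem c137 : Cl false 3240 10000 p219 := Cl.S rfl k137 trivial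

theorem c138 : Cl false 3240 10000 p223 := Cl.S rfl k138 trivial

theorem c139 : Cl false 3240 10000 p228 := Cl.S rfl k139 trivial

theorem c140 : Cl false 3240 10000 p227 := Cl.S rfl k140 ⟨c139, trivial⟩

theorem c141 : Cl false 3240 10000 p230 := Cl.S rfl k141 trivial

theorem c142 : Cl false 3240 10000 p229 := Cl.S rfl k142 ⟨c141, trivial⟩

theorem c143 : Cl false 3240 10000 p225 := Cl.S rfl k143 ⟨c140, c142, trivial⟩

theorem c144 : Cl false 3240 10000 p231 := Cl.S rfl k144 trivial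

theorem c145 : Cl false 3240 10000 p233 := Cl.S rfl k145 trivial

theorem c146 : Cl false 3240 10000 p232 := Cl.S rfl k146 ⟨c145, trivial⟩

theorem c147 : Cl false 3240 10000 p220 := Cl.S rfl k147 ⟨c138, c143, c144, c146, trivial⟩

theorem c148 : Cl false 3240 10000 p213 := Cl.S rfl k148 ⟨c136, c137, c147, trivial⟩

theorem c149 : Cl false 3240 10000 p208 := Cl.S rfl k149 ⟨c132, c133, c148, trivial⟩

theorem c150 : Cl false 3240 10000 p236 := Cl.S rfl k150 trivial

theorem c151 : Cl false 3240 10000 p235 := Cl.S rfl k151 ⟨c150, trivial⟩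

theorem c152 : Cl false 3240 10000 p241 := Cl.S rfl k152 trivial

theorem c153 : Cl false 3240 10000 p240 := Cl.S rfl k153 ⟨c152, trivial⟩

theorem c154 : Cl false 3240 10000 p242 := Cl.S rfl k154 trivial

theorem c155 : Cl false 3240 10000 p243 := Cl.S rfl k155 trivial

theorem c156 : Cl false 3240 10000 p237 := Cl.S rfl k156 ⟨c153, c154, c155, trivial⟩

theorem c157 : Cl false 3240 10000 p250 := Cl.S rfl k157 trivial

theorem c158 : Cl false 3240 10000 p249 := Cl.S rfl k158 ⟨c157, trivial⟩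

theorem c159 : Cl false 3240 10000 p248 := Cl.S rfl k159 ⟨c158, trivial⟩

theorem c160 : Cl false 3240 10000 p253 := Cl.S rfl k160 trivial

theorem c161 : Cl false 3240 10000 p254 := Cl.S rfl k161 trivial

theorem c162 : Cl false 3240 10000 p251 := Cl.S rfl k162 ⟨c160, c161, trivial⟩

theorem c163 : Cl false 3240 10000 p246 := Cl.S rfl k163 ⟨c159, c162, trivial⟩

theorem c164 : Cl false 3240 10000 p258 := Cl.S rfl k164 trivial

theorem c165 : Cl false 3240 10000 p260 := Cl.S rfl k165 trivial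

theorem c166 : Cl false 3240 10000 p259 := Cl.S rfl k166 ⟨c165, trivial⟩

theorem c167 : Cl false 3240 10000 p256 := Cl.S rfl k167 ⟨c164, c166, trivial⟩

theorem c168 : Cl false 3240 10000 p262 := Cl.S rfl k168 trivial

theorem c169 : Cl false 3240 10000 p261 := Cl.S rfl k169 ⟨c168, trivial⟩

theorem c170 : Cl false 3240 10000 p244 := Cl.S rfl k170 ⟨c163, c167, c169, trivial⟩

theorem c171 : Cl false 3240 10000 p159 := Cl.S rfl k171 ⟨c124, c131, c149, c151, c156, c170, trivial⟩

theorem c172 : Cl false 3240 10000 p264 := Cl.S rfl k172 trivial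

theorem c173 : Cl false 3240 10000 p263 := Cl.S rfl k173 ⟨c172, trivial⟩

theorem c174 : Cl false 3240 10000 p152 := Cl.S rfl k174 ⟨c98, c171, c173, trivial⟩

theorem c175 : Cl false 3240 10000 p269 := Cl.S rfl k175 trivial

theorem c176 : Cl false 3240 10000 p270 := Cl.S rfl k176 trivial

theorem c177 : Cl false 3240 10000 p267 := Cl.S rfl k177 ⟨c175, c176, trivial⟩

theorem c178 : Cl false 3240 10000 p274 := Cl.S rfl k178 trivial

theorem c179 : Cl false 3240 10000 p273 := Cl.S rfl k179 ⟨c178, trivial⟩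

theorem c180 : Cl false 3240 10000 p279 := Cl.S rfl k180 trivial

theorem c181 : Cl false 3240 10000 p278 := Cl.S rfl k181 ⟨c180, trivial⟩

theorem c182 : Cl false 3240 10000 p280 := Cl.S rfl k182 trivial

theorem c183 : Cl false 3240 10000 p281 := Cl.S rfl k183 trivial

theorem c184 : Cl false 3240 10000 p275 := Cl.S rfl k184 ⟨c181, c182, c183, trivial⟩

theorem c185 : Cl false 3240 10000 p286 := Cl.S rfl k185 trivial

theorem c186 : Cl false 3240 10000 p289 := Cl.S rfl k186 trivial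

theorem c187 : Cl false 3240 10000 p288 := Cl.S rfl k187 ⟨c186, trivial⟩

theorem c188 : Cl false 3240 10000 p292 := Cl.S rfl k188 trivial

theorem c189 : Cl false 3240 10000 p291 := Cl.S rfl k189 ⟨c188, trivial⟩

theorem c190 : Cl false 3240 10000 p294 := Cl.S rfl k190 trivial

theorem c191 : Cl false 3240 10000 p293 := Cl.S rfl k191 ⟨c190, trivial⟩

theorem c192 : Cl false 3240 10000 p298 := Cl.S rfl k192 trivial

theorem c193 : Cl false 3240 10000 p297 := Cl.S rfl k193 ⟨c192, trivial⟩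

theorem c194 : Cl false 3240 10000 p299 := Cl.S rfl k194 trivial

theorem c195 : Cl false 3240 10000 p295 := Cl.S rfl k195 ⟨c193, c194, trivial⟩

theorem c196 : Cl false 3240 10000 p283 := Cl.S rfl k196 ⟨c185, c187, c189, c191, c195, trivial⟩

theorem c197 : Cl false 3240 10000 p302 := Cl.S rfl k197 trivial

theorem c198 : Cl false 3240 10000 p303 := Cl.S rfl k198 trivial

theorem c199 : Cl false 3240 10000 p300 := Cl.S rfl k199 ⟨c197, c198, trivial⟩

theorem c200 : Cl false 3240 10000 p265 := Cl.S rfl k200 ⟨c177, c179, c184, c196, c199, trivial⟩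

theorem c201 : Cl false 3240 10000 p307 := Cl.S rfl k201 trivial

theorem c202 : Cl false 3240 10000 p306 := Cl.S rfl k202 ⟨c201, trivial⟩

theorem c203 : Cl false 3240 10000 p305 := Cl.S rfl k203 ⟨c202, trivial⟩

theorem c204 : Cl false 3240 10000 p304 := Cl.S rfl k204 ⟨c203, trivial⟩

theorem c205 : Cl false 3240 10000 p4 := Cl.S rfl k205 ⟨c37, c38, c39, c73, c93, c174, c200, c204, trivial⟩

theorem c206 : Cl false 3240 10000 p309 := Cl.S rfl k206 trivial

theorem c207 : Cl false 3240 10000 p310 := Cl.S rfl k207 trivial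

theorem c208 : Cl false 3240 10000 p2 := Cl.S rfl k208 ⟨c205, c206, c207, trivial⟩

theorem c209 : Cl false 3240 10000 p315 := Cl.S rfl k209 trivial

theorem c210 : Cl false 3240 10000 p317 := Cl.S rfl k210 trivial

theorem c211 : Cl false 3240 10000 p316 := Cl.S rfl k211 ⟨c210, trivial⟩

theorem c212 : Cl false 3240 10000 p323 := Cl.S rfl k212 trivial

theorem c213 : Cl false 3240 10000 p322 := Cl.S rfl k213 ⟨c212, trivial⟩

theorem c214 : Cl false 3240 10000 p326 := Cl.S rfl k214 trivial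

theorem c215 : Cl false 3240 10000 p325 := Cl.S rfl k215 ⟨c214, trivial⟩

theorem c216 : Cl false 3240 10000 p328 := Cl.S rfl k216 trivial

theorem c217 : Cl false 3240 10000 p329 := Cl.S rfl k217 trivial

theorem c218 : Cl false 3240 10000 p330 := Cl.S rfl k218 trivial

theorem c219 : Cl false 3240 10000 p333 := Cl.S rfl k219 trivial

theorem c220 : Cl false 3240 10000 p334 := Cl.S rfl k220 trivial

theorem c221 : Cl false 3240 10000 p331 := Cl.S rfl k221 ⟨c219, c220, trivial⟩

theorem c222 : Cl false 3240 10000 p318 := Cl.S rfl k222 ⟨c213, c215, c216, c217, c218, c221, trivial⟩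

theorem c223 : Cl false 3240 10000 p335 := Cl.S rfl k223 trivial

theorem c224 : Cl false 3240 10000 p311 := Cl.S rfl k224 ⟨c209, c211, c222, c223, trivial⟩

theorem c225 : Cl false 3240 10000 p341 := Cl.S rfl k225 trivial

theorem c226 : Cl false 3240 10000 p340 := Cl.S rfl k226 ⟨c225, trivial⟩

theorem c227 : Cl false 3240 10000 p349 := Cl.S rfl k227 trivial

theorem c228 : Cl false 3240 10000 p351 := Cl.S rfl k228 trivial

theorem c229 : Cl false 3240 10000 p350 := Cl.S rfl k229 ⟨c228, trivial⟩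

theorem c230 : Cl false 3240 10000 p347 := Cl.S rfl k230 ⟨c227, c229, trivial⟩

theorem c231 : Cl false 3240 10000 p346 := Cl.S rfl k231 ⟨c230, trivial⟩

theorem c232 : Cl false 3240 10000 p352 := Cl.S rfl k232 trivial

theorem c233 : Cl false 3240 10000 p356 := Cl.S rfl k233 trivial

theorem c234 : Cl false 3240 10000 p358 := Cl.S rfl k234 trivial

theorem c235 : Cl false 3240 10000 p357 := Cl.S rfl k235 ⟨c234, trivial⟩

theorem c236 : Cl false 3240 10000 p361 := Cl.S rfl k236 trivial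

theorem c237 : Cl false 3240 10000 p360 := Cl.S rfl k237 ⟨c236, trivial⟩

theorem c238 : Cl false 3240 10000 p363 := Cl.S rfl k238 trivial

theorem c239 : Cl false 3240 10000 p368 := Cl.S rfl k239 trivial

theorem c240 : Cl false 3240 10000 p367 := Cl.S rfl k240 ⟨c239, trivial⟩

theorem c241 : Cl false 3240 10000 p374 := Cl.S rfl k241 trivial

theorem c242 : Cl false 3240 10000 p375 := Cl.S rfl k242 trivial

theorem c243 : Cl false 3240 10000 p377 := Cl.S rfl k243 trivial

theorem c244 : Cl false 3240 10000 p376 := Cl.S rfl k244 ⟨c243, trivial⟩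

theorem c245 : Cl false 3240 10000 p378 := Cl.S rfl k245 trivial

theorem c246 : Cl false 3240 10000 p370 := Cl.S rfl k246 ⟨c241, c242, c244, c245, trivial⟩

theorem c247 : Cl false 3240 10000 p369 := Cl.S rfl k247 ⟨c246, trivial⟩

theorem c248 : Cl false 3240 10000 p365 := Cl.S rfl k248 ⟨c240, c247, trivial⟩

theorem c249 : Cl false 3240 10000 p381 := Cl.S rfl k249 trivial

theorem c250 : Cl false 3240 10000 p380 := Cl.S rfl k250 ⟨c249, trivial⟩

theorem c251 : Cl false 3240 10000 p379 := Cl.S rfl k251 ⟨c250, trivial⟩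

theorem c252 : Cl false 3240 10000 p353 := Cl.S rfl k252 ⟨c233, c235, c237, c238, c248, c251, trivial⟩

theorem c253 : Cl false 3240 10000 p382 := Cl.S rfl k253 trivial

theorem c254 : Cl false 3240 10000 p389 := Cl.S rfl k254 trivial

theorem c255 : Cl false 3240 10000 p388 := Cl.S rfl k255 ⟨c254, trivial⟩

theorem c256 : Cl false 3240 10000 p387 := Cl.S rfl k256 ⟨c255, trivial⟩

theorem c257 : Cl false 3240 10000 p391 := Cl.S rfl k257 trivial

theorem c258 : Cl false 3240 10000 p392 := Cl.S rfl k258 trivial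

theorem c259 : Cl false 3240 10000 p393 := Cl.S rfl k259 trivial

theorem c260 : Cl false 3240 10000 p397 := Cl.S rfl k260 trivial

theorem c261 : Cl false 3240 10000 p396 := Cl.S rfl k261 ⟨c260, trivial⟩

theorem c262 : Cl false 3240 10000 p402 := Cl.S rfl k262 trivial

theorem c263 : Cl false 3240 10000 p401 := Cl.S rfl k263 ⟨c262, trivial⟩

theorem c264 : Cl false 3240 10000 p400 := Cl.S rfl k264 ⟨c263, trivial⟩

theorem c265 : Cl false 3240 10000 p399 := Cl.S rfl k265 ⟨c264, trivial⟩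

theorem c266 : Cl false 3240 10000 p410 := Cl.S rfl k266 trivial

theorem c267 : Cl false 3240 10000 p409 := Cl.S rfl k267 ⟨c266, trivial⟩

theorem c268 : Cl false 3240 10000 p408 := Cl.S rfl k268 ⟨c267, trivial⟩

theorem c269 : Cl false 3240 10000 p411 := Cl.S rfl k269 trivial

theorem c270 : Cl false 3240 10000 p416 := Cl.S rfl k270 trivial

theorem c271 : Cl false 3240 10000 p415 := Cl.S rfl k271 ⟨c270, trivial⟩

theorem c272 : Cl false 3240 10000 p414 := Cl.S rfl k272 ⟨c271, trivial⟩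

theorem c273 : Cl false 3240 10000 p417 := Cl.S rfl k273 trivial

theorem c274 : Cl false 3240 10000 p420 := Cl.S rfl k274 trivial

theorem c275 : Cl false 3240 10000 p421 := Cl.S rfl k275 trivial

theorem c276 : Cl false 3240 10000 p418 := Cl.S rfl k276 ⟨c274, c275, trivial⟩

theorem c277 : Cl false 3240 10000 p405 := Cl.S rfl k277 ⟨c268, c269, c272, c273, c276, trivial⟩

theorem c278 : Cl false 3240 10000 p404 := Cl.S rfl k278 ⟨c277, trivial⟩

theorem c279 : Cl false 3240 10000 p428 := Cl.S rfl k279 trivial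

theorem c280 : Cl false 3240 10000 p429 := Cl.S rfl k280 trivial

theorem c281 : Cl false 3240 10000 p426 := Cl.S rfl k281 ⟨c279, c280, trivial⟩

theorem c282 : Cl false 3240 10000 p425 := Cl.S rfl k282 ⟨c281, trivial⟩

theorem c283 : Cl false 3240 10000 p430 := Cl.S rfl k283 trivial

theorem c284 : Cl false 3240 10000 p423 := Cl.S rfl k284 ⟨c282, c283, trivial⟩

theorem c285 : Cl false 3240 10000 p440 := Cl.S rfl k285 trivial

theorem c286 : Cl false 3240 10000 p439 := Cl.S rfl k286 ⟨c285, trivial⟩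

theorem c287 : Cl false 3240 10000 p442 := Cl.S rfl k287 trivial

theorem c288 : Cl false 3240 10000 p441 := Cl.S rfl k288 ⟨c287, trivial⟩

theorem c289 : Cl false 3240 10000 p446 := Cl.S rfl k289 trivial

theorem c290 : Cl false 3240 10000 p445 := Cl.S rfl k290 ⟨c289, trivial⟩

theorem c291 : Cl false 3240 10000 p448 := Cl.S rfl k291 trivial

theorem c292 : Cl false 3240 10000 p447 := Cl.S rfl k292 ⟨c291, trivial⟩

theorem c293 : Cl false 3240 10000 p443 := Cl.S rfl k293 ⟨c290, c292, trivial⟩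

theorem c294 : Cl false 3240 10000 p449 := Cl.S rfl k294 trivial

theorem c295 : Cl false 3240 10000 p450 := Cl.S rfl k295 trivial

theorem c296 : Cl false 3240 10000 p435 := Cl.S rfl k296 ⟨c286, c288, c293, c294, c295, trivial⟩

theorem c297 : Cl false 3240 10000 p434 := Cl.S rfl k297 ⟨c296, trivial⟩

theorem c298 : Cl false 3240 10000 p452 := Cl.S rfl k298 trivial

theorem c299 : Cl false 3240 10000 p451 := Cl.S rfl k299 ⟨c298, trivial⟩

theorem c300 : Cl false 3240 10000 p432 := Cl.S rfl k300 ⟨c297, c299, trivial⟩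

theorem c301 : Cl false 3240 10000 p453 := Cl.S rfl k301 trivial

theorem c302 : Cl false 3240 10000 p394 := Cl.S rfl k302 ⟨c261, c265, c278, c284, c300, c301, trivial⟩

theorem c303 : Cl false 3240 10000 p383 := Cl.S rfl k303 ⟨c256, c257, c258, c259, c302, trivial⟩

theorem c304 : Cl false 3240 10000 p338 := Cl.S rfl k304 ⟨c226, c231, c232, c252, c253, c303, trivial⟩

theorem c305 : Cl false 3240 10000 p458 := Cl.S rfl k305 trivial

theorem c306 : Cl false 3240 10000 p457 := Cl.S rfl k306 ⟨c305, trivial⟩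

theorem c307 : Cl false 3240 10000 p456 := Cl.S rfl k307 ⟨c306, trivial⟩

theorem c308 : Cl false 3240 10000 p460 := Cl.S rfl k308 trivial

theorem c309 : Cl false 3240 10000 p463 := Cl.S rfl k309 trivial

theorem c310 : Cl false 3240 10000 p462 := Cl.S rfl k310 ⟨c309, trivial⟩

theorem c311 : Cl false 3240 10000 p461 := Cl.S rfl k311 ⟨c310, trivial⟩

theorem c312 : Cl false 3240 10000 p454 := Cl.S rfl k312 ⟨c307, c308, c311, trivial⟩

theorem c313 : Cl false 3240 10000 p336 := Cl.S rfl k313 ⟨c304, c312, trivial⟩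

theorem co : Cl false 3240 10000 Pa.o := Cl.S rfl k314 ⟨c208, c224, c313, trivial⟩

end Pool.Agent.Lib.MP_7fdcdd_gt.BB.CK
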