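import Pool.Agent.Lib.MP_7fdcdd_gt.BB.Hole
import Pool.Agent.Lib.MP_7fdcdd_gt.BB.CL0
import Pool.Agent.Lib.MP_7fdcdd_gt.BB.CL1
import Pool.Agent.Lib.MP_7fdcdd_gt.BB.CL2
import Pool.Agent.Lib.MP_7fdcdd_gt.BB.CL3
import Pool.Agent.Lib.MP_7fdcdd_gt.BB.CL4
import Pool.Agent.Lib.MP_7fdcdd_gt.BB.CL5
import Pool.Agent.Lib.MP_7fdcdd_gt.BB.CL6
import Pool.Agent.Lib.MP_7fdcdd_gt.BB.CL7
import Pool.Agent.Lib.MP_7fdcdd_gt.BB.CL8
import Pool.Agent.Lib.MP_7fdcdd_gt.BB.CL9
import Pool.Agent.Lib.MP_7fdcdd_gt.BB.CL10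
import Pool.Agent.Lib.MP_7fdcdd_gt.BB.CL11
import Pool.Agent.Lib.MP_7fdcdd_gt.BB.CL12
import Pool.Agent.Lib.MP_7fdcdd_gt.BB.CL13
import Pool.Agent.Lib.MP_7fdcdd_gt.BB.CL14
import Pool.Agent.Lib.MP_7fdcdd_gt.BB.CL15
import Pool.Agent.Lib.MP_7fdcdd_gt.BB.CL16
import Pool.Agent.Lib.MP_7fdcdd_gt.BB.CL17
import Pool.Agent.Lib.MP_7fdcdd_gt.BB.CL18
import Pool.Agent.Lib.MP_7fdcdd_gt.BB.CL19
import Pool.Agent.Lib.MP_7fdcdd_gt.BB.CL20

/-! Certificate data: composition. -/

namespace Pool.Agent.Lib.MP_7fdcdd_gt.BB.CL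

theorem c0 : Cl true 2323 10000 p9 := Cl.S rfl k0 trivial

theorem c1 : Cl true 2323 10000 p8 := Cl.S rfl k1 ⟨c0, trivial⟩

theorem c2 : Cl true 2323 10000 p10 := Cl.S rfl k2 trivial

theorem c3 : Cl true 2323 10000 p15 := Cl.S rfl k3 trivial

theorem c4 : Cl true 2323 10000 p26 := Cl.S rfl k4 trivial

theorem c5 : Cl true 2323 10000 p27 := Cl.S rfl k5 trivial

theorem c6 : Cl true 2323 10000 p24 := Cl.S rfl k6 ⟨c4, c5, trivial⟩

theorem c7 : Cl true 2323 10000 p30 := Cl.S rfl k7 trivial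

theorem c8 : Cl true 2323 10000 p31 := Cl.S rfl k8 trivial

theorem c9 : Cl true 2323 10000 p28 := Cl.S rfl k9 ⟨c7, c8, trivial⟩

theorem c10 : Cl true 2323 10000 p22 := Cl.S rfl k10 ⟨c6, c9, trivial⟩

theorem c11 : Cl true 2323 10000 p34 := Cl.S rfl k11 trivial

theorem c12 : Cl true 2323 10000 p40 := Cl.S rfl k12 trivial

theorem c13 : Cl true 2323 10000 p39 := Cl.S rfl k13 ⟨c12, trivial⟩

theorem c14 : Cl true 2323 10000 p41 := Cl.S rfl k14 trivial

theorem c15 : Cl true 2323 10000 p44 := Cl.S rfl k15 trivial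

theorem c16 : Cl true 2323 10000 p43 := Cl.S rfl k16 ⟨c15, trivial⟩

theorem c17 : Cl true 2323 10000 p45 := Cl.S rfl k17 trivial

theorem c18 : Cl true 2323 10000 p36 := Cl.S rfl k18 ⟨c13, c14, c16, c17, trivial⟩

theorem c19 : Cl true 2323 10000 p35 := Cl.S rfl k19 ⟨c18, trivial⟩

theorem c20 : Cl true 2323 10000 p32 := Cl.S rfl k20 ⟨c11, c19, trivial⟩

theorem c21 : Cl true 2323 10000 p20 := Cl.S rfl k21 ⟨c10, c20, trivial⟩

theorem c22 : Cl true 2323 10000 p19 := Cl.S rfl k22 ⟨c21, trivial⟩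

theorem c23 : Cl true 2323 10000 p48 := Cl.S rfl k23 trivial

theorem c24 : Cl true 2323 10000 p47 := Cl.S rfl k24 ⟨c23, trivial⟩

theorem c25 : Cl true 2323 10000 p50 := Cl.S rfl k25 trivial

theorem c26 : Cl true 2323 10000 p49 := Cl.S rfl k26 ⟨c25, trivial⟩

theorem c27 : Cl true 2323 10000 p59 := Cl.S rfl k27 trivial

theorem c28 : Cl true 2323 10000 p60 := Cl.S rfl k28 trivial

theorem c29 : Cl true 2323 10000 p57 := Cl.S rfl k29 ⟨c27, c28, trivial⟩

theorem c30 : Cl true 2323 10000 p63 := Cl.S rfl k30 trivial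

theorem c31 : Cl true 2323 10000 p64 := Cl.S rfl k31 trivial

theorem c32 : Cl true 2323 10000 p61 := Cl.S rfl k32 ⟨c30, c31, trivial⟩

theorem c33 : Cl true 2323 10000 p55 := Cl.S rfl k33 ⟨c29, c32, trivial⟩

theorem c34 : Cl true 2323 10000 p54 := Cl.S rfl k34 ⟨c33, trivial⟩

theorem c35 : Cl true 2323 10000 p67 := Cl.S rfl k35 trivial

theorem c36 : Cl true 2323 10000 p72 := Cl.S rfl k36 trivial

theorem c37 : Cl true 2323 10000 p71 := Cl.S rfl k37 ⟨c36, trivial⟩

theorem c38 : Cl true 2323 10000 p73 := Cl.S rfl k38 trivial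

theorem c39 : Cl true 2323 10000 p76 := Cl.S rfl k39 trivial

theorem c40 : Cl true 2323 10000 p75 := Cl.S rfl k40 ⟨c39, trivial⟩

theorem c41 : Cl true 2323 10000 p77 := Cl.S rfl k41 trivial

theorem c42 : Cl true 2323 10000 p68 := Cl.S rfl k42 ⟨c37, c38, c40, c41, trivial⟩

theorem c43 : Cl true 2323 10000 p65 := Cl.S rfl k43 ⟨c35, c42, trivial⟩

theorem c44 : Cl true 2323 10000 p52 := Cl.S rfl k44 ⟨c34, c43, trivial⟩

theorem c45 : Cl true 2323 10000 p83 := Cl.S rfl k45 trivial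

theorem c46 : Cl true 2323 10000 p85 := Cl.S rfl k46 trivial

theorem c47 : Cl true 2323 10000 p87 := Cl.S rfl k47 trivial

theorem c48 : Cl true 2323 10000 p86 := Cl.S rfl k48 ⟨c47, trivial⟩

theorem c49 : Cl true 2323 10000 p81 := Cl.S rfl k49 ⟨c45, c46, c48, trivial⟩

theorem c50 : Cl true 2323 10000 p89 := Cl.S rfl k50 trivial

theorem c51 : Cl true 2323 10000 p91 := Cl.S rfl k51 trivial

theorem c52 : Cl true 2323 10000 p93 := Cl.S rfl k52 trivial

theorem c53 : Cl true 2323 10000 p92 := Cl.S rfl k53 ⟨c52, trivial⟩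

theorem c54 : Cl true 2323 10000 p79 := Cl.S rfl k54 ⟨c49, c50, c51, c53, trivial⟩

theorem c55 : Cl true 2323 10000 p95 := Cl.S rfl k55 trivial

theorem c56 : Cl true 2323 10000 p97 := Cl.S rfl k56 trivial

theorem c57 : Cl true 2323 10000 p96 := Cl.S rfl k57 ⟨c56, trivial⟩

theorem c58 : Cl true 2323 10000 p78 := Cl.S rfl k58 ⟨c54, c55, c57, trivial⟩

theorem c59 : Cl true 2323 10000 p16 := Cl.S rfl k59 ⟨c22, c24, c26, c44, c58, trivial⟩

theorem c60 : Cl true 2323 10000 p13 := Cl.S rfl k60 ⟨c3, c59, trivial⟩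

theorem c61 : Cl true 2323 10000 p98 := Cl.S rfl k61 trivial

theorem c62 : Cl true 2323 10000 p11 := Cl.S rfl k62 ⟨c60, c61, trivial⟩

theorem c63 : Cl true 2323 10000 p100 := Cl.S rfl k63 trivial

theorem c64 : Cl true 2323 10000 p99 := Cl.S rfl k64 ⟨c63, trivial⟩

theorem c65 : Cl true 2323 10000 p107 := Cl.S rfl k65 trivial

theorem c66 : Cl true 2323 10000 p106 := Cl.S rfl k66 ⟨c65, trivial⟩

theorem c67 : Cl true 2323 10000 p105 := Cl.S rfl k67 ⟨c66, trivial⟩

theorem c68 : Cl true 2323 10000 p112 := Cl.S rfl k68 trivial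

theorem c69 : Cl true 2323 10000 p111 := Cl.S rfl k69 ⟨c68, trivial⟩

theorem c70 : Cl true 2323 10000 p119 := Cl.S rfl k70 trivial

theorem c71 : Cl true 2323 10000 p122 := Cl.S rfl k71 trivial

theorem c72 : Cl true 2323 10000 p127 := Cl.S rfl k72 trivial

theorem c73 : Cl true 2323 10000 p126 := Cl.S rfl k73 ⟨c72, trivial⟩

theorem c74 : Cl true 2323 10000 p128 := Cl.S rfl k74 trivial

theorem c75 : Cl true 2323 10000 p124 := Cl.S rfl k75 ⟨c73, c74, trivial⟩

theorem c76 : Cl true 2323 10000 p123 := Cl.S rfl k76 ⟨c75, trivial⟩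

theorem c77 : Cl true 2323 10000 p120 := Cl.S rfl k77 ⟨c71, c76, trivial⟩

theorem c78 : Cl true 2323 10000 p117 := Cl.S rfl k78 ⟨c70, c77, trivial⟩

theorem c79 : Cl true 2323 10000 p116 := Cl.S rfl k79 ⟨c78, trivial⟩

theorem c80 : Cl true 2323 10000 p130 := Cl.S rfl k80 trivial

theorem c81 : Cl true 2323 10000 p133 := Cl.S rfl k81 trivial

theorem c82 : Cl true 2323 10000 p134 := Cl.S rfl k82 trivial

theorem c83 : Cl true 2323 10000 p131 := Cl.S rfl k83 ⟨c81, c82, trivial⟩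

theorem c84 : Cl true 2323 10000 p114 := Cl.S rfl k84 ⟨c79, c80, c83, trivial⟩

theorem c85 : Cl true 2323 10000 p142 := Cl.S rfl k85 trivial

theorem c86 : Cl true 2323 10000 p143 := Cl.S rfl k86 trivial

theorem c87 : Cl true 2323 10000 p140 := Cl.S rfl k87 ⟨c85, c86, trivial⟩

theorem c88 : Cl true 2323 10000 p139 := Cl.S rfl k88 ⟨c87, trivial⟩

theorem c89 : Cl true 2323 10000 p146 := Cl.S rfl k89 trivial

theorem c90 : Cl true 2323 10000 p151 := Cl.S rfl k90 trivial

theorem c91 : Cl true 2323 10000 p150 := Cl.S rfl k91 ⟨c90, trivial⟩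

theorem c92 : Cl true 2323 10000 p152 := Cl.S rfl k92 trivial

theorem c93 : Cl true 2323 10000 p148 := Cl.S rfl k93 ⟨c91, c92, trivial⟩

theorem c94 : Cl true 2323 10000 p147 := Cl.S rfl k94 ⟨c93, trivial⟩

theorem c95 : Cl true 2323 10000 p144 := Cl.S rfl k95 ⟨c89, c94, trivial⟩

theorem c96 : Cl true 2323 10000 p137 := Cl.S rfl k96 ⟨c88, c95, trivial⟩

theorem c97 : Cl true 2323 10000 p136 := Cl.S rfl k97 ⟨c96, trivial⟩

theorem c98 : Cl true 2323 10000 p157 := Cl.S rfl k98 trivial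

theorem c99 : Cl true 2323 10000 p159 := Cl.S rfl k99 trivial

theorem c100 : Cl true 2323 10000 p161 := Cl.S rfl k100 trivial

theorem c101 : Cl true 2323 10000 p160 := Cl.S rfl k101 ⟨c100, trivial⟩

theorem c102 : Cl true 2323 10000 p155 := Cl.S rfl k102 ⟨c98, c99, c101, trivial⟩

theorem c103 : Cl true 2323 10000 p164 := Cl.S rfl k103 trivial

theorem c104 : Cl true 2323 10000 p166 := Cl.S rfl k104 trivial

theorem c105 : Cl true 2323 10000 p168 := Cl.S rfl k105 trivial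

theorem c106 : Cl true 2323 10000 p167 := Cl.S rfl k106 ⟨c105, trivial⟩

theorem c107 : Cl true 2323 10000 p162 := Cl.S rfl k107 ⟨c103, c104, c106, trivial⟩

theorem c108 : Cl true 2323 10000 p170 := Cl.S rfl k108 trivial

theorem c109 : Cl true 2323 10000 p172 := Cl.S rfl k109 trivial

theorem c110 : Cl true 2323 10000 p171 := Cl.S rfl k110 ⟨c109, trivial⟩

theorem c111 : Cl true 2323 10000 p109 := Cl.S rfl k111 ⟨c69, c84, c97, c102, c107, c108, c110, trivial⟩

theorem c112 : Cl true 2323 10000 p173 := Cl.S rfl k112 trivial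

theorem c113 : Cl true 2323 10000 p174 := Cl.S rfl k113 trivial

theorem c114 : Cl true 2323 10000 p182 := Cl.S rfl k114 trivial

theorem c115 : Cl true 2323 10000 p186 := Cl.S rfl k115 trivial

theorem c116 : Cl true 2323 10000 p187 := Cl.S rfl k116 trivial

theorem c117 : Cl true 2323 10000 p188 := Cl.S rfl k117 trivial

theorem c118 : Cl true 2323 10000 p183 := Cl.S rfl k118 ⟨c115, c116, c117, trivial⟩

theorem c119 : Cl true 2323 10000 p191 := Cl.S rfl k119 trivial

theorem c120 : Cl true 2323 10000 p192 := Cl.S rfl k120 trivial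

theorem c121 : Cl true 2323 10000 p189 := Cl.S rfl k121 ⟨c119, c120, trivial⟩

theorem c122 : Cl true 2323 10000 p198 := Cl.S rfl k122 trivial

theorem c123 : Cl true 2323 10000 p199 := Cl.S rfl k123 trivial

theorem c124 : Cl true 2323 10000 p196 := Cl.S rfl k124 ⟨c122, c123, trivial⟩

theorem c125 : Cl true 2323 10000 p195 := Cl.S rfl k125 ⟨c124, trivial⟩

theorem c126 : Cl true 2323 10000 p201 := Cl.S rfl k126 trivial

theorem c127 : Cl true 2323 10000 p202 := Cl.S rfl k127 trivial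

theorem c128 : Cl true 2323 10000 p193 := Cl.S rfl k128 ⟨c125, c126, c127, trivial⟩

theorem c129 : Cl true 2323 10000 p178 := Cl.S rfl k129 ⟨c114, c118, c121, c128, trivial⟩

theorem c130 : Cl true 2323 10000 p204 := Cl.S rfl k130 trivial

theorem c131 : Cl true 2323 10000 p209 := Cl.S rfl k131 trivial

theorem c132 : Cl true 2323 10000 p210 := Cl.S rfl k132 trivial

theorem c133 : Cl true 2323 10000 p207 := Cl.S rfl k133 ⟨c131, c132, trivial⟩

theorem c134 : Cl true 2323 10000 p212 := Cl.S rfl k134 trivial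

theorem c135 : Cl true 2323 10000 p211 := Cl.S rfl k135 ⟨c134, trivial⟩

theorem c136 : Cl true 2323 10000 p205 := Cl.S rfl k136 ⟨c133, c135, trivial⟩

theorem c137 : Cl true 2323 10000 p214 := Cl.S rfl k137 trivial

theorem c138 : Cl true 2323 10000 p213 := Cl.S rfl k138 ⟨c137, trivial⟩

theorem c139 : Cl true 2323 10000 p218 := Cl.S rfl k139 trivial

theorem c140 : Cl true 2323 10000 p225 := Cl.S rfl k140 trivial

theorem c141 : Cl true 2323 10000 p224 := Cl.S rfl k141 ⟨c140, trivial⟩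

theorem c142 : Cl true 2323 10000 p226 := Cl.S rfl k142 trivial

theorem c143 : Cl true 2323 10000 p228 := Cl.S rfl k143 trivial

theorem c144 : Cl true 2323 10000 p231 := Cl.S rfl k144 trivial

theorem c145 : Cl true 2323 10000 p230 := Cl.S rfl k145 ⟨c144, trivial⟩

theorem c146 : Cl true 2323 10000 p232 := Cl.S rfl k146 trivial

theorem c147 : Cl true 2323 10000 p227 := Cl.S rfl k147 ⟨c143, c145, c146, trivial⟩

theorem c148 : Cl true 2323 10000 p221 := Cl.S rfl k148 ⟨c141, c142, c147, trivial⟩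

theorem c149 : Cl true 2323 10000 p233 := Cl.S rfl k149 trivial

theorem c150 : Cl true 2323 10000 p219 := Cl.S rfl k150 ⟨c148, c149, trivial⟩

theorem c151 : Cl true 2323 10000 p216 := Cl.S rfl k151 ⟨c139, c150, trivial⟩

theorem c152 : Cl true 2323 10000 p215 := Cl.S rfl k152 ⟨c151, trivial⟩

theorem c153 : Cl true 2323 10000 p101 := Cl.S rfl k153 ⟨c67, c111, c112, c113, c129, c130, c136, c138, c152, trivial⟩

theorem c154 : Cl true 2323 10000 p3 := Cl.S rfl k154 ⟨c1, c2, c62, c64, c153, trivial⟩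

theorem c155 : Cl true 2323 10000 p240 := Cl.S rfl k155 trivial

theorem c156 : Cl true 2323 10000 p239 := Cl.S rfl k156 ⟨c155, trivial⟩

theorem c157 : Cl true 2323 10000 p238 := Cl.S rfl k157 ⟨c156, trivial⟩

theorem c158 : Cl true 2323 10000 p247 := Cl.S rfl k158 trivial

theorem c159 : Cl true 2323 10000 p248 := Cl.S rfl k159 trivial

theorem c160 : Cl true 2323 10000 p245 := Cl.S rfl k160 ⟨c158, c159, trivial⟩

theorem c161 : Cl true 2323 10000 p251 := Cl.S rfl k161 trivial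

theorem c162 : Cl true 2323 10000 p255 := Cl.S rfl k162 trivial

theorem c163 : Cl true 2323 10000 p254 := Cl.S rfl k163 ⟨c162, trivial⟩

theorem c164 : Cl true 2323 10000 p256 := Cl.S rfl k164 trivial

theorem c165 : Cl true 2323 10000 p252 := Cl.S rfl k165 ⟨c163, c164, trivial⟩

theorem c166 : Cl true 2323 10000 p258 := Cl.S rfl k166 trivial

theorem c167 : Cl true 2323 10000 p257 := Cl.S rfl k167 ⟨c166, trivial⟩

theorem c168 : Cl true 2323 10000 p243 := Cl.S rfl k168 ⟨c160, c161, c165, c167, trivial⟩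

theorem c169 : Cl true 2323 10000 p261 := Cl.S rfl k169 trivial

theorem c170 : Cl true 2323 10000 p262 := Cl.S rfl k170 trivial

theorem c171 : Cl true 2323 10000 p259 := Cl.S rfl k171 ⟨c169, c170, trivial⟩

theorem c172 : Cl true 2323 10000 p241 := Cl.S rfl k172 ⟨c168, c171, trivial⟩

theorem c173 : Cl true 2323 10000 p236 := Cl.S rfl k173 ⟨c157, c172, trivial⟩

theorem c174 : Cl true 2323 10000 p272 := Cl.S rfl k174 trivial

theorem c175 : Cl true 2323 10000 p271 := Cl.S rfl k175 ⟨c174, trivial⟩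

theorem c176 : Cl true 2323 10000 p270 := Cl.S rfl k176 ⟨c175, trivial⟩

theorem c177 : Cl true 2323 10000 p269 := Cl.S rfl k177 ⟨c176, trivial⟩

theorem c178 : Cl true 2323 10000 p268 := Cl.S rfl k178 ⟨c177, trivial⟩

theorem c179 : Cl true 2323 10000 p273 := Cl.S rfl k179 trivial

theorem c180 : Cl true 2323 10000 p279 := Cl.S rfl k180 trivial

theorem c181 : Cl true 2323 10000 p280 := Cl.S rfl k181 trivial

theorem c182 : Cl true 2323 10000 p277 := Cl.S rfl k182 ⟨c180, c181, trivial⟩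

theorem c183 : Cl true 2323 10000 p284 := Cl.S rfl k183 trivial

theorem c184 : Cl true 2323 10000 p283 := Cl.S rfl k184 ⟨c183, trivial⟩

theorem c185 : Cl true 2323 10000 p287 := Cl.S rfl k185 trivial

theorem c186 : Cl true 2323 10000 p286 := Cl.S rfl k186 ⟨c185, trivial⟩

theorem c187 : Cl true 2323 10000 p289 := Cl.S rfl k187 trivial

theorem c188 : Cl true 2323 10000 p288 := Cl.S rfl k188 ⟨c187, trivial⟩

theorem c189 : Cl true 2323 10000 p291 := Cl.S rfl k189 trivial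

theorem c190 : Cl true 2323 10000 p290 := Cl.S rfl k190 ⟨c189, trivial⟩

theorem c191 : Cl true 2323 10000 p295 := Cl.S rfl k191 trivial

theorem c192 : Cl true 2323 10000 p297 := Cl.S rfl k192 trivial

theorem c193 : Cl true 2323 10000 p296 := Cl.S rfl k193 ⟨c192, trivial⟩

theorem c194 : Cl true 2323 10000 p298 := Cl.S rfl k194 trivial

theorem c195 : Cl true 2323 10000 p292 := Cl.S rfl k195 ⟨c191, c193, c194, trivial⟩

theorem c196 : Cl true 2323 10000 p274 := Cl.S rfl k196 ⟨c182, c184, c186, c188, c190, c195, trivial⟩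

theorem c197 : Cl true 2323 10000 p299 := Cl.S rfl k197 trivial

theorem c198 : Cl true 2323 10000 p264 := Cl.S rfl k198 ⟨c178, c179, c196, c197, trivial⟩

theorem c199 : Cl true 2323 10000 p304 := Cl.S rfl k199 trivial

theorem c200 : Cl true 2323 10000 p305 := Cl.S rfl k200 trivial

theorem c201 : Cl true 2323 10000 p302 := Cl.S rfl k201 ⟨c199, c200, trivial⟩

theorem c202 : Cl true 2323 10000 p307 := Cl.S rfl k202 trivial

theorem c203 : Cl true 2323 10000 p309 := Cl.S rfl k203 trivial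

theorem c204 : Cl true 2323 10000 p308 := Cl.S rfl k204 ⟨c203, trivial⟩

theorem c205 : Cl true 2323 10000 p315 := Cl.S rfl k205 trivial

theorem c206 : Cl true 2323 10000 p317 := Cl.S rfl k206 trivial

theorem c207 : Cl true 2323 10000 p316 := Cl.S rfl k207 ⟨c206, trivial⟩

theorem c208 : Cl true 2323 10000 p313 := Cl.S rfl k208 ⟨c205, c207, trivial⟩

theorem c209 : Cl true 2323 10000 p319 := Cl.S rfl k209 trivial

theorem c210 : Cl true 2323 10000 p318 := Cl.S rfl k210 ⟨c209, trivial⟩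

theorem c211 : Cl true 2323 10000 p311 := Cl.S rfl k211 ⟨c208, c210, trivial⟩

theorem c212 : Cl true 2323 10000 p310 := Cl.S rfl k212 ⟨c211, trivial⟩

theorem c213 : Cl true 2323 10000 p234 := Cl.S rfl k213 ⟨c173, c198, c201, c202, c204, c212, trivial⟩

theorem c214 : Cl true 2323 10000 p1 := Cl.S rfl k214 ⟨c154, c213, trivial⟩

theorem c215 : Cl true 2323 10000 p326 := Cl.S rfl k215 trivial

theorem c216 : Cl true 2323 10000 p327 := Cl.S rfl k216 trivial

theorem c217 : Cl true 2323 10000 p324 := Cl.S rfl k217 ⟨c215, c216, trivial⟩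

theorem c218 : Cl true 2323 10000 p323 := Cl.S rfl k218 ⟨c217, trivial⟩

theorem c219 : Cl true 2323 10000 p330 := Cl.S rfl k219 trivial

theorem c220 : Cl true 2323 10000 p329 := Cl.S rfl k220 ⟨c219, trivial⟩

theorem c221 : Cl true 2323 10000 p331 := Cl.S rfl k221 trivial

theorem c222 : Cl true 2323 10000 p321 := Cl.S rfl k222 ⟨c218, c220, c221, trivial⟩

theorem c223 : Cl true 2323 10000 p336 := Cl.S rfl k223 trivial

theorem c224 : Cl true 2323 10000 p337 := Cl.S rfl k224 trivial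

theorem c225 : Cl true 2323 10000 p334 := Cl.S rfl k225 ⟨c223, c224, trivial⟩

theorem c226 : Cl true 2323 10000 p333 := Cl.S rfl k226 ⟨c225, trivial⟩

theorem c227 : Cl true 2323 10000 p340 := Cl.S rfl k227 trivial

theorem c228 : Cl true 2323 10000 p342 := Cl.S rfl k228 trivial

theorem c229 : Cl true 2323 10000 p344 := Cl.S rfl k229 trivial

theorem c230 : Cl true 2323 10000 p343 := Cl.S rfl k230 ⟨c229, trivial⟩

theorem c231 : Cl true 2323 10000 p338 := Cl.S rfl k231 ⟨c227, c228, c230, trivial⟩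

theorem co : Cl true 2323 10000 Pa.o := Cl.S rfl k232 ⟨c214, c222, c226, c231, trivial⟩

end Pool.Agent.Lib.MP_7fdcdd_gt.BB.CL
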