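import Mathlib.Data.Nat.Bitwise

/-! The certificate checker: states, rules, rows and trees (definitions only). -/

namespace Pool.Agent.Lib.MP_7fdcdd_gt.BB

/-- byte `i` of `x` -/
def fld (x i : ℕ) : ℕ := Nat.mod (Nat.shiftRight x (Nat.mul 8 i)) 256

/-- overwrite byte `i` -/
def setf (x i v : ℕ) : ℕ := Nat.xor x (Nat.shiftLeft (Nat.xor (fld x i) v) (Nat.mul 8 i))

/-- word `i` of `x` -/
def wrd (x i : ℕ) : ℕ := Nat.mod (Nat.shiftRight x (Nat.mul 64 i)) 18446744073709551616

def setw (x i v : ℕ) : ℕ := Nat.xor x (Nat.shiftLeft (Nat.xor (wrd x i) v) (Nat.mul 64 i))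

/-- membership of a pair in a relation -/
def bit (x a b : ℕ) : Bool :=
  Nat.beq (Nat.mod (Nat.shiftRight x (Nat.add (Nat.mul 256 a) b)) 2) 1

def ins (x a b : ℕ) : ℕ := Nat.lor x (Nat.shiftLeft 1 (Nat.add (Nat.mul 256 a) b))

/-- `kind`: 0 vertex, 1 vertex with known parents, 2 base of a chain, 3 step of a chain -/
structure St where
  n : ℕ
  nf : ℕ
  nent : ℕ
  kind : ℕ
  lev : ℕ
  pa : ℕ
  pb : ℕ
  fb : ℕ
  ent : ℕ
  adj : ℕ
  ne : ℕ
  le : ℕ
  eq : ℕ
  wit : ℕ
  dom : ℕ
  on : ℕ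
  cap : ℕ

namespace St

def addV : St → ℕ → St
  | ⟨n, nf, q, kind, lev, pa, pb, fb, ent, adj, ne, le, eq, wit, dom, on, cap⟩, k =>
    ⟨Nat.add n 1, nf, q, setf kind n 0, setf lev n k, pa, pb, fb, ent, adj, ne, le, eq, wit, dom, on,
      cap⟩

def addC : St → ℕ → ℕ → ℕ → ℕ → St
  | ⟨n, nf, q, kind, lev, pa, pb, fb, ent, adj, ne, le, eq, wit, dom, on, cap⟩, ki, k, a, b =>
    ⟨Nat.add n 1, nf, q, setf kind n ki, setf lev n k, setf pa n a, setf pb n b, fb, ent, adj, ne,
      le, eq, wit, dom, on, cap⟩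

def setMid : St → ℕ → ℕ → ℕ → St
  | ⟨n, nf, q, kind, lev, pa, pb, fb, ent, adj, ne, le, eq, wit, dom, on, cap⟩, m, a, b =>
    ⟨n, nf, q, setf kind m 1, lev, setf pa m a, setf pb m b, fb, ent, adj, ne, le, eq, wit, dom, on,
      cap⟩

def addF : St → ℕ → St
  | ⟨n, nf, q, kind, lev, pa, pb, fb, ent, adj, ne, le, eq, wit, dom, on, cap⟩, k =>
    ⟨n, Nat.add nf 1, q, kind, lev, pa, pb, setf fb nf k, ent, adj, ne, le, eq, wit, dom, on, cap⟩

def addE : St → ℕ → St
  | ⟨n, nf, q, kind, lev, pa, pb, fb, ent, adj, ne, le, eq, wit, dom, on, cap⟩, e =>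
    ⟨n, nf, Nat.add q 1, kind, lev, pa, pb, fb, setw ent q e, adj, ne, le, eq, wit, dom, on, cap⟩

def addAdj : St → ℕ → ℕ → St
  | ⟨n, nf, q, kind, lev, pa, pb, fb, ent, adj, ne, le, eq, wit, dom, on, cap⟩, a, b =>
    ⟨n, nf, q, kind, lev, pa, pb, fb, ent, ins (ins adj a b) b a, ne, le, eq, wit, dom, on, cap⟩

def addNe : St → ℕ → ℕ → St
  | ⟨n, nf, q, kind, lev, pa, pb, fb, ent, adj, ne, le, eq, wit, dom, on, cap⟩, a, b =>
    ⟨n, nf, q, kind, lev, pa, pb, fb, ent, adj, ins (ins ne a b) b a, le, eq, wit, dom, on, cap⟩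

def addLe : St → ℕ → ℕ → St
  | ⟨n, nf, q, kind, lev, pa, pb, fb, ent, adj, ne, le, eq, wit, dom, on, cap⟩, a, b =>
    ⟨n, nf, q, kind, lev, pa, pb, fb, ent, adj, ne, ins le a b, eq, wit, dom, on, cap⟩

def addEq : St → ℕ → ℕ → St
  | ⟨n, nf, q, kind, lev, pa, pb, fb, ent, adj, ne, le, eq, wit, dom, on, cap⟩, a, b =>
    ⟨n, nf, q, kind, lev, pa, pb, fb, ent, adj, ne, le, ins (ins eq a b) b a, wit, dom, on, cap⟩

def addWit : St → ℕ → ℕ → St
  | ⟨n, nf, q, kind, lev, pa, pb, fb, ent, adj, ne, le, eq, wit, dom, on, cap⟩, a, b =>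
    ⟨n, nf, q, kind, lev, pa, pb, fb, ent, adj, ne, le, eq, ins wit a b, dom, on, cap⟩

def addDom : St → ℕ → ℕ → St
  | ⟨n, nf, q, kind, lev, pa, pb, fb, ent, adj, ne, le, eq, wit, dom, on, cap⟩, a, b =>
    ⟨n, nf, q, kind, lev, pa, pb, fb, ent, adj, ne, le, eq, wit, ins dom a b, on, cap⟩

def addOn : St → ℕ → ℕ → St
  | ⟨n, nf, q, kind, lev, pa, pb, fb, ent, adj, ne, le, eq, wit, dom, on, cap⟩, a, b =>
    ⟨n, nf, q, kind, lev, pa, pb, fb, ent, adj, ne, le, eq, wit, dom, ins on a b, cap⟩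

def addCap : St → ℕ → ℕ → St
  | ⟨n, nf, q, kind, lev, pa, pb, fb, ent, adj, ne, le, eq, wit, dom, on, cap⟩, a, b =>
    ⟨n, nf, q, kind, lev, pa, pb, fb, ent, adj, ne, le, eq, wit, dom, on, ins cap a b⟩

def lv (s : St) (a : ℕ) : ℕ := fld s.lev a
def isV (s : St) (a : ℕ) : Bool := Nat.blt a s.n && Nat.ble (fld s.kind a) 1
def isL (s : St) (a k : ℕ) : Bool := s.isV a && Nat.beq (s.lv a) k
def isK (s : St) (a k : ℕ) : Bool := Nat.blt a s.n && Nat.beq (fld s.kind a) k
def isAdj (s : St) (a b : ℕ) : Bool := bit s.adj a b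
def isNe (s : St) (a b : ℕ) : Bool := bit s.ne a b || bit s.adj a b
/-- used only when one side is known to be a vertex -/
def isLe (s : St) (a b : ℕ) : Bool := Nat.beq a b || bit s.le a b
def isEq (s : St) (a b : ℕ) : Bool := Nat.beq a b || bit s.eq a b
def isMid (s : St) (m a b : ℕ) : Bool :=
  s.isK m 1 && ((Nat.beq (fld s.pa m) a && Nat.beq (fld s.pb m) b) ||
    (Nat.beq (fld s.pa m) b && Nat.beq (fld s.pb m) a))
def room (s : St) : Bool := Nat.blt s.n 255
/-- index of the highest and second vertex on the level of `a` -/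
def top (s : St) (a : ℕ) : ℕ := Nat.mul 2 (s.lv a)
def sec (s : St) (a : ℕ) : ℕ := Nat.add (Nat.mul 2 (s.lv a)) 1
/-- the level of `a` is at most `10` -/
def lo (s : St) (a : ℕ) : Bool := Nat.ble (s.lv a) 10
def en (s : St) (i : ℕ) : ℕ := wrd s.ent i
def isE (s : St) (i k : ℕ) : Bool := Nat.blt i s.nent && Nat.beq (fld (s.en i) 0) k

end St

/-- an entry: kind 0 highest neighbour outside a set, 1 highest vertex outside a set, 2 link -/
def mkE (k a b c d e : ℕ) : ℕ :=
  Nat.add k (Nat.mul 256 (Nat.add a (Nat.mul 256 (Nat.add b (Nat.mul 256 (Nat.add c (Nat.mul 256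
    (Nat.add d (Nat.mul 256 e)))))))))

/-- Rules giving `Z a ≤ Z b`; `c` holds the rule in byte 0 and its arguments after it. The
continuation receives `a` and `b`. -/
def leR {α : Type} (s : St) (c : ℕ) (no : α) (f : ℕ → ℕ → α) : α :=
  let x := fld c 1
  let y := fld c 2
  let z := fld c 3
  match fld c 0 with
  | 0 => cond (bit s.le x y) (f x y) no
  | 1 => cond (s.isV x && Nat.ble (s.lv x) 11) (f (s.top x) x) no
  | 2 => cond (Nat.ble (s.lv x) 11 && s.isNe x (s.top x)) (f (s.sec x) x) no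
  | 3 => cond (s.isAdj x z && s.lo x && s.isMid (Nat.add (s.sec x) 2) x y &&
      ((Nat.beq x (s.top x) && s.isNe z (s.sec x)) || (Nat.beq x (s.sec x) && s.isNe z (s.top x))))
      (f y z) no
  | 4 => cond (s.isAdj (s.top x) z && s.lo x && s.isMid (Nat.add (s.sec x) 2) x y &&
      Nat.beq x (s.sec x) && s.isNe z x) (f y z) no
  | 5 => cond (bit s.le x y && s.isLe y z) (f x z) no
  | 6 => cond (bit s.wit x y && s.isAdj x z) (f z y) no
  | 7 =>
    let e := s.en x
    cond (((s.isE x 0 && s.isAdj (fld e 1) y) ||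
        (s.isE x 1 && Nat.beq (s.lv y) (s.lv (fld e 2)))) &&
      s.isNe y (fld e 3) && s.isNe y (fld e 4) && s.isNe y (fld e 5)) (f (fld e 2) y) no
  | 8 => cond (s.isK x 1 && s.isK y 1 &&
      ((s.isLe (fld s.pa x) (fld s.pa y) && s.isLe (fld s.pb x) (fld s.pb y)) ||
        (s.isLe (fld s.pa x) (fld s.pb y) && s.isLe (fld s.pb x) (fld s.pa y)))) (f x y) no
  | 9 => cond (s.isEq x 24 && bit s.on 0 y && Nat.beq (s.lv y) 0) (f x y) no
  | 10 => cond (s.isEq x 25 && s.isEq y 24 && bit s.on 0 z && Nat.beq (s.lv z) 0 && s.isNe z y)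
      (f x z) no
  | 11 => cond (s.isEq y 26 && bit s.on 0 x && Nat.beq (s.lv x) 0) (f x y) no
  | _ => no

def sub1 (x b a : ℕ) : ℕ := cond (Nat.beq x b) a x

/-- rules without case distinction -/
def un (s : St) (c : ℕ) : Option St :=
  let x := fld c 1
  let y := fld c 2
  let z := fld c 3
  let w := fld c 4
  let v := fld c 5
  let n := s.n
  match fld c 0 with
  | 1 => cond (s.isAdj x y && s.lo x && s.room) (some ((s.addV (Nat.add (s.lv x) 1)).setMid n x y))
      none
  | 2 => cond (s.isK x 1 && s.isMid y (fld s.pa x) (fld s.pb x)) (some (s.addEq x y)) none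
  | 3 => cond (s.isV x && s.isL y (s.lv x) && s.isL z (s.lv x) && s.isL w (s.lv x) && s.room &&
        (Nat.beq z w || (s.isAdj x v && s.isNe v y && s.isNe v z && s.isNe v w)))
      (some ((((((s.addV (s.lv x)).addAdj x n).addNe n y).addNe n z).addNe n w).addE
        (mkE 0 x n y z w))) none
  | 4 => cond (Nat.ble x 11 && s.isL y x && s.isL z x && s.isL w x && s.room)
      (some (((((s.addV x).addNe n y).addNe n z).addNe n w).addE (mkE 1 n n y z w))) none
  | 5 =>
    let e := s.en x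
    cond (s.isE x 2 && s.isMid y (fld e 1) (fld e 2) && s.isMid z (fld e 1) (fld e 3))
      (some (s.addAdj y z)) none
  | 6 => cond (s.isAdj x y && s.isMid x z w && s.isMid y z v && Nat.blt s.nf 255)
      (some ((((s.addF (s.lv x)).addOn s.nf x).addOn s.nf y).addCap s.nf z)) none
  | 7 => cond (s.isAdj y z && bit s.on x y && bit s.on x z && Nat.ble (fld s.fb x) (s.lv y) &&
        s.room)
      (some ((((s.addV (s.lv y)).addAdj y n).addNe n z).addOn x n)) none
  | 8 => cond (bit s.cap x z && bit s.on x y && Nat.beq (s.lv y) (Nat.add (s.lv z) 1) && s.room)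
      (some (((s.addV (s.lv z)).addAdj z n).setMid y z n)) none
  | 9 => cond (s.isMid x z w && s.isMid y z v && s.isNe x y) (some (s.addNe w v)) none
  | 10 => cond (s.isK x 1 && s.isK y 1 && Nat.beq (s.lv x) (s.lv y) &&
        (s.isNe (fld s.pa x) (fld s.pa y) || s.isNe (fld s.pb x) (fld s.pb y)) &&
        (s.isNe (fld s.pa x) (fld s.pb y) || s.isNe (fld s.pb x) (fld s.pa y)))
      (some (s.addNe x y)) none
  | 11 =>
    let r := fld c 6
    cond (bit s.on x y && bit s.on x z && bit s.on x w && s.isNe z w && s.isMid v y z &&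
        s.isMid r y w && Nat.ble (fld s.fb x) (s.lv y))
      (some (((s.addAdj v r).addOn x v).addOn x r)) none
  | 12 => cond (s.isV x && s.room) (some (((s.addV (s.lv x)).addAdj x n).addWit x n)) none
  | 13 => leR s (Nat.shiftRight c 8) none fun a b => some (s.addLe a b)
  | 14 => cond (bit s.le x y && s.isNe x y && s.isLe y z) (some (s.addNe x z)) none
  | 15 => cond (s.isAdj z y && bit s.eq x z) (some (s.addAdj x y)) none
  | 16 => cond (s.isNe z y && bit s.eq x z) (some (s.addNe x y)) none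
  | 17 => cond (bit s.le z w && s.isEq z x && s.isEq w y) (some (s.addLe x y)) none
  | 18 => cond (bit s.on x z && bit s.eq z y) (some (s.addOn x y)) none
  | 19 => cond (s.isK w 1 && s.isEq w x && s.isEq (fld s.pa w) y && s.isEq (fld s.pb w) z)
      (some (s.setMid x y z)) none
  | 20 => cond (bit s.wit z w && s.isEq z x && s.isEq w y) (some (s.addWit x y)) none
  | 21 => cond (bit s.cap x z && bit s.eq z y) (some (s.addCap x y)) none
  | 22 =>
    let e := s.en x
    cond (Nat.blt x s.nent && bit s.eq y z)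
      (some (s.addE (mkE (fld e 0) (sub1 (fld e 1) y z) (sub1 (fld e 2) y z) (sub1 (fld e 3) y z)
        (sub1 (fld e 4) y z) (sub1 (fld e 5) y z)))) none
  | 23 => cond (bit s.eq x y && bit s.eq y z) (some (s.addEq x z)) none
  | 24 => cond (s.isV x && Nat.ble (s.lv x) 11 && s.room) (some (s.addC 2 (s.lv x) x x)) none
  | 25 => cond (s.isV x && (s.isK y 2 || s.isK y 3) && Nat.beq (s.lv x) (s.lv y) && s.lo x &&
        s.room) (some (s.addC 3 (Nat.add (s.lv x) 1) x y)) none
  | 26 => cond (s.isK y 2 && s.isLe x (fld s.pa y)) (some (s.addDom x y)) none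
  | 27 => cond (s.isK x 1 && s.isK y 3 && s.isLe (fld s.pa x) (fld s.pa y) &&
        s.isLe (fld s.pb x) (fld s.pa y) && bit s.dom (fld s.pa x) (fld s.pb y) &&
        bit s.dom (fld s.pb x) (fld s.pb y)) (some (s.addDom x y)) none
  | _ => none

def mem4 (x a b c d : ℕ) : Bool := Nat.beq x a || Nat.beq x b || Nat.beq x c || Nat.beq x d

/-- premises of the case distinctions (at most three cases) -/
def brOk (s : St) (c : ℕ) : Bool :=
  let x := fld c 1
  let y := fld c 2
  let z := fld c 3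
  let w := fld c 4
  let v := fld c 5
  match fld c 0 with
  | 0 => s.isAdj x y && s.isMid y z w && s.room
  | 1 => s.isV x && s.isV y && Nat.beq (s.lv x) (s.lv y)
  | 2 => s.isV x && s.isV y && Nat.beq (s.lv x) (s.lv y)
  | 3 =>
    let e := s.en x
    let q := fld e 2
    ((s.isE x 0 && Nat.beq (fld e 1) y) || s.isE x 1) && s.isAdj y q && bit s.le y q && s.lo y &&
      (s.isNe q (s.sec q) || s.isNe y (s.top q)) && mem4 (fld e 3) y z w v &&
      mem4 (fld e 4) y z w v && mem4 (fld e 5) y z w v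
  | 4 =>
    let e := s.en x
    let q := fld e 2
    s.isE x 1 && Nat.ble (s.lv q) 11 && s.isNe q (s.top q)
  | _ => false

/-- the cases; for the first three rules only `r = 0, 1` occur -/
def brApp (s : St) (c r : ℕ) : St :=
  let x := fld c 1
  let y := fld c 2
  let n := s.n
  match fld c 0 with
  | 0 =>
    let a := fld c (Nat.add 3 r)
    let b := fld c (Nat.sub 4 r)
    (((s.addV (s.lv a)).addAdj a n).addNe n b).setMid x a n
  | 1 => cond (Nat.beq r 0) (s.addEq x y) (s.addNe x y)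
  | 2 => cond (Nat.beq r 0) (s.addLe x y) (s.addLe y x)
  | 3 =>
    let q := fld (s.en x) 2
    let w := fld c (Nat.add 3 r)
    ((s.addAdj y w).addLe w q).addE (mkE 2 y q w w w)
  | 4 =>
    let q := fld (s.en x) 2
    let a := fld (s.en x) (Nat.add 3 r)
    (s.addAdj a q).addLe a q
  | _ => s

/-- two cases suffice -/
def two (s : St) (c : ℕ) : Bool :=
  match fld c 0 with
  | 3 => Nat.beq (fld c 4) (fld c 5)
  | 4 => Nat.beq (fld (s.en (fld c 1)) 4) (fld (s.en (fld c 1)) 5)
  | _ => true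

/-- one case suffices -/
def one (c : ℕ) : Bool :=
  Nat.beq (fld c 0) 3 && Nat.beq (fld c 3) (fld c 4) && Nat.beq (fld c 4) (fld c 5)

/-- one slot: a rule without case distinction, or (code `28`) a link rule with one case -/
def step (s : St) (c : ℕ) : Option St :=
  cond (Nat.beq (fld c 0) 28)
    (cond (brOk s (Nat.shiftRight c 8) && one (Nat.shiftRight c 8))
      (some (brApp s (Nat.shiftRight c 8) 0)) none)
    (un s c)

/-- run the first `k` slots of `x` -/
def steps : ℕ → St → ℕ → Option St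
  | 0, s, _ => some s
  | k + 1, s, x =>
    match step s (Nat.mod x 18446744073709551616) with
    | none => none
    | some s' => steps k s' (Nat.shiftRight x 64)

/-- Accumulated linear forms: digits in base `2 ^ 96`; digit 0 is `W`, digit 1 is `D`, digit
`i + 2` is variable `i`. -/
structure Acc where
  P : ℕ
  N : ℕ
  bd : ℕ

namespace Acc

def p : Acc → ℕ → ℕ → Acc
  | ⟨P, N, bd⟩, j, c => ⟨Nat.add P (Nat.shiftLeft c (Nat.mul 96 j)), N, Nat.add bd c⟩

def q : Acc → ℕ → ℕ → Acc
  | ⟨P, N, bd⟩, j, c => ⟨P, Nat.add N (Nat.shiftLeft c (Nat.mul 96 j)), Nat.add bd c⟩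

def pv (A : Acc) (i c : ℕ) : Acc := A.p (Nat.add i 2) c
def qv (A : Acc) (i c : ℕ) : Acc := A.q (Nat.add i 2) c

end Acc

/-- the sum over `j < k` of `j * (Z (t (j + o)) - Z (s (j + o)))` on the larger side -/
def gsum (o l : ℕ) : ℕ → Acc → Acc
  | 0, A => A
  | j + 1, A => gsum o l j ((A.pv (Nat.mul 2 (Nat.add j o)) (Nat.mul j l)).qv
      (Nat.add (Nat.mul 2 (Nat.add j o)) 1) (Nat.mul j l))

/-- variable `v` is bounded by the reach of `w` on level `k` -/
def reach (A : Acc) (l k v w var : ℕ) : Acc :=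
  cond (Nat.beq var 0)
    (gsum 0 l k (((((A.pv v l).pv (Nat.mul 2 k) (Nat.mul k l)).qv (Nat.mul 2 k) l).q 0 l).qv w
      (Nat.mul k l)))
    (gsum 1 l (Nat.sub k 1) ((((((A.pv v l).pv 1 l).pv (Nat.mul 2 k)
      (Nat.mul (Nat.sub k 1) l)).qv (Nat.mul 2 k) l).q 0 (Nat.mul 2 l)).qv w
      (Nat.mul (Nat.sub k 1) l)))

/-- add `l` times a valid inequality: smaller side to `P`, larger side to `N` -/
def row (s : St) (c l : ℕ) (A : Acc) : Option Acc :=
  let x := fld c 1
  let y := fld c 2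
  let z := fld c 3
  match fld c 0 with
  | 0 => leR s (Nat.shiftRight c 8) none fun a b => some ((A.pv a l).qv b l)
  | 1 => cond (s.lo x && s.isNe x (s.top x) && s.isNe x (s.sec x))
      (some (((A.pv (Nat.add (s.sec x) 2) l).qv (s.sec x) l).qv x l)) none
  | 2 => cond (s.isAdj x y && s.lo x && (s.isNe x (s.top x) || s.isNe y (s.sec x)) &&
        (s.isNe x (s.sec x) || s.isNe y (s.top x)))
      (some (((A.pv (Nat.add (s.sec x) 2) l).qv x l).qv y l)) none
  | 3 => cond (s.lo x && s.isAdj (s.top x) x && s.isAdj (s.top x) y && s.isNe x y)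
      (some (((((A.pv (Nat.add (s.sec x) 2) l).pv (s.sec x) l).qv (s.top x) l).qv x l).qv y l)) none
  | 4 => cond (s.lo x && Nat.beq (s.lv x) (s.lv y) && s.isNe x y && s.isNe x (s.top x) &&
        s.isNe y (s.top x)) (some (((A.pv (Nat.add (s.sec x) 2) l).qv x l).qv y l)) none
  | 5 => cond (s.isAdj y x && Nat.ble (s.lv x) 11 && (Nat.beq z 0 || Nat.ble 1 (s.lv x)))
      (some (reach A l (s.lv x) x y z)) none
  | 6 => cond (s.isAdj y x && bit s.dom y z) (some ((A.pv x l).qv z l)) none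
  | 7 => cond (bit s.wit x y)
      (some (((A.p 1 (Nat.shiftLeft l (Nat.add (s.lv x) 1))).qv x l).qv y l)) none
  | 8 => cond (bit s.wit y z && Nat.ble x 11 && Nat.blt (s.lv y) x)
      (let d := Nat.shiftLeft l (Nat.sub x (Nat.add (s.lv y) 1))
       some (((A.pv (Nat.add (Nat.mul 2 x) 1) l).qv y d).qv z d)) none
  | 9 =>
    let e := s.en x
    cond (s.isE x 1 && Nat.beq (fld e 4) (fld e 5) && bit s.wit y z &&
        Nat.blt (s.lv y) (s.lv (fld e 2)))
      (let d := Nat.shiftLeft l (Nat.sub (s.lv (fld e 2)) (Nat.add (s.lv y) 1))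
       some (((A.pv (fld e 2) l).qv y d).qv z d)) none
  | 10 => some ((A.p 1 l).qv 26 l)
  | 11 => cond (Nat.ble x 11)
      (some ((A.pv (Nat.add (Nat.mul 2 x) 1) l).qv 26 (Nat.shiftLeft l x))) none
  | 12 =>
    let e := s.en x
    cond (s.isE x 1 && Nat.beq (fld e 4) (fld e 5))
      (some ((A.pv (fld e 2) l).qv 26 (Nat.shiftLeft l (s.lv (fld e 2))))) none
  | 14 => cond (s.isK x 2 && (Nat.beq y 0 || Nat.ble 1 (s.lv x)))
      (some (reach A l (s.lv x) x (fld s.pa x) y)) none
  | _ => none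

/-- the first `k` rows of `x`: five bytes for the rule, seven for the multiplier -/
def rows (s : St) : ℕ → ℕ → Acc → Option Acc
  | 0, _, A => some A
  | k + 1, x, A =>
    match row s (Nat.mod x 1099511627776)
      (Nat.mod (Nat.shiftRight x 40) 72057594037927936) A with
    | none => none
    | some A' => rows s k (Nat.shiftRight x 96) A'

def dig (X j : ℕ) : ℕ := Nat.mod (Nat.shiftRight X (Nat.mul 96 j)) 79228162514264337593543950336

/-- eliminate variable `v` by its parents (`a = 255`) or by an equal vertex `a` -/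
def elim (s : St) (v a : ℕ) (A : Acc) : Option Acc :=
  let x := dig A.P (Nat.add v 2)
  let y := dig A.N (Nat.add v 2)
  let d := Nat.sub x y
  let e := Nat.sub y x
  cond (Nat.beq a 255)
    (cond (s.isK v 1 || s.isK v 3)
      (some (cond (Nat.beq e 0) (((A.pv (fld s.pa v) d).pv (fld s.pb v) d).qv v d)
        (((A.qv (fld s.pa v) e).qv (fld s.pb v) e).pv v e))) none)
    (cond (bit s.eq v a)
      (some (cond (Nat.beq e 0) ((A.pv a d).qv v d) ((A.qv a e).pv v e))) none)

def elims (s : St) : ℕ → ℕ → Acc → Option Acc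
  | 0, _, A => some A
  | k + 1, x, A =>
    match elim s (Nat.mod x 256) (Nat.mod (Nat.shiftRight x 8) 256) A with
    | none => none
    | some A' => elims s k (Nat.shiftRight x 16) A'

/-- Deficiency of the digits of the variables `i, i + 1, ...` (`k` of them), weighted by their upper
bounds; `P`, `N` and `lev` are already shifted. -/
def defic : ℕ → ℕ → ℕ → ℕ → ℕ → ℕ
  | 0, _, _, _, r => r
  | k + 1, P, N, lev, r =>
    defic k (Nat.shiftRight P 96) (Nat.shiftRight N 96) (Nat.shiftRight lev 8)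
      (Nat.add r (Nat.shiftLeft (Nat.sub (Nat.mod N 79228162514264337593543950336)
        (Nat.mod P 79228162514264337593543950336)) (Nat.mod lev 256)))

/-- final comparison; variable `0` is the top vertex, whose value is zero -/
def fin (s : St) (A : Acc) : Bool :=
  Nat.blt A.bd 79228162514264337593543950336 &&
    Nat.ble (Nat.add (dig A.N 0) (defic (Nat.sub s.n 1) (Nat.shiftRight A.P 288)
      (Nat.shiftRight A.N 288) (Nat.shiftRight s.lev 8) (Nat.sub (dig A.N 1) (dig A.P 1))))
      (dig A.P 0)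

/-- the goal `4 q D ≤ (q - p) Z g + p (W + ...)`, multiplied by `l` -/
def start (g p q l : ℕ) : Acc :=
  let a := Nat.mul p l
  ((((((⟨0, 0, 0⟩ : Acc).q 1 (Nat.mul (Nat.mul 4 q) l)).pv g (Nat.mul (Nat.sub q p) l)).p 0 a).pv 24
    a).pv 25 a).pv 26 a

/-- `h` holds the exponent, the number of rows and the number of eliminations -/
def leaf (g p q : ℕ) (s : St) (h x y : ℕ) : Bool :=
  match rows s (fld h 1) x (start g p q (Nat.shiftLeft 1 (fld h 0))) with
  | none => false
  | some A =>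
    match elims s (fld h 2) y A with
    | none => false
    | some B => fin s B

inductive Tr where
  | l (h x y : ℕ) : Tr
  | c (a b : ℕ) : Tr
  | u (k x : ℕ) (t : Tr) : Tr
  | b (c : ℕ) (t0 t1 : Tr) : Tr
  | d (c : ℕ) (t0 t1 t2 : Tr) : Tr

def chk (g p q : ℕ) : Tr → St → Bool
  | .l h x y, s => leaf g p q s h x y
  | .c a b, s => Nat.blt b 256 && bit s.eq a b && s.isNe a b
  | .u k x t, s =>
    match steps k s x with
    | none => false
    | some s' => chk g p q t s'
  | .b c t0 t1, s => brOk s c && two s c && chk g p q t0 (brApp s c 0) && chk g p q t1 (brApp s c 1)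
  | .d c t0 t1 t2, s => brOk s c && Nat.ble 3 (fld c 0) && chk g p q t0 (brApp s c 0) &&
      chk g p q t1 (brApp s c 1) && chk g p q t2 (brApp s c 2)

/-- the facts on the top edges of the first `k` levels -/
def root0 : ℕ → St
  | 0 => ⟨27, 1, 0, 0, 0xb0b0a0a0909080807070606050504040303020201010000, 0, 0, 0, 0, 0, 0, 0, 0,
      0, 0, 0, 0⟩
  | k + 1 => ((root0 k).addAdj (Nat.mul 2 k) (Nat.add (Nat.mul 2 k) 1)).setMid
      (Nat.add (Nat.mul 2 k) 2) (Nat.mul 2 k) (Nat.add (Nat.mul 2 k) 1)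

def root : St :=
  (((((((((root0 11).addAdj 22 23).addAdj 24 25).addNe 26 24).addNe 26 25).addNe 25 0).addNe 26
    0).addOn 0 24).addOn 0 25).addOn 0 26

/-- a path from the root: slots with `r = 0`, or case `r - 1` of a case distinction -/
inductive Pa where
  | o : Pa
  | u (p : Pa) (k x : ℕ) : Pa
  | b (p : Pa) (c r : ℕ) : Pa

def run : Pa → Option St
  | .o => some root
  | .u p k x =>
    match run p with
    | none => none
    | some s => steps k s x
  | .b p c r =>
    match run p with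
    | none => none
    | some s => some (brApp s c r)

def chkP (g p q : ℕ) (a : Pa) (t : Tr) : Bool :=
  match run a with
  | none => false
  | some s => chk g p q t s

end Pool.Agent.Lib.MP_7fdcdd_gt.BB
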