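import Pool.Agent.Lib.MP_7fdcdd_gt.BB.Chk

/-! The checker for trees with holes (definitions only). -/

namespace Pool.Agent.Lib.MP_7fdcdd_gt.BB

def Pa.eqb : Pa → Pa → Bool
  | .o, .o => true
  | .u a k x, .u a' l y => Nat.beq k l && Nat.beq x y && Pa.eqb a a'
  | .b a k x, .b a' l y => Nat.beq k l && Nat.beq x y && Pa.eqb a a'
  | _, _ => false

/-- entry `n` of the list is the path `a` -/
def hol : List Pa → ℕ → Pa → Bool
  | [], _, _ => false
  | x :: l, n, a => cond (Nat.beq n 0) (Pa.eqb x a) (hol l (Nat.sub n 1) a)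

/-- as `chk`, but `c a b` with `256 ≤ b` is the hole number `a` -/
def chk2 (g p q : ℕ) (H : List Pa) : Tr → Pa → St → Bool
  | .l h x y, _, s => leaf g p q s h x y
  | .c a b, r, s => cond (Nat.ble 256 b) (hol H a r)
      (Nat.blt b 256 && bit s.eq a b && s.isNe a b)
  | .u k x t, r, s =>
    match steps k s x with
    | none => false
    | some s' => chk2 g p q H t (.u r k x) s'
  | .b c t0 t1, r, s => brOk s c && two s c && chk2 g p q H t0 (.b r c 0) (brApp s c 0) &&
      chk2 g p q H t1 (.b r c 1) (brApp s c 1)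
  | .d c t0 t1 t2, r, s => brOk s c && Nat.ble 3 (fld c 0) &&
      chk2 g p q H t0 (.b r c 0) (brApp s c 0) && chk2 g p q H t1 (.b r c 1) (brApp s c 1) &&
      chk2 g p q H t2 (.b r c 2) (brApp s c 2)

def chkH (g p q : ℕ) (H : List Pa) (a : Pa) (t : Tr) : Bool :=
  match run a with
  | none => false
  | some s => chk2 g p q H t a s

end Pool.Agent.Lib.MP_7fdcdd_gt.BB
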