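import Pool.Agent.Lib.MP_7fdcdd_gt.H77.Link

/-! The model of a polyhedron with a generic direction and its elementary rules. -/

namespace Pool.Agent.Lib.MP_7fdcdd_gt.BB

open H77

/-- every vertex carries a face of the next set made of midpoints at that vertex -/
lemma cap_ex {V : Finset E} (hV : CP V) (hS : Sp V) {s : E} (hs : s ∈ V) :
    ∃ (φ : L) (m : ℝ), Top3 (nxt V) φ m ∧
      ∀ x ∈ nxt V, φ x = m → ∃ z, Adj V s z ∧ x = midpoint ℝ s z := by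
  classical
  obtain ⟨χ, hχ⟩ := hV s hs
  obtain ⟨v0, hv0, hv0s, -⟩ := hS.exists_ne s s s
  obtain ⟨v1, hv1, hmax⟩ := Finset.exists_max_image (V.erase s) χ
    ⟨v0, Finset.mem_erase.2 ⟨hv0s, hv0⟩⟩
  rw [Finset.mem_erase] at hv1
  have hδ : 0 < χ s - χ v1 := sub_pos.2 (hχ v1 hv1.2 hv1.1)
  set W := (V.erase s).image (fun v => v - s) with hW
  have hWmem : ∀ w, w ∈ W ↔ ∃ v ∈ V, v ≠ s ∧ w = v - s := fun w => by
    simp only [hW, Finset.mem_image, Finset.mem_erase]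
    constructor
    · rintro ⟨v, h, rfl⟩; exact ⟨v, h.2, h.1, rfl⟩
    · rintro ⟨v, h1, h2, rfl⟩; exact ⟨v, ⟨h2, h1⟩, rfl⟩
  obtain ⟨ζ, h1, -, h3⟩ := grow W (-1) 0 (fun ω hω => by
      have : ∃ v ∈ V, ω v ≠ ω s := by
        by_contra hcon
        push Not at hcon
        exact hω (hS ω fun x hx y hy => (hcon x hx).trans (hcon y hy).symm)
      obtain ⟨v, hv, hne⟩ := this
      have hvs : v ≠ s := fun h => hne (by rw [h])
      rcases lt_or_gt_of_ne hne with h | h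
      · exact Or.inr ⟨v - s, (hWmem _).2 ⟨v, hv, hvs, rfl⟩, by rw [map_sub]; linarith, by simp⟩
      · exact Or.inl ⟨v - s, (hWmem _).2 ⟨v, hv, hvs, rfl⟩, by rw [map_sub]; linarith, by simp⟩)
    ((χ s - χ v1)⁻¹ • χ) (fun w hw => by
      obtain ⟨v, hv, hvs, rfl⟩ := (hWmem w).1 hw
      have := hmax v (Finset.mem_erase.2 ⟨hvs, hv⟩)
      rw [LinearMap.smul_apply, smul_eq_mul, map_sub, inv_mul_le_iff₀ hδ]
      linarith)
  have hle : ∀ v ∈ V, v ≠ s → ζ v ≤ ζ s - 1 := fun v hv hvs => by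
    have := h1 _ ((hWmem _).2 ⟨v, hv, hvs, rfl⟩)
    rw [map_sub] at this
    linarith
  obtain ⟨a', ha', b', hb', c', hc', n1, n2, n3, ea, eb, ec⟩ := three_of_span h3
  obtain ⟨a, ha, has, rfl⟩ := (hWmem _).1 ha'
  obtain ⟨b, hb, hbs, rfl⟩ := (hWmem _).1 hb'
  obtain ⟨c, hc, hcs, rfl⟩ := (hWmem _).1 hc'
  rw [map_sub] at ea eb ec
  have hadj : ∀ x ∈ V, x ≠ s → ζ x - ζ s = -1 → Adj V s x := fun x hx hxs ex =>
    adj_of_second hV hs hx hxs (fun w hw hws => by linarith [hle w hw hws])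
      (fun w hw hws => by linarith [hle w hw hws])
  have hinj : ∀ x y : E, midpoint ℝ s x = midpoint ℝ s y → x - s = y - s := fun x y h => by
    have := (midpoint_eq_midpoint_iff_vsub_eq_vsub ℝ).1 h
    simp only [vsub_self] at this
    rw [(vsub_eq_zero_iff_eq.1 this.symm)]
  have hbound : ∀ q ∈ nxt V, ζ q ≤ ζ s - 1 / 2 := fun q hq => by
    obtain ⟨x, y, hxy, rfl⟩ := mem_nxt.1 hq
    have := pair_le_of_top (V := V) (l := ζ) (s := s) (t := a) (fun w hw => by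
      by_cases h : w = s
      · rw [h]
      · linarith [hle w hw h]) (fun w hw h => by linarith [hle w hw h])
      hxy.1 hxy.2.1 hxy.2.2.1
    rw [map_mid]; linarith
  refine ⟨ζ, ζ s - 1 / 2, ⟨hbound, _, (hadj a ha has ea).mid_mem, _, (hadj b hb hbs eb).mid_mem, _,
      (hadj c hc hcs ec).mid_mem, fun h => n1 (hinj _ _ h), fun h => n2 (hinj _ _ h),
      fun h => n3 (hinj _ _ h), by rw [map_mid]; linarith, by rw [map_mid]; linarith,
      by rw [map_mid]; linarith⟩, fun q hq he => ?_⟩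
  obtain ⟨x, y, hxy, rfl⟩ := mem_nxt.1 hq
  rw [map_mid] at he
  by_cases hx : x = s
  · subst hx
    exact ⟨y, hxy, rfl⟩
  · by_cases hy : y = s
    · subst hy
      exact ⟨x, hxy.symm, midpoint_comm _ _⟩
    · linarith [hle x hxy.1 hx, hle y hxy.2.1 hy]

/-- the vertex sets of the tower -/
noncomputable def lv (V : Finset E) (k : ℕ) : Finset E := nxt^[k] V

/-- A polyhedron with a generic direction and the distinguished points. -/
structure Mdl where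
  V : Finset E
  hV : CP V
  hS : Sp V
  u : L
  inj : ∀ k ≤ 12, ∀ x ∈ lv V k, ∀ y ∈ lv V k, u x = u y → x = y
  s : ℕ → E
  t : ℕ → E
  hs : ∀ k, s k ∈ lv V k
  hs' : ∀ k, ∀ x ∈ lv V k, u x ≤ u (s k)
  ht : ∀ k, t k ∈ lv V k
  hts : ∀ k, t k ≠ s k
  ht' : ∀ k, ∀ x ∈ lv V k, x ≠ s k → u x ≤ u (t k)
  W : ℝ
  hW : ∀ x ∈ V, u (s 0) - u x ≤ W
  D : ℝ
  hD0 : 0 ≤ D
  hD : ∀ c ∈ ker V, D ≤ u (s 0) - u c
  φ : L
  m : ℝ
  hφ0 : φ ≠ 0
  hφ : Top3 V φ m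
  xs : E
  ys : E
  ws : E
  hxy : Adj V xs ys
  hws : ws ∈ V
  ex : φ xs = m
  ey : φ ys = m
  ew : φ ws = m
  nwx : ws ≠ xs
  nwy : ws ≠ ys
  hx : ∀ v ∈ V, φ v = m → u v ≤ u xs
  hy : ∀ v ∈ V, φ v = m → v ≠ xs → u v ≤ u ys
  hw : ∀ v ∈ V, φ v = m → u ws ≤ u v

namespace Mdl

variable (M : Mdl)

/-- scaled depth -/
noncomputable def Z (k : ℕ) (x : E) : ℝ := 2 ^ k * (M.u (M.s 0) - M.u x)

lemma lv_succ (k : ℕ) : lv M.V (k + 1) = nxt (lv M.V k) := Function.iterate_succ_apply' _ _ _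

lemma cp (k : ℕ) : CP (lv M.V k) := CP_iter M.hV k

lemma sp (k : ℕ) : Sp (lv M.V k) := by
  induction k with
  | zero => exact M.hS
  | succ k ih => rw [lv_succ]; exact ih.nxt (M.cp k)

lemma Z_mid (k : ℕ) (a b : E) : M.Z (k + 1) (midpoint ℝ a b) = M.Z k a + M.Z k b := by
  unfold Z
  rw [map_mid, pow_succ]
  ring

lemma Z_le_iff (k : ℕ) (a b : E) : M.Z k a ≤ M.Z k b ↔ M.u b ≤ M.u a := by
  unfold Z
  rw [mul_le_mul_iff_right₀ (by positivity)]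
  constructor <;> intro h <;> linarith

lemma cv_lv (k : ℕ) : cv (lv M.V k) ⊆ cv M.V := by
  induction k with
  | zero => exact subset_rfl
  | succ k ih => rw [lv_succ]; exact (cv_nxt_subset _).trans ih

lemma ker_lv (k : ℕ) : ker (lv M.V k) = ker M.V := by
  induction k with
  | zero => rfl
  | succ k ih => rw [lv_succ, ker_nxt, ih]

lemma Z_nonneg {k : ℕ} {x : E} (hx : x ∈ lv M.V k) : 0 ≤ M.Z k x := by
  have h : M.u x ≤ M.u (M.s 0) :=
    le_of_mem_cv (V := M.V) (M.hs' 0) (M.cv_lv k (mem_cv_of_mem hx))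
  exact mul_nonneg (by positivity) (sub_nonneg.2 h)

lemma Z_le {k : ℕ} {x : E} (hx : x ∈ lv M.V k) : M.Z k x ≤ 2 ^ k * M.W := by
  have h : M.u (M.s 0) - M.W ≤ M.u x :=
    ge_of_mem_cv (V := M.V) (fun v hv => by linarith [M.hW v hv]) (M.cv_lv k (mem_cv_of_mem hx))
  exact mul_le_mul_of_nonneg_left (by linarith) (by positivity)

lemma Z_top : M.Z 0 (M.s 0) = 0 := by
  simp [Z]

lemma lt_s {k : ℕ} (hk : k ≤ 12) {x : E} (hx : x ∈ lv M.V k) (h : x ≠ M.s k) :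
    M.u x < M.u (M.s k) :=
  lt_of_le_of_ne (M.hs' k x hx) fun e => h (M.inj k hk x hx _ (M.hs k) e)

lemma Z_s_le {k : ℕ} {x : E} (hx : x ∈ lv M.V k) : M.Z k (M.s k) ≤ M.Z k x :=
  (M.Z_le_iff k _ _).2 (M.hs' k x hx)

lemma Z_t_le {k : ℕ} {x : E} (hx : x ∈ lv M.V k) (h : x ≠ M.s k) : M.Z k (M.t k) ≤ M.Z k x :=
  (M.Z_le_iff k _ _).2 (M.ht' k x hx h)

lemma adj_st {k : ℕ} (hk : k ≤ 12) : Adj (lv M.V k) (M.s k) (M.t k) :=
  adj_of_second (M.cp k) (M.hs k) (M.ht k) (M.hts k) (fun _ hw h => M.lt_s hk hw h) (M.ht' k)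

lemma mid_lv {k : ℕ} {a b : E} (h : Adj (lv M.V k) a b) : midpoint ℝ a b ∈ lv M.V (k + 1) := by
  rw [lv_succ]; exact h.mid_mem

lemma s_succ {k : ℕ} (hk : k + 1 ≤ 12) : M.s (k + 1) = midpoint ℝ (M.s k) (M.t k) := by
  have h1 := M.mid_lv (M.adj_st (k := k) (by omega))
  refine M.inj (k + 1) hk _ (M.hs _) _ h1 (le_antisymm ?_ (M.hs' _ _ h1))
  have h2 := M.hs (k + 1)
  rw [lv_succ] at h2
  obtain ⟨a, b, hab, e⟩ := mem_nxt.1 h2
  have := pair_le_of_top (M.hs' k) (M.ht' k) hab.1 hab.2.1 hab.2.2.1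
  rw [e, map_mid, map_mid]
  linarith

lemma Z_s_succ {k : ℕ} (hk : k + 1 ≤ 12) :
    M.Z (k + 1) (M.s (k + 1)) = M.Z k (M.s k) + M.Z k (M.t k) := by
  rw [M.s_succ hk, Z_mid]

lemma ys_ne : M.ys ≠ M.s 0 := fun h => by
  have h1 := M.hx _ M.hxy.2.1 M.ey
  have h2 := M.hs' 0 _ M.hxy.1
  rw [← h] at h2
  exact M.hxy.2.2.1 (M.inj 0 (by omega) _ M.hxy.1 _ M.hxy.2.1 (le_antisymm h2 h1))

lemma ws_ne : M.ws ≠ M.s 0 := fun h => by
  have h1 := M.hw _ M.hxy.1 M.ex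
  have h2 := M.hs' 0 _ M.hxy.1
  rw [← h] at h2
  exact M.nwx (M.inj 0 (by omega) _ M.hws _ M.hxy.1 (le_antisymm h1 h2))

/-- an edge other than the top edge bounds the next second point -/
lemma pair_sec {k : ℕ} (hk : k + 1 ≤ 12) {v z : E} (h : Adj (lv M.V k) v z)
    (h1 : v ≠ M.s k ∨ z ≠ M.t k) (h2 : v ≠ M.t k ∨ z ≠ M.s k) :
    M.Z (k + 1) (M.t (k + 1)) ≤ M.Z k v + M.Z k z := by
  rw [← Z_mid]
  refine M.Z_t_le (M.mid_lv h) fun e => ?_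
  rw [M.s_succ hk] at e
  rcases (M.adj_st (k := k) (by omega)).mid_unique h.1 h.2.1 h.2.2.1 e with h3 | h3
  · exact h1.elim (fun h => h h3.1) (fun h => h h3.2)
  · exact h2.elim (fun h => h h3.1) (fun h => h h3.2)

lemma third {k : ℕ} (hk : k + 1 ≤ 12) {v : E} (hv : v ∈ lv M.V k) (h1 : v ≠ M.s k)
    (h2 : v ≠ M.t k) : M.Z (k + 1) (M.t (k + 1)) ≤ M.Z k (M.t k) + M.Z k v := by
  have hk' : k ≤ 12 := by omega
  obtain ⟨r, hrs, hrt, hr, hmax⟩ := exists_third (M.cp k) (l := M.u) (M.hs k) (M.ht k)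
    (M.hts k).symm (fun c hc h3 h4 => ⟨M.lt_s hk' hc h3,
      lt_of_le_of_ne (M.ht' k c hc h3) fun e => h4 (M.inj k hk' c hc _ (M.ht k) e)⟩)
    ⟨v, hv, h1, h2⟩
  have h3 := (M.Z_le_iff k _ _).2 (hmax v hv h1 h2)
  rcases hr with hr | hr
  · have h4 := M.pair_sec hk hr (Or.inr hrt) (Or.inr hrs)
    have h5 := M.Z_s_le (M.ht k)
    linarith
  · have h4 := M.pair_sec hk hr (Or.inr hrt) (Or.inr hrs)
    linarith

lemma two_nbrs {k : ℕ} (hk : k + 1 ≤ 12) {p q : E} (hp : Adj (lv M.V k) (M.s k) p)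
    (hq : Adj (lv M.V k) (M.s k) q) (hpq : p ≠ q) :
    M.Z (k + 1) (M.t (k + 1)) + M.Z k (M.t k) ≤ M.Z k (M.s k) + M.Z k p + M.Z k q := by
  have key : ∀ p q : E, Adj (lv M.V k) (M.s k) p → Adj (lv M.V k) (M.s k) q → q ≠ M.t k →
      M.Z (k + 1) (M.t (k + 1)) + M.Z k (M.t k) ≤ M.Z k (M.s k) + M.Z k p + M.Z k q := by
    intro p q hp hq h
    have h1 := M.pair_sec hk hq (Or.inr h) (Or.inr hq.2.2.1.symm)
    have h2 := M.Z_t_le hp.2.1 hp.2.2.1.symm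
    linarith
  by_cases h : q = M.t k
  · have := key q p hq hp (fun e => hpq (e.trans h.symm))
    linarith
  · exact key p q hp hq h

lemma two_low {k : ℕ} (hk : k + 1 ≤ 12) {p q : E} (hp : p ∈ lv M.V k) (hq : q ∈ lv M.V k)
    (hpq : p ≠ q) (h1 : p ≠ M.s k) (h2 : q ≠ M.s k) :
    M.Z (k + 1) (M.t (k + 1)) ≤ M.Z k p + M.Z k q := by
  by_cases h : q = M.t k
  · have := M.third hk hp h1 (fun e => hpq (e.trans h.symm))
    rw [h]; linarith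
  · have h3 := M.third hk hq h2 h
    have h4 := M.Z_t_le hp h1
    linarith

/-- adjacent points of a positive level share a parent -/
lemma parents {k : ℕ} {v w : E} (h : Adj (lv M.V (k + 1)) w v) :
    ∃ a b c, Adj (lv M.V k) a b ∧ Adj (lv M.V k) a c ∧ w = midpoint ℝ a b ∧
      v = midpoint ℝ a c := by
  rw [lv_succ] at h
  obtain ⟨a, b, hab, rfl⟩ := mem_nxt.1 h.1
  obtain ⟨c, -, -, h1 | h1⟩ := share_parent (M.cp k) hab h
  · exact ⟨a, b, c, hab, h1.1, rfl, h1.2⟩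
  · exact ⟨b, a, c, hab.symm, h1.1, midpoint_comm _ _, h1.2⟩

lemma reach_gen (i : ℕ) (B : ℝ) (hB : ∀ v ∈ lv M.V i, M.Z i v ≤ M.Z i (M.s i) + B) (k : ℕ)
    (hk : k + i ≤ 12) {v w : E} (h : Adj (lv M.V (k + i)) w v) :
    M.Z (k + i) v ≤ M.Z (k + i) (M.s (k + i)) + B +
      k * (M.Z (k + i) w - M.Z (k + i) (M.s (k + i))) +
      ∑ j ∈ Finset.range k, (j : ℝ) * (M.Z (j + i) (M.t (j + i)) - M.Z (j + i) (M.s (j + i))) := by
  induction k generalizing v w with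
  | zero =>
    simp only [Nat.zero_add] at h ⊢
    simpa using hB v h.2.1
  | succ k ih =>
    have e : k + 1 + i = k + i + 1 := by omega
    rw [e] at h hk ⊢
    obtain ⟨a, b, c, hab, hac, rfl, rfl⟩ := M.parents h
    have h1 := ih (by omega) hac
    have h2 := M.Z_s_le hab.2.1
    rw [Finset.sum_range_succ, M.Z_s_succ hk, Z_mid, Z_mid]
    push_cast
    have h3 : (0 : ℝ) ≤ (k + 1) * (M.Z (k + i) b - M.Z (k + i) (M.s (k + i))) :=
      mul_nonneg (by positivity) (sub_nonneg.2 h2)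
    nlinarith

/-- crude reach, first form -/
lemma reach1 {k : ℕ} (hk : k ≤ 12) {v w : E} (h : Adj (lv M.V k) w v) :
    M.Z k v ≤ M.Z k (M.s k) + M.W + k * (M.Z k w - M.Z k (M.s k)) +
      ∑ j ∈ Finset.range k, (j : ℝ) * (M.Z j (M.t j) - M.Z j (M.s j)) :=
  M.reach_gen 0 M.W (fun v hv => by
    have := M.Z_le hv
    rw [M.Z_top]; simpa using this) k hk h

/-- crude reach, second form -/
lemma reach2 {k : ℕ} (hk : k + 1 ≤ 12) {v w : E} (h : Adj (lv M.V (k + 1)) w v) :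
    M.Z (k + 1) v + M.Z 0 (M.t 0) ≤ M.Z (k + 1) (M.s (k + 1)) + 2 * M.W +
      k * (M.Z (k + 1) w - M.Z (k + 1) (M.s (k + 1))) +
      ∑ j ∈ Finset.range k, (j : ℝ) * (M.Z (j + 1) (M.t (j + 1)) - M.Z (j + 1) (M.s (j + 1))) := by
  have := M.reach_gen 1 (2 * M.W - M.Z 0 (M.t 0)) (fun v hv => by
    have h1 := M.Z_le hv
    have h2 := M.Z_s_succ (k := 0) (by omega)
    rw [M.Z_top] at h2
    simp only [Nat.zero_add] at h2
    rw [h2]; linarith) k hk h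
  linarith

/-- all neighbours of `a` have scaled depth at most `r` -/
def Dom (k : ℕ) (a : E) (r : ℝ) : Prop := ∀ x, Adj (lv M.V k) a x → M.Z k x ≤ r

lemma dom_step {k : ℕ} {a b : E} {r y : ℝ} (h : Adj (lv M.V k) a b) (ha : M.Dom k a r)
    (hb : M.Dom k b r) (h1 : M.Z k a ≤ y) (h2 : M.Z k b ≤ y) :
    M.Dom (k + 1) (midpoint ℝ a b) (y + r) := by
  intro x hx
  rw [lv_succ] at hx
  obtain ⟨c, -, -, ⟨h3, rfl⟩ | ⟨h3, rfl⟩⟩ := share_parent (M.cp k) h hx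
  · rw [Z_mid]; linarith [ha c h3]
  · rw [Z_mid]; linarith [hb c h3]

/-- a face all of whose vertices have scaled depth at most `B` -/
def Wall (k : ℕ) (B : ℝ) : Prop :=
  ∃ (φ : L) (m : ℝ), Top3 (lv M.V k) φ m ∧ ∀ x ∈ lv M.V k, φ x = m → M.Z k x ≤ B

lemma wall_up {k : ℕ} {B : ℝ} (h : M.Wall k B) (i : ℕ) : M.Wall (k + i) (2 ^ i * B) := by
  induction i with
  | zero => simpa using h
  | succ i ih =>
    obtain ⟨φ, m, h1, h2⟩ := ih
    refine ⟨φ, m, ?_, fun x hx e => ?_⟩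
    · rw [← add_assoc, lv_succ]; exact h1.nxt (M.cp _)
    · rw [← add_assoc] at hx ⊢
      rw [lv_succ] at hx
      obtain ⟨a, b, hab, rfl⟩ := mem_nxt.1 hx
      rw [map_mid] at e
      have ha := h1.1 a hab.1
      have hb := h1.1 b hab.2.1
      have h3 := h2 a hab.1 (by linarith)
      have h4 := h2 b hab.2.1 (by linarith)
      rw [Z_mid, pow_succ]; linarith

lemma wall_D {k : ℕ} {B : ℝ} (h : M.Wall k B) : 2 ^ k * M.D ≤ B := by
  classical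
  obtain ⟨φ, m, h1, h2⟩ := h
  obtain ⟨x, hx, e⟩ := h1.ker_meets (M.cp k)
  have h3 : x ∈ cv ((lv M.V k).filter (fun q => M.Z k q ≤ B)) :=
    mem_cv_face h1.1 (ker_subset _ hx) e.ge fun q hq he => Finset.mem_filter.2 ⟨hq, h2 q hq he⟩
  have hp : (0 : ℝ) < 2 ^ k := by positivity
  have h4 : M.u (M.s 0) - B / 2 ^ k ≤ M.u x := ge_of_mem_cv (fun q hq => by
    have h5 := (Finset.mem_filter.1 hq).2
    unfold Z at h5
    have : M.u (M.s 0) - M.u q ≤ B / 2 ^ k := by rw [le_div_iff₀ hp]; linarith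
    linarith) h3
  have h5 := M.hD x (M.ker_lv k ▸ hx)
  have h6 : M.D ≤ B / 2 ^ k := by linarith
  rw [le_div_iff₀ hp] at h6
  linarith

lemma wall_third {k : ℕ} {B : ℝ} (h : M.Wall k B) {z a b : E}
    (hz : ∀ x ∈ lv M.V k, x ≠ a → x ≠ b → M.u x ≤ M.u z) : M.Z k z ≤ B := by
  obtain ⟨φ, m, ⟨-, p, hp, q, hq, r, hr, n1, n2, n3, e1, e2, e3⟩, h2⟩ := h
  have key : ∀ x ∈ lv M.V k, φ x = m → x ≠ a → x ≠ b → M.Z k z ≤ B := fun x hx e h3 h4 =>
    ((M.Z_le_iff k _ _).2 (hz x hx h3 h4)).trans (h2 x hx e)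
  by_cases h1 : p ≠ a ∧ p ≠ b
  · exact key p hp e1 h1.1 h1.2
  by_cases h3 : q ≠ a ∧ q ≠ b
  · exact key q hq e2 h3.1 h3.2
  refine key r hr e3 ?_ ?_ <;> rintro rfl <;> grind

lemma wall_wit {k : ℕ} {v w : E} (hv : v ∈ lv M.V k)
    (hw : ∀ x, Adj (lv M.V k) v x → M.u w ≤ M.u x) : M.Wall (k + 1) (M.Z k v + M.Z k w) := by
  obtain ⟨φ, m, h1, h2⟩ := cap_ex (M.cp k) (M.sp k) hv
  refine ⟨φ, m, by rw [lv_succ]; exact h1, fun x hx e => ?_⟩
  rw [lv_succ] at hx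
  obtain ⟨z, hz, rfl⟩ := h2 x hx e
  rw [Z_mid]
  linarith [(M.Z_le_iff k _ _).2 (hw z hz)]

lemma wall_star : M.Wall 0 (M.Z 0 M.ws) :=
  ⟨M.φ, M.m, M.hφ, fun x hx e => (M.Z_le_iff 0 _ _).2 (M.hw x hx e)⟩

/-- the two inequalities proved by the certificates; `b = p / q` -/
def Goal (second : Bool) (p q : ℕ) : Prop :=
  4 * q * M.D ≤ (q - p : ℝ) * M.Z 2 (if second then M.t 2 else M.s 2) +
    p * (M.W + M.Z 0 M.ws + M.Z 0 M.xs + M.Z 0 M.ys)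

end Mdl

end Pool.Agent.Lib.MP_7fdcdd_gt.BB
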