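import Pool.Agent.Lib.MP_7fdcdd_gt.Asm7
import Pool.Agent.Lib.MP_7fdcdd_gt.BB.GeoM

/-! From generic directions to all directions. -/

namespace Pool.Agent.Lib.MP_7fdcdd_gt.BB

open H77 Asm

variable {V : Finset E}

/-- a direction that separates the points of `F`, close to a given one on the hull of `V` -/
lemma generic (F V : Finset E) (u : L) {δ : ℝ} (hδ : 0 < δ) :
    ∃ u2 : L, (∀ x ∈ F, ∀ y ∈ F, u2 x = u2 y → x = y) ∧
      ∀ y ∈ cv V, u2 y ≤ u y + δ ∧ u y ≤ u2 y + δ := by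
  classical
  obtain ⟨χ, hχ⟩ := Module.exists_dual_forall_apply_ne_zero (K := ℝ)
    (fun p : {p // p ∈ (F ×ˢ F).filter (fun p : E × E => p.1 ≠ p.2)} => p.1.1 - p.1.2)
    (fun p => sub_ne_zero.2 (Finset.mem_filter.1 p.2).2)
  set C : ℝ := 1 + ∑ v ∈ V, |χ v| with hC
  have hC0 : 0 < C := by positivity
  have hb : ∀ v ∈ V, |χ v| ≤ C := fun v hv => by
    have := Finset.single_le_sum (f := fun v => |χ v|) (fun _ _ => abs_nonneg _) hv
    linarith
  obtain ⟨ε, hε, hn⟩ := (Set.Ioo_infinite (div_pos hδ hC0)).exists_notMem_finset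
    ((F ×ˢ F).image (fun p : E × E => (u p.2 - u p.1) / (χ p.1 - χ p.2)))
  have hε2 : ε * C ≤ δ := ((lt_div_iff₀ hC0).1 hε.2).le
  refine ⟨u + ε • χ, fun x hx y hy e => ?_, fun y hy => ?_⟩
  · by_contra hne
    have h1 : χ (x - y) ≠ 0 :=
      hχ ⟨(x, y), Finset.mem_filter.2 ⟨Finset.mem_product.2 ⟨hx, hy⟩, hne⟩⟩
    rw [map_sub] at h1
    refine hn (Finset.mem_image.2 ⟨(x, y), Finset.mem_product.2 ⟨hx, hy⟩, ?_⟩)
    simp only [LinearMap.add_apply, LinearMap.smul_apply, smul_eq_mul] at e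
    rw [div_eq_iff h1]
    linarith
  · have h1 : χ y ≤ C := le_of_mem_cv (fun v hv => (abs_le.1 (hb v hv)).2) hy
    have h2 : -C ≤ χ y := ge_of_mem_cv (fun v hv => (abs_le.1 (hb v hv)).1) hy
    have h3 := mul_le_mul_of_nonneg_left h1 hε.1.le
    have h4 := mul_le_mul_of_nonneg_left h2 hε.1.le
    simp only [LinearMap.add_apply, LinearMap.smul_apply, smul_eq_mul]
    constructor <;> linarith

/-- the model attached to a generic direction -/
lemma exists_mdl (hV : CP V) (hS : Sp V) (u : L)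
    (inj : ∀ k ≤ 12, ∀ x ∈ lv V k, ∀ y ∈ lv V k, u x = u y → x = y) :
    ∃ (M : Mdl) (c : E), c ∈ ker V ∧ M.V = V ∧ M.u = u ∧ M.D = u (M.s 0) - u c ∧
      4 * (u (M.s 0) - u (cen V)) ≥ M.W + M.Z 0 M.ws + M.Z 0 M.xs + M.Z 0 M.ys := by
  classical
  have hsp : ∀ k, Sp (lv V k) := fun k => by
    induction k with
    | zero => exact hS
    | succ k ih =>
      rw [show lv V (k + 1) = nxt (lv V k) from Function.iterate_succ_apply' _ _ _]
      exact ih.nxt (CP_iter hV k)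
  have hst : ∀ k, ∃ s t, Adj (lv V k) s t ∧ (∀ w ∈ lv V k, u w ≤ u s) ∧
      ∀ w ∈ lv V k, w ≠ s → u w ≤ u t := fun k => by
    obtain ⟨a, ha⟩ := (hsp k).nonempty
    obtain ⟨b, hb, hba, -⟩ := (hsp k).exists_ne a a a
    exact exists_top_edge (CP_iter hV k) u ⟨b, hb, a, ha, hba⟩
  choose s t h1 h2 h3 using hst
  obtain ⟨ω, ⟨z, φ, m, i, j, k, hz, hzm, hi, hjk, hij, hik, hle, hφz, ei, ej, ek, hlow, hω⟩,
    hcen⟩ := exists_low_cen hV hS u
  have hT : Top3 V φ m := ⟨hle, i, hi, j, hjk.1, k, hjk.2.1, hij, hik, hjk.2.2.1, ei, ej, ek⟩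
  obtain ⟨c0, hc0, -⟩ := hT.ker_meets hV
  obtain ⟨c, hc, hcm⟩ := (ker_compact V).exists_isMaxOn ⟨c0, hc0⟩
    u.continuous_of_finiteDimensional.continuousOn
  set T := V.filter (fun v => φ v = m) with hTd
  have hm : ∀ v, v ∈ T ↔ v ∈ V ∧ φ v = m := fun v => Finset.mem_filter
  obtain ⟨x, hx, hxm⟩ := Finset.exists_max_image T u ⟨i, (hm i).2 ⟨hi, ei⟩⟩
  have hne : (T.erase x).Nonempty := by
    by_cases h : j = x
    · exact ⟨k, Finset.mem_erase.2 ⟨fun e => hjk.2.2.1 (h.trans e.symm),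
        (hm k).2 ⟨hjk.2.1, ek⟩⟩⟩
    · exact ⟨j, Finset.mem_erase.2 ⟨h, (hm j).2 ⟨hjk.1, ej⟩⟩⟩
  obtain ⟨y, hy, hym⟩ := Finset.exists_max_image _ u hne
  rw [Finset.mem_erase, hm] at hy
  rw [hm] at hx
  have hx' : ∀ v ∈ V, φ v = m → u v ≤ u x := fun v hv e => hxm v ((hm v).2 ⟨hv, e⟩)
  have hy' : ∀ v ∈ V, φ v = m → v ≠ x → u v ≤ u y := fun v hv e hn =>
    hym v (Finset.mem_erase.2 ⟨hn, (hm v).2 ⟨hv, e⟩⟩)
  have inj0 : ∀ a ∈ V, ∀ b ∈ V, u a = u b → a = b := inj 0 (by omega)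
  have hxy : Adj V x y := by
    obtain ⟨ε, hε, hp⟩ := perturb V φ u
    refine ⟨hx.1, hy.2.1, hy.1.symm, φ + ε • u, fun w hw n1 n2 => ?_⟩
    rcases (hle w hw).lt_or_eq with h | h
    · exact ⟨hp w hw x hx.1 (by rw [hx.2]; exact h), hp w hw y hy.2.1 (by rw [hy.2.2]; exact h)⟩
    · have k1 : u w < u y := lt_of_le_of_ne (hy' w hw h n1) fun e => n2 (inj0 w hw y hy.2.1 e)
      have k2 := hx' y hy.2.1 hy.2.2
      have k3 := mul_lt_mul_of_pos_left k1 hε
      have k4 := mul_le_mul_of_nonneg_left k2 hε.le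
      simp only [LinearMap.add_apply, LinearMap.smul_apply, smul_eq_mul]
      rw [h, hx.2, hy.2.2]
      constructor <;> linarith
  have nix : i ≠ x := fun e => by
    have k1 := hx' j hjk.1 ej
    have k2 := hlow j hjk.1 ej
    rw [← e] at k1
    exact hij (inj0 i hi j hjk.1 (le_antisymm k2 k1))
  have niy : i ≠ y := fun e => by
    have key : ∀ w ∈ V, φ w = m → i ≠ w → w ≠ x → False := fun w hw ew n1 n2 => by
      have k1 := hy' w hw ew n2
      have k2 := hlow w hw ew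
      rw [← e] at k1
      exact n1 (inj0 i hi w hw (le_antisymm k2 k1))
    by_cases h : j = x
    · exact key k hjk.2.1 ek hik fun e' => hjk.2.2.1 (h.trans e'.symm)
    · exact key j hjk.1 ej hij h
  have hpair : u j + u k ≤ u x + u y :=
    pair_le_of_top (V := T) (fun w hw => hxm w hw)
      (fun w hw hn => hym w (Finset.mem_erase.2 ⟨hn, hw⟩)) ((hm j).2 ⟨hjk.1, ej⟩)
      ((hm k).2 ⟨hjk.2.1, ek⟩) hjk.2.2.1
  refine ⟨{ V := V, hV := hV, hS := hS, u := u, inj := inj, s := s, t := t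
            hs := fun k => (h1 k).1, hs' := h2, ht := fun k => (h1 k).2.1
            hts := fun k => (h1 k).2.2.1.symm, ht' := h3
            W := u (s 0) - u z, hW := fun x hx => by linarith [hzm x hx]
            D := u (s 0) - u c
            hD0 := sub_nonneg.2 (le_of_mem_cv (V := V) (h2 0) (ker_subset V hc))
            hD := fun c' hc' => by have : u c' ≤ u c := hcm hc'; linarith
            φ := φ, m := m
            hφ0 := fun e => by rw [e] at hφz ei; simp at hφz ei; linarith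
            hφ := hT, xs := x, ys := y, ws := i, hxy := hxy, hws := hi, ex := hx.2
            ey := hy.2.2, ew := ei, nwx := nix, nwy := niy, hx := hx', hy := hy'
            hw := hlow }, c, hc, rfl, rfl, rfl, ?_⟩
  simp only [Mdl.Z, pow_zero, one_mul]
  linarith

/-- passing from generic directions to all directions -/
lemma limit (hV : CP V) (hS : Sp V) {a : ℝ} (a0 : 0 ≤ a) (a1 : a ≤ 1) {v w : E} (hv : v ∈ cv V)
    (hw : w ∈ cv V)
    (H : ∀ u : L, (∀ k ≤ 12, ∀ x ∈ lv V k, ∀ y ∈ lv V k, u x = u y → x = y) →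
      ∃ c ∈ ker V, u (cen V) + a * (min (u v) (u w) - u (cen V)) ≤ u c) (u : L) :
    ∃ c ∈ ker V, u (cen V) + a * (min (u v) (u w) - u (cen V)) ≤ u c := by
  classical
  have hcen : cen V ∈ cv V := cv_nxt_subset V (cen_mem hV hS)
  have key : ∀ δ : ℝ, 0 < δ →
      ∃ c ∈ ker V, u (cen V) + a * (min (u v) (u w) - u (cen V)) ≤ u c + δ := fun δ hδ => by
    obtain ⟨u2, h1, h2⟩ := generic ((Finset.range 13).biUnion (lv V)) V u (half_pos hδ)
    have hm : ∀ k ≤ 12, ∀ x ∈ lv V k, x ∈ (Finset.range 13).biUnion (lv V) := fun k hk x hx =>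
      Finset.mem_biUnion.2 ⟨k, Finset.mem_range.2 (by omega), hx⟩
    obtain ⟨c, hc, h3⟩ := H u2 fun k hk x hx y hy => h1 x (hm k hk x hx) y (hm k hk y hy)
    refine ⟨c, hc, ?_⟩
    have k1 := (h2 c (ker_subset V hc)).1
    have k2 := (h2 _ hcen).2
    have k3 : min (u v) (u w) ≤ min (u2 v) (u2 w) + δ / 2 := by
      rw [← min_add_add_right]
      exact min_le_min (h2 v hv).2 (h2 w hw).2
    have k4 := mul_le_mul_of_nonneg_left k3 a0
    have k5 := mul_le_mul_of_nonneg_left k2 (sub_nonneg.2 a1)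
    linarith
  obtain ⟨c0, hc0, -⟩ := key 1 one_pos
  obtain ⟨c, hc, hcm⟩ := (ker_compact V).exists_isMaxOn ⟨c0, hc0⟩
    u.continuous_of_finiteDimensional.continuousOn
  refine ⟨c, hc, le_of_forall_pos_le_add fun δ hδ => ?_⟩
  obtain ⟨c1, hc1, h⟩ := key δ hδ
  have : u c1 ≤ u c := hcm hc1
  linarith

lemma goal_use {p q : ℕ} (hq : 0 < q) (hp : p ≤ q) {D Z R s c o x : ℝ} (hD : D = s - c)
    (hR : 4 * (s - o) ≥ R) (hZ : Z ≤ 4 * (s - x)) (h : 4 * q * D ≤ (q - p : ℝ) * Z + p * R) :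
    o + (1 - (p : ℝ) / q) * (x - o) ≤ c := by
  have h1 : (0 : ℝ) < q := by exact_mod_cast hq
  have h2 : (0 : ℝ) ≤ q - p := sub_nonneg.2 (by exact_mod_cast hp)
  have h3 := mul_le_mul_of_nonneg_left hZ h2
  have h4 := mul_le_mul_of_nonneg_left hR (Nat.cast_nonneg (α := ℝ) p)
  have e : o + (1 - (p : ℝ) / q) * (x - o) = (q * o + (q - p) * (x - o)) / q := by
    field_simp
  rw [e, div_le_iff₀ h1]
  rw [hD] at h
  linarith

lemma depth_of_goals (hV : CP V) (hS : Sp V) {p q p' q' : ℕ} (hq : 0 < q) (hq' : 0 < q')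
    (hp : p ≤ q) (hp' : p' ≤ q') (H1 : ∀ M : Mdl, M.Goal false p q)
    (H2 : ∀ M : Mdl, M.Goal true p' q') : Depth V (1 - (p : ℝ) / q) (1 - (p' : ℝ) / q') := by
  have hr : ∀ {p q : ℕ}, 0 < q → p ≤ q → 0 ≤ 1 - (p : ℝ) / q ∧ 1 - (p : ℝ) / q ≤ 1 :=
    fun {p q} hq hp => ⟨sub_nonneg.2 ((div_le_one (by exact_mod_cast hq)).2
      (by exact_mod_cast hp)), sub_le_self _ (by positivity)⟩
  have hc : ∀ v ∈ nxt (nxt V), v ∈ cv V := fun v hv =>
    cv_nxt_subset V (cv_nxt_subset _ (mem_cv_of_mem hv))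
  refine ⟨cen V, fun u v hv => ?_, fun u v hv w hw hvw => ?_⟩
  · have := limit hV hS (hr hq hp).1 (hr hq hp).2 (hc v hv) (hc v hv) (fun u inj => ?_) u
    · rwa [min_self] at this
    obtain ⟨M, c, h1, rfl, rfl, h2, h3⟩ := exists_mdl hV hS u inj
    refine ⟨c, h1, goal_use hq hp h2 h3 ?_ (H1 M)⟩
    have := M.hs' 2 v hv
    simp only [Mdl.Z, min_self, Bool.false_eq_true, if_false]
    linarith
  · refine limit hV hS (hr hq' hp').1 (hr hq' hp').2 (hc v hv) (hc w hw) (fun u inj => ?_) u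
    obtain ⟨M, c, h1, rfl, rfl, h2, h3⟩ := exists_mdl hV hS u inj
    refine ⟨c, h1, goal_use hq' hp' h2 h3 ?_ (H2 M)⟩
    have : min (M.u v) (M.u w) ≤ M.u (M.t 2) := by
      by_cases h : v = M.s 2
      · exact (min_le_right _ _).trans (M.ht' 2 w hw fun e => hvw (h.trans e.symm))
      · exact (min_le_left _ _).trans (M.ht' 2 v hv h)
    simp only [Mdl.Z, if_true]
    linarith

/-- From generic directions to all directions, and the conjecture. -/
theorem of_goals {p q p' q' : ℕ} (hq : 0 < q) (hq' : 0 < q') (hp : p ≤ q) (hp' : 0 < p')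
    (h12 : (p' : ℝ) / q' ≤ p / q)
    (hk : 23312 / 100000 ≤ 115 / 256 * ((1 - (p : ℝ) / q) * (1 - (p' : ℝ) / q')))
    (H1 : ∀ M : Mdl, M.Goal false p q) (H2 : ∀ M : Mdl, M.Goal true p' q')
    (S : Finset E) (hS : affineSpan ℝ (S : Set E) = ⊤) (T : Fin 4 → E)
    (hT : AffineIndependent ℝ T) :
    rho (convexHull ℝ (Set.range T)) ≤ rho (convexHull ℝ (S : Set E)) := by
  have g1 : (0 : ℝ) < q := by exact_mod_cast hq
  have g2 : (0 : ℝ) < q' := by exact_mod_cast hq'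
  have g3 : (p : ℝ) / q ≤ 1 := (div_le_one g1).2 (by exact_mod_cast hp)
  have g4 : p' ≤ q' := by exact_mod_cast (div_le_one g2).1 (h12.trans g3)
  have g5 : (0 : ℝ) < (p' : ℝ) / q' := div_pos (by exact_mod_cast hp') g2
  have hd := fun V hV hS => depth_of_goals (V := V) hV hS hq hq' hp g4 H1 H2
  exact assembly2 (by linarith) (by linarith) (by linarith) (by linarith) (by linarith)
    (by linarith) (by linarith) hk (fun V hV hS _ => hd V hV hS) (fun V hV hS _ => hd V hV hS)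
    S hS T hT

end Pool.Agent.Lib.MP_7fdcdd_gt.BB
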