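import Pool.Agent.Lib.MP_7fdcdd_gt.BB.GeoA
import Pool.Agent.Lib.MP_7fdcdd_gt.BB.GeoG

/-! Geometric rules used by the depth certificate. Levels are counted from zero. -/
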