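import Pool.Agent.Lib.MP_7fdcdd_gt.Asm1

/-! Local geometric rules for the vertex graphs of the tower. -/

namespace Pool.Agent.Lib.MP_7fdcdd_gt.BB

open H77

section General

variable {V : Finset E}

/-- every vertex has at least three neighbours -/
lemma deg3 (hV : CP V) (hS : Sp V) {v : E} (hv : v ∈ V) (a b : E) :
    ∃ z, Adj V v z ∧ z ≠ a ∧ z ≠ b := by
  obtain ⟨-, p, q, r, hp, hq, hr, n1, n2, n3, -⟩ := Asm.link_facet hV hS hv
  by_cases h1 : p ≠ a ∧ p ≠ b
  · exact ⟨p, hp, h1⟩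
  by_cases h2 : q ≠ a ∧ q ≠ b
  · exact ⟨q, hq, h2⟩
  refine ⟨r, hr, ?_, ?_⟩ <;> rintro rfl <;> grind

/-- a vertex that is not highest has a higher neighbour -/
lemma up_nbr (hV : CP V) (u : L) {z c : E} (hz : z ∈ V) (hc : c ∈ V) (h : u z < u c) :
    ∃ a, Adj V a z ∧ u z < u a := by
  obtain ⟨χ, hχ⟩ := hV z hz
  obtain ⟨μ, hμ, ⟨w, hw, g0, e⟩, hall⟩ := first_tie V (fun w => χ z - χ w) (fun w => u w - u z)
    (fun w hw => by
      by_cases e : w = z
      · simp [e]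
      · exact (sub_pos.2 (hχ w hw e)).le) ⟨c, hc, sub_pos.2 h⟩
  have hwz : w ≠ z := fun e => by simp [e] at g0
  obtain ⟨t, ht, hmax⟩ := exists_adj_second hV (l := χ + μ • u) hz (fun v hv => by
    have := hall v hv
    simp only [LinearMap.add_apply, LinearMap.smul_apply, smul_eq_mul]
    linarith) ⟨w, hw, hwz⟩
  refine ⟨t, ht.symm, ?_⟩
  have h1 := hmax w hw hwz
  simp only [LinearMap.add_apply, LinearMap.smul_apply, smul_eq_mul] at h1
  have h2 := hχ t ht.2.1 ht.2.2.1.symm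
  by_contra hc
  have := mul_le_mul_of_nonneg_left (not_lt.1 hc) hμ
  linarith

lemma CP.sub (hV : CP V) {T : Finset E} (h : T ⊆ V) : CP T := fun v hv => by
  obtain ⟨l, hl⟩ := hV v (h hv)
  exact ⟨l, fun w hw => hl w (h hw)⟩

/-- three highest points, the first strictly, give an edge of the next set -/
lemma adj_mid {a z t : E} (haz : Adj V a z) (hat : Adj V a t) (hzt : z ≠ t) (l : L)
    (h1 : l z < l a) (h2 : l t < l a)
    (h3 : ∀ c ∈ V, c ≠ a → c ≠ z → c ≠ t → l c < l z ∧ l c < l t) :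
    Adj (nxt V) (midpoint ℝ a z) (midpoint ℝ a t) := by
  refine ⟨haz.mid_mem, hat.mid_mem, Asm.mid_ne hzt, l, fun q hq n1 n2 => ?_⟩
  obtain ⟨x, y, hxy, rfl⟩ := mem_nxt.1 hq
  simp only [map_mid]
  by_cases hx : x = a
  · subst hx
    have := h3 y hxy.2.1 hxy.2.2.1.symm (fun e => n1 (by rw [e])) (fun e => n2 (by rw [e]))
    constructor <;> linarith [this.1, this.2]
  by_cases hy : y = a
  · subst hy
    have := h3 x hxy.1 hx (fun e => n1 (by rw [e, midpoint_comm]))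
      (fun e => n2 (by rw [e, midpoint_comm]))
    constructor <;> linarith [this.1, this.2]
  have k : ∀ w ∈ V, w ≠ a → w = z ∨ w = t ∨ (l w < l z ∧ l w < l t) := fun w hw n => by
    by_cases e1 : w = z
    · exact Or.inl e1
    by_cases e2 : w = t
    · exact Or.inr (Or.inl e2)
    exact Or.inr (Or.inr (h3 w hw n e1 e2))
  have hne := hxy.2.2.1
  have : l x + l y ≤ l z + l t := by
    rcases k x hxy.1 hx with e1 | e1 | e1 <;> rcases k y hxy.2.1 hy with e2 | e2 | e2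
    all_goals first
      | exact absurd (e1.trans e2.symm) hne
      | (subst_vars; linarith [e1.1, e1.2, e2.1, e2.2])
      | (subst_vars; linarith [e1.1, e1.2])
      | (subst_vars; linarith [e2.1, e2.2])
      | (subst_vars; linarith)
  constructor <;> linarith

/-- link lemma -/
lemma link_up (hV : CP V) (u : L) {a z c : E} (h : Adj V a z) (hle : u z ≤ u a) (hc : c ∈ V)
    (hca : c ≠ a) (hlt : u z < u c) :
    ∃ w, Adj V a w ∧ u z < u w ∧ Adj (nxt V) (midpoint ℝ a z) (midpoint ℝ a w) := by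
  classical
  obtain ⟨l1, e1, k1⟩ := h.strong hV
  obtain ⟨χ, hχ⟩ := hV a h.1
  obtain ⟨ε, hε, hp⟩ := perturb V l1 χ
  set l0 := l1 + ε • χ with hl0
  have p1 : l0 z < l0 a := by
    have := mul_lt_mul_of_pos_left (hχ z h.2.1 h.2.2.1.symm) hε
    simp only [hl0, LinearMap.add_apply, LinearMap.smul_apply, smul_eq_mul]
    linarith
  have p2 : ∀ w ∈ V, w ≠ a → w ≠ z → l0 w < l0 z := fun w hw n1 n2 =>
    hp w hw z h.2.1 (e1 ▸ k1 w hw n1 n2)
  have hz : z ∈ V.erase a := Finset.mem_erase.2 ⟨h.2.2.1.symm, h.2.1⟩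
  obtain ⟨μ, hμ, ⟨w, hw, g0, e⟩, hall⟩ := first_tie (V.erase a) (fun w => l0 z - l0 w)
    (fun w => u w - u z) (fun w hw => by
      rw [Finset.mem_erase] at hw
      by_cases e : w = z
      · simp [e]
      · exact (sub_pos.2 (p2 w hw.2 hw.1 e)).le) ⟨c, Finset.mem_erase.2 ⟨hca, hc⟩, sub_pos.2 hlt⟩
  have hwz : w ≠ z := fun e => by simp [e] at g0
  set l := l0 + μ • u with hl
  have ev : ∀ v, l v = l0 v + μ * u v := fun v => rfl
  have q1 : ∀ v ∈ V.erase a, l v ≤ l z := fun v hv => by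
    have := hall v hv
    rw [ev, ev]; linarith
  have q2 : l z < l a := by
    have := mul_le_mul_of_nonneg_left hle hμ
    rw [ev, ev]; linarith
  obtain ⟨t, ht, hmax⟩ := exists_adj_second (CP.sub hV (Finset.erase_subset a V)) hz q1
    ⟨w, hw, hwz⟩
  have et : l t = l z := le_antisymm (q1 t ht.2.1) (by
    have := hmax w hw hwz
    rw [ev w] at this; rw [ev z]; linarith)
  have ht' := Finset.mem_erase.1 ht.2.1
  have q3 : ∀ v ∈ V, v ≠ a → l v ≤ l t := fun v hv n => et ▸ q1 v (Finset.mem_erase.2 ⟨n, hv⟩)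
  have hat : Adj V a t := adj_of_second hV h.1 ht'.2 ht'.1
    (fun v hv n => by linarith [q3 v hv n]) q3
  refine ⟨t, hat, ?_, ?_⟩
  · have h2 := p2 t ht'.2 ht'.1 ht.2.2.1.symm
    by_contra hc
    have := mul_le_mul_of_nonneg_left (not_lt.1 hc) hμ
    rw [ev, ev] at et
    linarith
  · obtain ⟨-, -, hzt, ψ, hψ⟩ := ht
    obtain ⟨δ, hδ, hq⟩ := perturb V l ψ
    refine adj_mid h hat hzt (l + δ • ψ) (hq z h.2.1 a h.1 q2)
      (hq t ht'.2 a h.1 (et ▸ q2)) fun v hv n1 n2 n3 => ?_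
    rcases (q3 v hv n1).lt_or_eq with r | r
    · exact ⟨hq v hv z h.2.1 (et ▸ r), hq v hv t ht'.2 r⟩
    · have r1 := hψ v (Finset.mem_erase.2 ⟨n1, hv⟩) n2 n3
      have r2 := mul_lt_mul_of_pos_left r1.1 hδ
      have r3 := mul_lt_mul_of_pos_left r1.2 hδ
      simp only [LinearMap.add_apply, LinearMap.smul_apply, smul_eq_mul]
      constructor <;> linarith

/-- all highest points of the next set are midpoints of edges at `a` -/
def Cap (V : Finset E) (φ : L) (m : ℝ) (a : E) : Prop :=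
  ∀ x ∈ nxt V, φ x = m → ∃ z, Adj V a z ∧ x = midpoint ℝ a z

/-- an edge between two midpoints at `a` lies on a face made of midpoints at `a` -/
lemma fcap (hV : CP V) (hS : Sp V) {a x y : E} (hx : Adj V a x) (hy : Adj V a y)
    (h : Adj (nxt V) (midpoint ℝ a x) (midpoint ℝ a y)) :
    ∃ (φ : L) (m : ℝ), φ ≠ 0 ∧ Top3 (nxt V) φ m ∧ φ (midpoint ℝ a x) = m ∧ φ (midpoint ℝ a y) = m ∧
      Cap V φ m a := by
  classical
  have hxy : x ≠ y := fun e => h.2.2.1 (by rw [e])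
  obtain ⟨l, e1, k1⟩ := h.strong (CP.nxt V)
  have top : ∀ q ∈ nxt V, l q ≤ l (midpoint ℝ a x) := fun q hq => by
    by_cases n1 : q = midpoint ℝ a x
    · rw [n1]
    by_cases n2 : q = midpoint ℝ a y
    · rw [n2, e1]
    exact (k1 q hq n1 n2).le
  have exy : l x = l y := by rw [map_mid, map_mid] at e1; linarith
  have p1 : ∀ c ∈ V, c ≠ a → l c ≤ l x := fun c hc n => by
    have := pair_le_of_nxt_top hV top hx.1 hc n.symm
    rw [map_mid] at this; linarith
  have p2 : l x < l a := by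
    have h1 := pair_le_of_nxt_top hV top hx.2.1 hy.2.1 hxy
    rw [map_mid] at h1
    refine lt_of_le_of_ne (by linarith) fun e => ?_
    have h3 : Top3 V l (l a) := ⟨fun v hv => by
      by_cases n : v = a
      · rw [n]
      · exact e ▸ p1 v hv n, a, hx.1, x, hx.2.1, y, hy.2.1, hx.2.2.1, hy.2.2.1, hxy, rfl, e,
      exy ▸ e⟩
    obtain ⟨-, p, hp, q, hq, r, hr, n1, n2, n3, ep, eq, er⟩ := h3.nxt hV
    have key : ∀ w ∈ nxt V, l w = l a → w = midpoint ℝ a x ∨ w = midpoint ℝ a y :=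
      fun w hw ew => by
        by_contra hc
        push Not at hc
        have := k1 w hw hc.1 hc.2
        rw [map_mid] at this
        linarith
    have := key p hp ep
    have := key q hq eq
    have := key r hr er
    grind
  obtain ⟨ω, hω, hpos, w1, w2⟩ : ∃ ω : L, (∃ v ∈ V, ω a < ω v) ∧ True ∧ ω x = ω a ∧ ω y = ω a := by
    obtain ⟨ω, h1, h2⟩ := exists_vanish {x - a, y - a} Finset.card_le_two
    have w1 := h2 (x - a) (by simp)
    have w2 := h2 (y - a) (by simp)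
    rw [map_sub, sub_eq_zero] at w1 w2
    have : ∃ v ∈ V, ω v ≠ ω a := by
      by_contra hcon
      push Not at hcon
      exact h1 (hS ω fun x hx y hy => (hcon x hx).trans (hcon y hy).symm)
    obtain ⟨v, hv, hne⟩ := this
    rcases lt_or_gt_of_ne hne with k | k
    · exact ⟨-ω, ⟨v, hv, by simpa using k⟩, trivial, by simpa using w1, by simpa using w2⟩
    · exact ⟨ω, ⟨v, hv, k⟩, trivial, w1, w2⟩
  obtain ⟨v0, hv0, g0⟩ := hω
  obtain ⟨μ, hμ, ⟨w, hw, g1, e⟩, hall⟩ := first_tie (V.erase a) (fun w => l x - l w)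
    (fun w => ω w - ω a) (fun w hw => by
      rw [Finset.mem_erase] at hw
      exact sub_nonneg.2 (p1 w hw.2 hw.1))
    ⟨v0, Finset.mem_erase.2 ⟨fun e => by simp [e] at g0, hv0⟩, sub_pos.2 g0⟩
  rw [Finset.mem_erase] at hw
  set φ := l + μ • ω with hφ
  have ev : ∀ v, φ v = l v + μ * ω v := fun v => rfl
  have q1 : ∀ v ∈ V, v ≠ a → φ v ≤ φ x := fun v hv n => by
    have := hall v (Finset.mem_erase.2 ⟨n, hv⟩)
    rw [ev, ev, w1]; linarith
  have q2 : φ x < φ a := by rw [ev, ev, w1]; linarith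
  have q3 : φ y = φ x := by rw [ev, ev, w1, w2, exy]
  have q4 : φ w = φ x := by rw [ev, ev, w1]; linarith
  have haw : Adj V a w := adj_of_second hV hx.1 hw.2 hw.1
    (fun v hv n => by linarith [q1 v hv n]) (fun v hv n => q4 ▸ q1 v hv n)
  have nx : x ≠ w := fun e => by rw [← e, w1] at g1; simp at g1
  have ny : y ≠ w := fun e => by rw [← e, w2] at g1; simp at g1
  refine ⟨φ, (φ a + φ x) / 2, fun e => by simp [e] at q2, ⟨fun q hq => ?_, _, hx.mid_mem, _,
    hy.mid_mem, _, haw.mid_mem, Asm.mid_ne hxy, Asm.mid_ne nx, Asm.mid_ne ny, map_mid _ _ _,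
    by rw [map_mid, q3], by rw [map_mid, q4]⟩, map_mid _ _ _, by rw [map_mid, q3],
    fun q hq he => ?_⟩
  · obtain ⟨b, c, hbc, rfl⟩ := mem_nxt.1 hq
    have := pair_le_of_top (V := V) (l := φ) (s := a) (t := x) (fun v hv => by
      by_cases n : v = a
      · rw [n]
      · linarith [q1 v hv n]) q1 hbc.1 hbc.2.1 hbc.2.2.1
    rw [map_mid]; linarith
  · obtain ⟨b, c, hbc, rfl⟩ := mem_nxt.1 hq
    rw [map_mid] at he
    by_cases hb : b = a
    · subst hb
      exact ⟨c, hbc, rfl⟩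
    · by_cases hc : c = a
      · subst hc
        exact ⟨b, hbc.symm, midpoint_comm _ _⟩
      · linarith [q1 b hbc.1 hb, q1 c hbc.2.1 hc]

/-- a functional that is level on two points and larger at a third -/
lemma level (hV : CP V) {a b c : E} (ha : a ∈ V) (hb : b ∈ V) (hc : c ∈ V) (hab : a ≠ b)
    (hac : a ≠ c) (hbc : b ≠ c) : ∃ ψ : L, ψ b = ψ c ∧ ψ b < ψ a := by
  obtain ⟨χ, hχ⟩ := hV a ha
  have key : ∀ b c : E, b ∈ V → c ∈ V → a ≠ b → a ≠ c → b ≠ c → χ c ≤ χ b →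
      ∃ ψ : L, ψ b = ψ c ∧ ψ b < ψ a := by
    intro b c hb hc hab hac hbc hle
    obtain ⟨η, hη⟩ := hV b hb
    have h1 := hχ b hb hab.symm
    have h2 := hη a ha hab
    have h3 := hη c hc hbc.symm
    refine ⟨(η b - η c) • χ - (χ b - χ c) • η, ?_, ?_⟩
    · simp only [LinearMap.sub_apply, LinearMap.smul_apply, smul_eq_mul]; ring
    · simp only [LinearMap.sub_apply, LinearMap.smul_apply, smul_eq_mul]
      nlinarith [mul_pos (sub_pos.2 h3) (sub_pos.2 h1),
        mul_nonneg (sub_nonneg.2 hle) (sub_pos.2 h2).le]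
  rcases le_total (χ c) (χ b) with h | h
  · exact key b c hb hc hab hac hbc h
  · obtain ⟨ψ, h1, h2⟩ := key c b hc hb hac hab hbc.symm h
    exact ⟨ψ, h1.symm, h1 ▸ h2⟩

/-- a face continues beyond each of its edges -/
lemma fnext (hV : CP V) {φ : L} {m : ℝ} (h : Top3 V φ m) {v f : E} (hvf : Adj V v f)
    (hv : φ v = m) (hf : φ f = m) : ∃ w, Adj V v w ∧ φ w = m ∧ w ≠ f := by
  classical
  obtain ⟨hle, p, hp, q, hq, r, hr, n1, n2, n3, e1, e2, e3⟩ := h
  obtain ⟨c, hc, ec, k1, k2⟩ : ∃ c ∈ V, φ c = m ∧ c ≠ v ∧ c ≠ f := by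
    by_cases h1 : p ≠ v ∧ p ≠ f
    · exact ⟨p, hp, e1, h1⟩
    by_cases h2 : q ≠ v ∧ q ≠ f
    · exact ⟨q, hq, e2, h2⟩
    refine ⟨r, hr, e3, ?_, ?_⟩ <;> rintro rfl <;> grind
  obtain ⟨ψ, f1, f2⟩ := level hV hc hvf.1 hvf.2.1 k1 k2 hvf.2.2.1
  obtain ⟨w, ⟨hw, -, hwv, l, hl⟩, g⟩ := up_nbr
    (CP.sub hV (Finset.filter_subset (fun x => φ x = m) V)) ψ
    (Finset.mem_filter.2 ⟨hvf.1, hv⟩) (Finset.mem_filter.2 ⟨hc, ec⟩) f2
  rw [Finset.mem_filter] at hw
  refine ⟨w, ?_, hw.2, fun e => by rw [e, f1] at g; exact lt_irrefl _ g⟩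
  obtain ⟨ε, hε, hpt⟩ := perturb V φ l
  refine ⟨hvf.1, hw.1, hwv.symm, φ + ε • l, fun x hx m1 m2 => ?_⟩
  rcases (hle x hx).lt_or_eq with s | s
  · exact ⟨hpt x hx v hvf.1 (hv ▸ s), hpt x hx w hw.1 (hw.2 ▸ s)⟩
  · have s1 := hl x (Finset.mem_filter.2 ⟨hx, s⟩) m2 m1
    have s2 := mul_lt_mul_of_pos_left s1.1 hε
    have s3 := mul_lt_mul_of_pos_left s1.2 hε
    simp only [LinearMap.add_apply, LinearMap.smul_apply, smul_eq_mul]
    rw [s, hv, hw.2]
    constructor <;> linarith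

/-- three vectors in a plane are dependent -/
lemma planar {φ : L} (h0 : φ ≠ 0) {p q r : E} (hp : φ p = 0) (hq : φ q = 0) (hr : φ r = 0) :
    ∃ x y z : ℝ, x • p + y • q + z • r = 0 ∧ (x ≠ 0 ∨ y ≠ 0 ∨ z ≠ 0) := by
  have h : ¬ LinearIndependent ℝ ![p, q, r] := fun hi => by
    have h1 := hi.span_eq_top_of_card_eq_finrank' (by simp)
    refine h0 (LinearMap.ext_on_range h1 fun i => ?_)
    fin_cases i <;> simpa
  obtain ⟨g, h1, i, h2⟩ := Fintype.not_linearIndependent_iff.1 h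
  refine ⟨g 0, g 1, g 2, by simpa [Fin.sum_univ_three] using h1, ?_⟩
  fin_cases i
  · exact Or.inl h2
  · exact Or.inr (Or.inl h2)
  · exact Or.inr (Or.inr h2)

/-- two edges of a face at a vertex give an edge of the next set -/
lemma flink (hV : CP V) (hS : Sp V) {φ : L} {m : ℝ} (h0 : φ ≠ 0) (h : Top3 V φ m) {a b c : E}
    (hb : Adj V a b)
    (hc : Adj V a c) (hbc : b ≠ c) (ea : φ a = m) (eb : φ b = m) (ec : φ c = m) :
    Adj (nxt V) (midpoint ℝ a b) (midpoint ℝ a c) := by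
  obtain ⟨ψ, f1, f2⟩ := level hV hb.1 hb.2.1 hc.2.1 hb.2.2.1 hc.2.2.1 hbc
  have key : ∀ w ∈ V, w ≠ a → w ≠ b → w ≠ c → φ w = m → ψ w < ψ b := by
    intro w hw n1 n2 n3 ew
    obtain ⟨x, y, z, e, hne⟩ := planar h0 (p := b - a) (q := c - a) (r := w - a)
      (by rw [map_sub, ea, eb, sub_self]) (by rw [map_sub, ea, ec, sub_self])
      (by rw [map_sub, ea, ew, sub_self])
    have hz : z ≠ 0 := fun hz => by
      have := three_indep hV hb.1 hb.2.1 hc.2.1 hb.2.2.1 hc.2.2.1 hbc (x := -(x + y)) (y := x)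
        (z := y) (by ring) (by rw [← e, hz]; module)
      simp [this.2.1, this.2.2, hz] at hne
    have ap : ∀ l : L, l w - l a = (-x / z) * (l b - l a) + (-y / z) * (l c - l a) := fun l => by
      have := congrArg l e
      simp only [map_add, map_smul, map_sub, smul_eq_mul, map_zero] at this
      field_simp
      linarith
    generalize -x / z = β, -y / z = γ at ap
    obtain ⟨l1, a1, b1⟩ := hb.strong hV
    obtain ⟨l2, a2, b2⟩ := hc.strong hV
    obtain ⟨χ, hχ⟩ := hV w hw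
    have hγ : 0 < γ := by
      have k1 := b1 w hw n1 n2
      have k2 := b1 c hc.2.1 hc.2.2.1.symm hbc.symm
      have k3 := ap l1
      rw [← a1] at k3
      by_contra hn
      nlinarith [mul_nonneg (neg_nonneg.2 (not_lt.1 hn)) (sub_pos.2 k2).le]
    have hβ : 0 < β := by
      have k1 := b2 w hw n1 n3
      have k2 := b2 b hb.2.1 hb.2.2.1.symm hbc
      have k3 := ap l2
      rw [← a2] at k3
      by_contra hn
      nlinarith [mul_nonneg (neg_nonneg.2 (not_lt.1 hn)) (sub_pos.2 k2).le]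
    have h1 : 1 < β + γ := by
      by_contra hn
      have k1 := mul_pos hβ (sub_pos.2 (hχ b hb.2.1 n2.symm))
      have k2 := mul_pos hγ (sub_pos.2 (hχ c hc.2.1 n3.symm))
      have k3 := mul_nonneg (sub_nonneg.2 (not_lt.1 hn)) (sub_pos.2 (hχ a hb.1 n1.symm)).le
      have k4 := ap χ
      nlinarith
    have k5 := ap ψ
    rw [← f1] at k5
    nlinarith [mul_pos (sub_pos.2 h1) (sub_pos.2 f2)]
  obtain ⟨ε, hε, hp⟩ := perturb V φ ψ
  have k1 := mul_lt_mul_of_pos_left f2 hε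
  refine adj_mid hb hc hbc (φ + ε • ψ) ?_ ?_ fun w hw n1 n2 n3 => ?_
  · simp only [LinearMap.add_apply, LinearMap.smul_apply, smul_eq_mul]; linarith
  · simp only [LinearMap.add_apply, LinearMap.smul_apply, smul_eq_mul]; rw [← f1]; linarith
  rcases (h.1 w hw).lt_or_eq with s | s
  · exact ⟨hp w hw b hb.2.1 (eb ▸ s), hp w hw c hc.2.1 (ec ▸ s)⟩
  · have k2 := mul_lt_mul_of_pos_left (key w hw n1 n2 n3 s) hε
    simp only [LinearMap.add_apply, LinearMap.smul_apply, smul_eq_mul]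
    rw [← f1]
    constructor <;> linarith

end General

end Pool.Agent.Lib.MP_7fdcdd_gt.BB
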