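import Pool.Agent.Lib.MP_7fdcdd_gt.BB.Mono
import Pool.Agent.Lib.MP_7fdcdd_gt.BB.Chk2

/-! Trees with holes: a piece of the certificate may refer to pieces that are already checked. -/

namespace Pool.Agent.Lib.MP_7fdcdd_gt.BB

lemma Pa.eq_of_eqb : ∀ {a a' : Pa}, Pa.eqb a a' = true → a = a'
  | .o, .o, _ => rfl
  | .u a k x, .u a' l y, h => by
    simp only [Pa.eqb, Bool.and_eq_true, Nat.beq_eq] at h
    rw [h.1.1, h.1.2, Pa.eq_of_eqb h.2]
  | .b a k x, .b a' l y, h => by
    simp only [Pa.eqb, Bool.and_eq_true, Nat.beq_eq] at h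
    rw [h.1.1, h.1.2, Pa.eq_of_eqb h.2]
  | .o, .u .., h => by simp [Pa.eqb] at h
  | .o, .b .., h => by simp [Pa.eqb] at h
  | .u .., .o, h => by simp [Pa.eqb] at h
  | .u .., .b .., h => by simp [Pa.eqb] at h
  | .b .., .o, h => by simp [Pa.eqb] at h
  | .b .., .u .., h => by simp [Pa.eqb] at h

def All (P : Pa → Prop) : List Pa → Prop
  | [] => True
  | a :: l => P a ∧ All P l

lemma All.of_hol {P : Pa → Prop} : ∀ {H : List Pa} {n : ℕ} {a : Pa}, All P H → hol H n a = true →
    P a
  | [], _, _, _, e => by simp [hol] at e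
  | x :: l, n, a, h, e => by
    unfold hol at e
    cases hn : Nat.beq n 0
    · rw [hn] at e
      exact All.of_hol h.2 e
    · rw [hn] at e
      exact Pa.eq_of_eqb e ▸ h.1

variable {M : Mdl} {sec : Bool} {p0 p q : ℕ} {H : List Pa}

theorem chk2_sound (hpq : p0 ≤ q) (hm : M.Goal sec p0 q → M.Goal sec p q)
    (hH : All (Cl sec p q) H) (t : Tr) {r : Pa} {s : St} (hr : run r = some s) (h : Good M s)
    (e : chk2 (gi sec) p0 q H t r s = true) : M.Goal sec p q := by
  induction t generalizing r s with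
  | l a b c => exact hm (leaf_sound h hpq e)
  | c a b =>
    unfold chk2 at e
    cases hb : Nat.ble 256 b
    · rw [hb] at e
      exact hm (chk_sound hpq (.c a b) h e)
    · rw [hb] at e
      obtain ⟨s', e1, h1⟩ := hH.of_hol e
      rw [hr] at e1
      obtain rfl := Option.some.inj e1
      exact h1 M h
  | u k x t ih =>
    unfold chk2 at e
    split at e
    · cases e
    · rename_i s' e1
      exact ih (by simp only [run, hr, e1]) (steps_sound h e1) e
  | b c t0 t1 ih0 ih1 =>
    simp only [chk2, Bool.and_eq_true] at e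
    rcases br_two h e.1.1.1 e.1.1.2 with g | g
    exacts [ih0 (by simp only [run, hr]) g e.1.2, ih1 (by simp only [run, hr]) g e.2]
  | d c t0 t1 t2 ih0 ih1 ih2 =>
    simp only [chk2, Bool.and_eq_true, Nat.ble_eq] at e
    rcases br_three h e.1.1.1.1 e.1.1.1.2 with g | g | g
    exacts [ih0 (by simp only [run, hr]) g e.1.1.2, ih1 (by simp only [run, hr]) g e.1.2,
      ih2 (by simp only [run, hr]) g e.2]

theorem Cl.hole (hpq : Nat.ble p0 q = true) (hm : ∀ M : Mdl, M.Goal sec p0 q → M.Goal sec p q)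
    {a : Pa} {t : Tr} (e : chkH (gi sec) p0 q H a t = true) (hH : All (Cl sec p q) H) :
    Cl sec p q a := by
  unfold chkH at e
  split at e
  · cases e
  · rename_i s e1
    exact ⟨s, e1, fun M h => chk2_sound (Nat.le_of_ble_eq_true hpq) (hm M) hH t e1 h e⟩

/-- same parameter -/
theorem Cl.S (hpq : Nat.ble p q = true) {a : Pa} {t : Tr}
    (e : chkH (gi sec) p q H a t = true) (hH : All (Cl sec p q) H) : Cl sec p q a :=
  Cl.hole hpq (fun _ h => h) e hH

/-- smaller parameter in the leaves, first goal -/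
theorem Cl.R (hpq : Nat.ble p0 q = true) (hp : Nat.ble p0 p = true) {a : Pa} {t : Tr}
    (e : chkH (gi false) p0 q H a t = true) (hH : All (Cl false p q) H) : Cl false p q a :=
  Cl.hole hpq (fun M h => M.goal_mono (Nat.le_of_ble_eq_true hp) h) e hH

end Pool.Agent.Lib.MP_7fdcdd_gt.BB
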