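import Pool.Agent.Lib.MP_7fdcdd_gt.BB.Sem

/-! Soundness of the comparison rules. -/

namespace Pool.Agent.Lib.MP_7fdcdd_gt.BB

open H77

variable {M : Mdl} {s : St} {ρ : ℕ → E} {x : ℕ → ℝ} {φ : ℕ → L} {mm : ℕ → ℝ}

lemma cond_cases {α : Type} {b : Bool} {u v r : α} (e : cond b u v = r) :
    (b = true ∧ u = r) ∨ v = r := by
  cases b
  · exact Or.inr e
  · exact Or.inl ⟨rfl, e⟩

lemma cond_some {α : Type} {b : Bool} {u : Option α} {r : α} (e : cond b u none = some r) :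
    b = true ∧ u = some r := by
  rcases cond_cases e with e | e
  · exact e
  · cases e

lemma mid_ne {a b c : E} (h : b ≠ c) : midpoint ℝ a b ≠ midpoint ℝ a c := by
  intro e
  have := (midpoint_eq_midpoint_iff_vsub_eq_vsub ℝ).1 e
  rw [vsub_self, eq_comm, vsub_eq_zero_iff_eq] at this
  exact h this.symm

/-- a midpoint other than the top point is not above the second point -/
lemma Mdl.sec_le (M : Mdl) {k : ℕ} (hk : k + 1 ≤ 12) {a b c : E} (h : Adj (lv M.V k) a b)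
    (h1 : a ≠ M.s k ∨ b ≠ M.t k) (h2 : a ≠ M.t k ∨ b ≠ M.s k) {p : E}
    (e : M.t (k + 1) = midpoint ℝ p c) : M.Z k p + M.Z k c ≤ M.Z k a + M.Z k b := by
  have := M.pair_sec hk h h1 h2
  rwa [e, M.Z_mid] at this

theorem leR_sound (h : Sem M s ρ x φ mm) {α : Type} (c : ℕ) (no : α) (f : ℕ → ℕ → α) :
    leR s c no f = no ∨ ∃ a b k p q, At s ρ a k p ∧ At s ρ b k q ∧ M.Z k p ≤ M.Z k q ∧
      leR s c no f = f a b := by
  generalize hr : leR s c no f = r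
  unfold leR at hr
  have x1 := fld_lt c 1
  have x2 := fld_lt c 2
  have x3 := fld_lt c 3
  generalize fld c 1 = a at *
  generalize fld c 2 = b at *
  generalize fld c 3 = d at *
  simp only [] at hr
  split at hr
  all_goals try (rcases cond_cases hr with ⟨e, rfl⟩ | rfl; swap; exact Or.inl rfl)
  all_goals try simp only [Bool.and_eq_true, Bool.or_eq_true, Nat.beq_eq, Nat.ble_eq] at e
  · obtain ⟨k, p, q, h1, h2, h3⟩ := h.le a b x2 e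
    exact Or.inr ⟨_, _, k, p, q, h1, h2, h3, rfl⟩
  · have ha := (isV_iff.1 e.1).at ρ
    exact Or.inr ⟨_, _, _, _, _, h.top ha, ha, (M.Z_le_iff _ _ _).2 (M.hs' _ _ (h.mem ha)), rfl⟩
  · have ht : s.top a < 256 := by rw [top_eq]; omega
    have ha := (h.isNe ht e.2).1.at ρ
    exact Or.inr ⟨_, _, _, _, _, h.sec ha, ha,
      (M.Z_le_iff _ _ _).2 (M.ht' _ _ (h.mem ha) (h.isNe' ha (h.top ha) e.2)), rfl⟩
  · obtain ⟨⟨⟨e1, e2⟩, e3⟩, e4⟩ := e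
    obtain ⟨k, p, q, h1, h2, h3⟩ := h.isAdj x3 e1
    obtain ⟨j, p', y, g1, g2, -, g4⟩ := h.isMid e3
    obtain ⟨rfl, rfl⟩ := h1.uniq g1
    have ht := ((h.sec2 h1 e2).uniq g4).2
    have hk : k + 1 ≤ 12 := by have := h.lev h1; omega
    refine Or.inr ⟨_, _, k, y, q, g2, h2, ?_, rfl⟩
    rcases e4 with ⟨e4, e5⟩ | ⟨e4, e5⟩
    · have hp : p = M.s k := by
        have := h.top h1
        rw [← e4] at this
        exact (h1.uniq this).2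
      have := M.sec_le hk h3 (Or.inr (h.isNe' h2 (h.sec h1) e5))
        (Or.inl (hp ▸ (M.hts k).symm)) ht
      linarith
    · have hp : p = M.t k := by
        have := h.sec h1
        rw [← e4] at this
        exact (h1.uniq this).2
      have := M.sec_le hk h3 (Or.inl (hp ▸ M.hts k)) (Or.inr (h.isNe' h2 (h.top h1) e5)) ht
      linarith
  · obtain ⟨⟨⟨⟨e1, e2⟩, e3⟩, e4⟩, e5⟩ := e
    obtain ⟨k, p, y, g1, g2, -, g4⟩ := h.isMid e3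
    obtain ⟨j, p', q, h1, h2, h3⟩ := h.isAdj x3 e1
    obtain ⟨rfl, rfl⟩ := (h.top g1).uniq h1
    have ht := ((h.sec2 g1 e2).uniq g4).2
    have hk : k + 1 ≤ 12 := by have := h.lev h1; omega
    have hp : p = M.t k := by
      have := h.sec g1
      rw [← e4] at this
      exact (g1.uniq this).2
    refine Or.inr ⟨_, _, k, y, q, g2, h2, ?_, rfl⟩
    have h5 := M.sec_le hk h3 (Or.inr (hp ▸ h.isNe' h2 g1 e5)) (Or.inl (M.hts k).symm) ht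
    have h6 := (M.Z_le_iff k _ _).2 (M.hs' k _ (h.mem g1))
    linarith
  · obtain ⟨k, p, q, h1, h2, h3⟩ := h.le a b x2 e.1
    obtain ⟨y, h4, h5⟩ := h.isLe h2 x3 e.2
    exact Or.inr ⟨_, _, k, p, y, h1, h4, h3.trans h5, rfl⟩
  · obtain ⟨k, p, q, h1, h2, h3⟩ := h.wit a b x2 e.1
    obtain ⟨j, p', y, h4, h5, h6⟩ := h.isAdj x3 e.2
    obtain ⟨rfl, rfl⟩ := h1.uniq h4
    exact Or.inr ⟨_, _, k, y, q, h5, h2, (M.Z_le_iff _ _ _).2 (h3 y h6), rfl⟩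
  · obtain ⟨⟨⟨e1, e2⟩, e3⟩, e4⟩ := e
    have hb := (h.isNe (fld_lt _ _) e2).1.at ρ
    rcases e1 with ⟨e1, e5⟩ | ⟨e1, e5⟩
    · obtain ⟨⟨k, p1, p2, p3, p4, p5, g1, g2, g3, g4, g5, g6, -⟩, e6⟩ := h.isE e1
      obtain ⟨j, p', y, h4, h5, h6⟩ := h.isAdj x2 e5
      obtain ⟨rfl, rfl⟩ := g1.uniq h4
      exact Or.inr ⟨_, _, k, p2, y, g2, h5, (M.Z_le_iff _ _ _).2 (g6 e6 y h6 (h.isNe' h5 g3 e2)
        (h.isNe' h5 g4 e3) (h.isNe' h5 g5 e4)), rfl⟩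
    · obtain ⟨⟨k, p1, p2, p3, p4, p5, g1, g2, g3, g4, g5, -, g6, -⟩, e6⟩ := h.isE e1
      rw [e5, g2.2.1] at hb
      exact Or.inr ⟨_, _, k, p2, _, g2, hb, (M.Z_le_iff _ _ _).2 (g6 e6 _ (h.mem hb)
        (h.isNe' hb g3 e2) (h.isNe' hb g4 e3) (h.isNe' hb g5 e4)), rfl⟩
  · obtain ⟨⟨e1, e2⟩, e3⟩ := e
    obtain ⟨k, p, q, g1, g2, -, g4⟩ := h.isK1 e1
    obtain ⟨j, p', q', h1, h2, -, h4⟩ := h.isK1 e2
    rcases e3 with ⟨e3, e4⟩ | ⟨e3, e4⟩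
    · obtain ⟨y, h5, h6⟩ := h.isLe g1 (fld_lt _ _) e3
      obtain ⟨z, h7, h8⟩ := h.isLe g2 (fld_lt _ _) e4
      obtain ⟨rfl, rfl⟩ := h5.uniq h1
      obtain ⟨-, rfl⟩ := h7.uniq h2
      exact Or.inr ⟨_, _, _, _, _, g4, h4, by rw [M.Z_mid, M.Z_mid]; linarith, rfl⟩
    · obtain ⟨y, h5, h6⟩ := h.isLe g1 (fld_lt _ _) e3
      obtain ⟨z, h7, h8⟩ := h.isLe g2 (fld_lt _ _) e4
      obtain ⟨rfl, rfl⟩ := h5.uniq h2
      obtain ⟨-, rfl⟩ := h7.uniq h1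
      exact Or.inr ⟨_, _, _, _, _, g4, h4, by rw [M.Z_mid, M.Z_mid]; linarith, rfl⟩
  · obtain ⟨⟨e1, e2⟩, e3⟩ := e
    obtain ⟨-, h1, h2⟩ := h.on 0 b x2 e2
    have hb := h1.at ρ
    rw [e3] at hb
    rw [h.f0.1, h.f0.2] at h2
    exact Or.inr ⟨_, _, 0, _, _, h.isEq' h.rx e1, hb,
      (M.Z_le_iff _ _ _).2 (M.hx _ (h.mem hb) h2), rfl⟩
  · obtain ⟨⟨⟨⟨e1, e2⟩, e3⟩, e4⟩, e5⟩ := e
    obtain ⟨-, h1, h2⟩ := h.on 0 d x3 e3
    have hb := h1.at ρ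
    rw [e4] at hb
    rw [h.f0.1, h.f0.2] at h2
    exact Or.inr ⟨_, _, 0, _, _, h.isEq' h.ry e1, hb,
      (M.Z_le_iff _ _ _).2 (M.hy _ (h.mem hb) h2 (h.isNe' hb (h.isEq' h.rx e2) e5)), rfl⟩
  · obtain ⟨⟨e1, e2⟩, e3⟩ := e
    obtain ⟨-, h1, h2⟩ := h.on 0 a x1 e2
    have hb := h1.at ρ
    rw [e3] at hb
    rw [h.f0.1, h.f0.2] at h2
    exact Or.inr ⟨_, _, 0, _, _, hb, h.isEq' h.rw e1,
      (M.Z_le_iff _ _ _).2 (M.hw _ (h.mem hb) h2), rfl⟩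
  · exact Or.inl hr.symm

end Pool.Agent.Lib.MP_7fdcdd_gt.BB
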