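import Pool.Agent.Lib.MP_7fdcdd_gt.BB.LeR
import Pool.Agent.Lib.MP_7fdcdd_gt.BB.Acc

/-! Soundness of the leaves. -/

namespace Pool.Agent.Lib.MP_7fdcdd_gt.BB

open H77 Finset

variable {M : Mdl} {s : St} {ρ : ℕ → E} {x : ℕ → ℝ} {φ : ℕ → L} {mm : ℕ → ℝ}

/-- values of the digits -/
def XX (M : Mdl) (x : ℕ → ℝ) : ℕ → ℝ
  | 0 => M.W
  | 1 => M.D
  | j + 2 => x j

abbrev RepS (M : Mdl) (s : St) (x : ℕ → ℝ) (A : Acc) (g : ℝ) : Prop := Rep (s.n + 2) (XX M x) A g

variable {A : Acc} {g : ℝ}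

lemma RepS.pv (r : RepS M s x A g) {i : ℕ} (hi : i < s.n) (c : ℕ) :
    RepS M s x (A.pv i c) (g + c * x i) := Rep.p r (j := i + 2) (by omega) c

lemma RepS.qv (r : RepS M s x A g) {i : ℕ} (hi : i < s.n) (c : ℕ) :
    RepS M s x (A.qv i c) (g - c * x i) := Rep.q r (j := i + 2) (by omega) c

lemma RepS.pa (h : Sem M s ρ x φ mm) (r : RepS M s x A g) {i k : ℕ} {p : E} (hi : At s ρ i k p)
    (c : ℕ) : RepS M s x (A.pv i c) (g + c * M.Z k p) := h.val hi ▸ r.pv hi.1.1 c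

lemma RepS.qa (h : Sem M s ρ x φ mm) (r : RepS M s x A g) {i k : ℕ} {p : E} (hi : At s ρ i k p)
    (c : ℕ) : RepS M s x (A.qv i c) (g - c * M.Z k p) := h.val hi ▸ r.qv hi.1.1 c

lemma RepS.pW (r : RepS M s x A g) (c : ℕ) : RepS M s x (A.p 0 c) (g + c * M.W) :=
  Rep.p r (j := 0) (by omega) c

lemma RepS.qW (r : RepS M s x A g) (c : ℕ) : RepS M s x (A.q 0 c) (g - c * M.W) :=
  Rep.q r (j := 0) (by omega) c

lemma RepS.pD (r : RepS M s x A g) (c : ℕ) : RepS M s x (A.p 1 c) (g + c * M.D) :=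
  Rep.p r (j := 1) (by omega) c

lemma RepS.qD (r : RepS M s x A g) (c : ℕ) : RepS M s x (A.q 1 c) (g - c * M.D) :=
  Rep.q r (j := 1) (by omega) c

lemma gsum_rep (h : Sem M s ρ x φ mm) (o l : ℕ) {k : ℕ} (hk : k + o ≤ 12) (r : RepS M s x A g) :
    RepS M s x (gsum o l k A) (g - l * ∑ j ∈ range k,
      (j : ℝ) * (M.Z (j + o) (M.t (j + o)) - M.Z (j + o) (M.s (j + o)))) := by
  induction k generalizing A g with
  | zero => simpa [gsum] using r
  | succ k ih =>
    have := ih (by omega) ((r.pa h (h.rs (k + o) (by omega)) (k * l)).qa h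
      (h.rt (k + o) (by omega)) (k * l))
    rw [sum_range_succ]
    refine (congrArg _ ?_).mp this
    push_cast
    ring

lemma reach_rep (h : Sem M s ρ x φ mm) (r : RepS M s x A g) (l : ℕ) {k v w var : ℕ} (hk : k ≤ 11)
    (hv : v < s.n) (hw : w < s.n) (hvar : var = 0 ∨ 1 ≤ k) {a y : E} (ha : Adj (lv M.V k) a y)
    (h1 : M.Z k a ≤ x w) (h2 : x v = M.Z k y) : ∃ g' ≤ g, RepS M s x (reach A l k v w var) g' := by
  have hl : (0 : ℝ) ≤ l := Nat.cast_nonneg l
  unfold reach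
  cases e : Nat.beq var 0
  · obtain ⟨k, rfl⟩ : ∃ j, k = j + 1 := by
      rcases hvar with rfl | hvar
      · cases e
      · exact ⟨k - 1, by omega⟩
    refine ⟨_, ?_, gsum_rep h 1 l (k := k) (by omega) (((((((r.pv hv l).pa h (h.rt 0 (by omega))
      l).pa h (h.rs (k + 1) hk) (k * l)).qa h (h.rs (k + 1) hk) l).qW (2 * l))).qv hw (k * l))⟩
    have h3 := M.reach2 (k := k) (by omega) ha
    have h4 := mul_le_mul_of_nonneg_left h1 (Nat.cast_nonneg (α := ℝ) k)
    have h5 := mul_le_mul_of_nonneg_left h3 hl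
    have h6 := mul_le_mul_of_nonneg_left h4 hl
    rw [h2]
    push_cast
    nlinarith
  · refine ⟨_, ?_, gsum_rep h 0 l (k := k) (by omega) ((((((r.pv hv l).pa h (h.rs k hk)
      (k * l)).qa h (h.rs k hk) l).qW l)).qv hw (k * l))⟩
    have h3 := M.reach1 (k := k) (by omega) ha
    have h4 := mul_le_mul_of_nonneg_left h1 (Nat.cast_nonneg (α := ℝ) k)
    have h5 := mul_le_mul_of_nonneg_left h3 hl
    have h6 := mul_le_mul_of_nonneg_left h4 hl
    rw [h2]
    simp only [add_zero]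
    push_cast
    nlinarith

lemma cast_shl (l k : ℕ) : ((Nat.shiftLeft l k : ℕ) : ℝ) = l * 2 ^ k := by
  have : Nat.shiftLeft l k = l * 2 ^ k := Nat.shiftLeft_eq l k
  rw [this]; push_cast; ring

lemma Mdl.wall_le (M : Mdl) {k j : ℕ} {B : ℝ} (h : M.Wall k B) (hk : k ≤ j) :
    M.Wall j (2 ^ (j - k) * B) := by
  have := M.wall_up h (j - k)
  rwa [Nat.add_sub_cancel' hk] at this

lemma Mdl.wall_t (M : Mdl) {k : ℕ} {B : ℝ} (h : M.Wall k B) : M.Z k (M.t k) ≤ B :=
  M.wall_third h (a := M.s k) (b := M.s k) fun y hy h1 _ => M.ht' k y hy h1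

theorem row_sound (h : Sem M s ρ x φ mm) (r : RepS M s x A g) {c l : ℕ} {A' : Acc}
    (hr : row s c l A = some A') : ∃ g' ≤ g, RepS M s x A' g' := by
  have hl : (0 : ℝ) ≤ l := Nat.cast_nonneg l
  unfold row at hr
  have x1 := fld_lt c 1
  have x2 := fld_lt c 2
  have x3 := fld_lt c 3
  generalize fld c 1 = a at *
  generalize fld c 2 = b at *
  generalize fld c 3 = d at *
  simp only [] at hr
  split at hr
  case h_1 =>
    rcases leR_sound h (Nat.shiftRight c 8) none (fun a b => some ((A.pv a l).qv b l)) with e | e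
    · rw [e] at hr; cases hr
    · obtain ⟨a, b, k, p, q, h1, h2, h3, e⟩ := e
      rw [e] at hr
      obtain rfl := Option.some.inj hr
      exact ⟨_, by nlinarith, (r.pa h h1 l).qa h h2 l⟩
  case h_11 =>
    obtain rfl := Option.some.inj hr
    have := M.wall_D M.wall_star
    exact ⟨_, by nlinarith, (r.pD l).qa h h.rw l⟩
  case h_15 => cases hr
  all_goals obtain ⟨e, e'⟩ := cond_some hr
  all_goals try simp only [Bool.and_eq_true, Bool.or_eq_true, Nat.beq_eq, Nat.ble_eq,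
    Nat.blt_eq] at e
  · obtain rfl := Option.some.inj e'
    obtain ⟨⟨e1, e2⟩, e3⟩ := e
    have := lo_iff.1 e1
    have ha := (h.isNe (by rw [top_eq]; omega) e2).1.at ρ
    have := M.third (by omega) (h.mem ha) (h.isNe' ha (h.top ha) e2) (h.isNe' ha (h.sec ha) e3)
    exact ⟨_, by nlinarith, ((r.pa h (h.sec2 ha e1) l).qa h (h.sec ha) l).qa h ha l⟩
  · obtain rfl := Option.some.inj e'
    obtain ⟨⟨⟨e1, e2⟩, e3⟩, e4⟩ := e
    obtain ⟨k, p, q, h1, h2, h3⟩ := h.isAdj x2 e1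
    have := h.lev h1
    have := M.pair_sec (by omega) h3
      (e3.imp (h.isNe' h1 (h.top h1)) (h.isNe' h2 (h.sec h1)))
      (e4.imp (h.isNe' h1 (h.sec h1)) (h.isNe' h2 (h.top h1)))
    exact ⟨_, by nlinarith, ((r.pa h (h.sec2 h1 e2) l).qa h h1 l).qa h h2 l⟩
  · obtain rfl := Option.some.inj e'
    obtain ⟨⟨⟨e1, e2⟩, e3⟩, e4⟩ := e
    obtain ⟨k, p, q, h1, h2, h3⟩ := h.isAdj x1 e2
    obtain ⟨j, p', q', h4, h5, h6⟩ := h.isAdj x2 e3
    obtain ⟨-, rfl⟩ := (h.top h2).uniq h1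
    obtain ⟨rfl, rfl⟩ := h1.uniq h4
    have := h.lev h1
    have := M.two_nbrs (by omega) h3 h6 (h.isNe' h2 h5 e4)
    exact ⟨_, by nlinarith, ((((r.pa h (h.sec2 h2 e1) l).pa h (h.sec h2) l).qa h h1 l).qa h h2
      l).qa h h5 l⟩
  · obtain rfl := Option.some.inj e'
    obtain ⟨⟨⟨⟨e1, e2⟩, e3⟩, e4⟩, e5⟩ := e
    have ha := (h.isNe x2 e3).1.at ρ
    have hb := (h.isNe x2 e3).2.1.at ρ
    rw [← e2] at hb
    have := h.lev ha
    have := M.two_low (by omega) (h.mem ha) (h.mem hb) (h.isNe' ha hb e3)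
      (h.isNe' ha (h.top ha) e4) (h.isNe' hb (h.top ha) e5)
    exact ⟨_, by nlinarith, ((r.pa h (h.sec2 ha e1) l).qa h ha l).qa h hb l⟩
  · obtain rfl := Option.some.inj e'
    obtain ⟨⟨e1, e2⟩, e3⟩ := e
    obtain ⟨k, p, q, h1, h2, h3⟩ := h.isAdj x1 e1
    rw [h2.2.1] at *
    exact reach_rep h r l e2 h2.1.1 h1.1.1 e3 h3 (h.val h1).ge (h.val h2)
  · obtain rfl := Option.some.inj e'
    obtain ⟨k, p, q, h1, h2, h3⟩ := h.isAdj x1 e.1
    obtain ⟨j, p', h4, h5, -, h6⟩ := h.dom b d x3 e.2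
    obtain ⟨rfl, rfl⟩ := h1.uniq h4
    have := h6 q h3
    exact ⟨_, by nlinarith, (r.pa h h2 l).qv h5 l⟩
  · obtain rfl := Option.some.inj e'
    obtain ⟨k, p, q, h1, h2, h3⟩ := h.wit a b x2 e
    have := M.wall_D (M.wall_wit (h.mem h1) h3)
    refine ⟨_, ?_, ((r.pD _).qa h h1 l).qa h h2 l⟩
    rw [cast_shl, h1.2.1, show Nat.add k 1 = k + 1 from rfl]
    nlinarith
  · obtain rfl := Option.some.inj e'
    obtain ⟨⟨e1, e2⟩, e3⟩ := e
    obtain ⟨k, p, q, h1, h2, h3⟩ := h.wit b d x3 e1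
    rw [h1.2.1] at *
    have := M.wall_t (M.wall_le (M.wall_wit (h.mem h1) h3) e3)
    refine ⟨_, ?_, ((r.pa h (h.rt a e2) l).qa h h1 _).qa h h2 _⟩
    rw [cast_shl, show Nat.sub a (Nat.add k 1) = a - (k + 1) from rfl]
    nlinarith
  · obtain rfl := Option.some.inj e'
    obtain ⟨⟨⟨e1, e2⟩, e3⟩, e4⟩ := e
    obtain ⟨k, p, q, h1, h2, h3⟩ := h.wit b d x3 e3
    obtain ⟨⟨j, p1, p2, p3, p4, p5, -, g2, -, g4, g5, -, g7, -⟩, e6⟩ := h.isE e1
    obtain ⟨-, rfl⟩ := g4.uniq (e2 ▸ g5)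
    rw [h1.2.1, g2.2.1] at *
    have := M.wall_third (M.wall_le (M.wall_wit (h.mem h1) h3) e4)
      (fun y hy y1 y2 => g7 e6 y hy y1 y2 y2)
    refine ⟨_, ?_, ((r.pa h g2 l).qa h h1 _).qa h h2 _⟩
    rw [cast_shl, show Nat.sub j (Nat.add k 1) = j - (k + 1) from rfl]
    nlinarith
  · obtain rfl := Option.some.inj e'
    have := M.wall_t (M.wall_le M.wall_star (Nat.zero_le a))
    refine ⟨_, ?_, (r.pa h (h.rt a e) l).qa h h.rw _⟩
    rw [cast_shl]
    rw [Nat.sub_zero] at this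
    nlinarith
  · obtain rfl := Option.some.inj e'
    obtain ⟨⟨j, p1, p2, p3, p4, p5, -, g2, -, g4, g5, -, g7, -⟩, e6⟩ := h.isE e.1
    obtain ⟨-, rfl⟩ := g4.uniq (e.2 ▸ g5)
    have := M.wall_third (M.wall_le M.wall_star (Nat.zero_le j))
      (fun y hy y1 y2 => g7 e6 y hy y1 y2 y2)
    refine ⟨_, ?_, (r.pa h g2 l).qa h h.rw _⟩
    rw [cast_shl, g2.2.1]
    rw [Nat.sub_zero] at this
    nlinarith
  · obtain rfl := Option.some.inj e'
    obtain ⟨e1, e2⟩ := isK_iff.1 e.1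
    obtain ⟨p, h1, -, y, z, h2, h3, h4⟩ := h.ch0 a e1 e2
    exact reach_rep h r l (h.l11 a e1) e1 h1.1.1 e.2 h2 (h.val h1 ▸ h3) h4

theorem rows_sound (h : Sem M s ρ x φ mm) {k c : ℕ} {A' : Acc} (r : RepS M s x A g)
    (hr : rows s k c A = some A') : ∃ g' ≤ g, RepS M s x A' g' := by
  induction k generalizing c A g with
  | zero => cases hr; exact ⟨g, le_rfl, r⟩
  | succ k ih =>
    unfold rows at hr
    split at hr
    · cases hr
    · rename_i B e
      obtain ⟨g1, h1, r1⟩ := row_sound h r e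
      obtain ⟨g2, h2, r2⟩ := ih r1 hr
      exact ⟨g2, h2.trans h1, r2⟩

theorem elim_sound (h : Sem M s ρ x φ mm) (r : RepS M s x A g) {v a : ℕ} (ha : a < 256) {A' : Acc}
    (hr : elim s v a A = some A') : RepS M s x A' g := by
  unfold elim at hr
  simp only [] at hr
  generalize Nat.sub (dig A.P (Nat.add v 2)) (dig A.N (Nat.add v 2)) = d at hr
  generalize Nat.sub (dig A.N (Nat.add v 2)) (dig A.P (Nat.add v 2)) = e at hr
  cases e0 : Nat.beq a 255 <;> rw [e0] at hr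
  · obtain ⟨e1, e2⟩ := cond_some (show cond _ _ none = _ from hr)
    obtain rfl := Option.some.inj e2
    obtain ⟨k, p, h1, h2⟩ := h.bitEq ha e1
    cases Nat.beq e 0
    · convert (r.qa h h2 e).pa h h1 e using 1 <;> first | rfl | ring
    · convert (r.pa h h2 d).qa h h1 d using 1 <;> first | rfl | ring
  · obtain ⟨e1, e2⟩ := cond_some (show cond _ _ none = _ from hr)
    obtain rfl := Option.some.inj e2
    have key : v < s.n ∧ fld s.pa v < s.n ∧ fld s.pb v < s.n ∧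
        x v = x (fld s.pa v) + x (fld s.pb v) := by
      rw [Bool.or_eq_true] at e1
      rcases e1 with e1 | e1
      · obtain ⟨k, p, q, h1, h2, -, h4⟩ := h.isK1 e1
        exact ⟨h4.1.1, h1.1.1, h2.1.1, by rw [h.val h1, h.val h2, h.val h4, M.Z_mid]⟩
      · obtain ⟨k, p, h1, h2, -, -, h3⟩ := h.chs v (isK_iff.1 e1).1 (isK_iff.1 e1).2
        exact ⟨(isK_iff.1 e1).1, h1.1.1, h2, by rw [h.val h1, h3]⟩
    obtain ⟨k1, k2, k3, k4⟩ := key
    cases Nat.beq e 0
    · convert ((r.qv k2 e).qv k3 e).pv k1 e using 1 <;> first | rfl | (rw [k4]; ring)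
    · convert ((r.pv k2 d).pv k3 d).qv k1 d using 1 <;> first | rfl | (rw [k4]; ring)

theorem elims_sound (h : Sem M s ρ x φ mm) {k c : ℕ} {A' : Acc} (r : RepS M s x A g)
    (hr : elims s k c A = some A') : RepS M s x A' g := by
  induction k generalizing c A with
  | zero => cases hr; exact r
  | succ k ih =>
    unfold elims at hr
    split at hr
    · cases hr
    · rename_i B e
      exact ih (elim_sound h r (Nat.mod_lt _ (by norm_num)) e) hr

/-- index of the goal vertex -/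
def gi (second : Bool) : ℕ := cond second 5 4

theorem leaf_sound (h : Good M s) {sec : Bool} {p q a b c : ℕ} (hpq : p ≤ q)
    (e : leaf (gi sec) p q s a b c = true) : M.Goal sec p q := by
  obtain ⟨ρ, x, φ, mm, h⟩ := h
  unfold leaf at e
  generalize hl : Nat.shiftLeft 1 (fld a 0) = l at e
  have l0 : (0 : ℝ) < l := by rw [← hl, cast_shl]; positivity
  have hg : At s ρ (gi sec) 2 (if sec then M.t 2 else M.s 2) := by
    cases sec
    exacts [h.rs 2 (by norm_num), h.rt 2 (by norm_num)]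
  have r0 : RepS M s x (start (gi sec) p q l) _ :=
    ((((((RepS.qD Rep.zero (4 * q * l)).pa h hg ((q - p) * l)).pW (p * l)).pa h h.rx (p * l)).pa h
      h.ry (p * l)).pa h h.rw (p * l))
  split at e
  · cases e
  · rename_i A e1
    obtain ⟨g, h1, r1⟩ := rows_sound h r0 e1
    split at e
    · cases e
    · rename_i B e2
      have hD := M.wall_D M.wall_star
      have hW := M.Z_le (k := 0) M.hws
      have h2 := fin_sound (by have := h.n27; omega) (elims_sound h r1 e2) e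
        ⟨M.hD0, by change M.D ≤ M.W; linarith⟩
        (by change x 0 = 0; rw [h.val (h.rs 0 (by norm_num)), M.Z_top]) h.bnd
      have h3 := h2.trans h1
      push_cast [Nat.cast_sub hpq] at h3
      unfold Mdl.Goal
      by_contra hcon
      have := mul_pos l0 (sub_pos.2 (not_le.1 hcon))
      nlinarith

end Pool.Agent.Lib.MP_7fdcdd_gt.BB
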