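import Pool.Agent.Lib.MP_7fdcdd_gt.BB.Tree

/-! Monotonicity of the first goal in its parameter. -/

namespace Pool.Agent.Lib.MP_7fdcdd_gt.BB

lemma Mdl.goal_mono (M : Mdl) {p p' q : ℕ} (hp : p ≤ p') (h : M.Goal false p q) :
    M.Goal false p' q := by
  have h1 := M.Z_s_succ (k := 1) (by omega)
  have h2 := M.Z_s_succ (k := 0) (by omega)
  have h3 := M.reach1 (k := 1) (by omega) (M.adj_st (k := 1) (by omega))
  have h4 := M.Z_t_le (k := 0) M.hxy.2.1 M.ys_ne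
  have h5 := M.Z_t_le (k := 0) M.hws M.ws_ne
  have h6 := M.Z_nonneg (k := 0) M.hxy.1
  have h7 := M.Z_top
  have h8 : (p : ℝ) ≤ p' := by exact_mod_cast hp
  simp only [Finset.sum_range_one, Nat.cast_zero, zero_mul, sub_self, mul_zero, add_zero] at h3
  have h9 : M.Z 2 (M.s 2) ≤ M.W + M.Z 0 M.ws + M.Z 0 M.xs + M.Z 0 M.ys := by
    norm_num at h1 h2
    linarith
  unfold Mdl.Goal at h ⊢
  simp only [Bool.false_eq_true, if_false] at h ⊢
  nlinarith [mul_le_mul_of_nonneg_left h9 (sub_nonneg.2 h8)]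

theorem Cl.mono {p p' q : ℕ} {a : Pa} (hp : Nat.ble p p' = true) (h : Cl false p q a) :
    Cl false p' q a := by
  obtain ⟨s, e, h⟩ := h
  exact ⟨s, e, fun M g => M.goal_mono (Nat.le_of_ble_eq_true hp) (h M g)⟩

end Pool.Agent.Lib.MP_7fdcdd_gt.BB
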