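import Pool.Agent.Lib.MP_7fdcdd_gt.BB.Geo
import Pool.Agent.Lib.MP_7fdcdd_gt.BB.Bits

/-! Meaning of a checker state in a model, and the primitive updates. -/

namespace Pool.Agent.Lib.MP_7fdcdd_gt.BB

open H77

/-- `a` names a vertex -/
def St.V (s : St) (a : ℕ) : Prop := a < s.n ∧ fld s.kind a ≤ 1

/-- `a` names the point `p` on level `k` -/
def At (s : St) (ρ : ℕ → E) (a k : ℕ) (p : E) : Prop := s.V a ∧ s.lv a = k ∧ ρ a = p

/-- `a`, `b` name points on one level that satisfy `R` -/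
def Rel (s : St) (ρ : ℕ → E) (R : ℕ → E → E → Prop) (a b : ℕ) : Prop :=
  ∃ k p q, At s ρ a k p ∧ At s ρ b k q ∧ R k p q

/-- meaning of an entry -/
def EnP (M : Mdl) (s : St) (ρ : ℕ → E) (e : ℕ) : Prop :=
  ∃ k p1 p2 p3 p4 p5, At s ρ (fld e 1) k p1 ∧ At s ρ (fld e 2) k p2 ∧ At s ρ (fld e 3) k p3 ∧
    At s ρ (fld e 4) k p4 ∧ At s ρ (fld e 5) k p5 ∧
    (fld e 0 = 0 → ∀ y, Adj (lv M.V k) p1 y → y ≠ p3 → y ≠ p4 → y ≠ p5 → M.u y ≤ M.u p2) ∧
    (fld e 0 = 1 → ∀ y ∈ lv M.V k, y ≠ p3 → y ≠ p4 → y ≠ p5 → M.u y ≤ M.u p2) ∧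
    (fld e 0 = 2 → Adj (lv M.V (k + 1)) (midpoint ℝ p1 p2) (midpoint ℝ p1 p3))

/-- the value `r` of the base of a chain over a vertex of depth `y` on level `k` -/
def Base (M : Mdl) (k : ℕ) (y r : ℝ) : Prop :=
  (∀ a ∈ lv M.V k, M.Z k a ≤ y → M.Dom k a r) ∧
    ∃ a v, Adj (lv M.V k) a v ∧ M.Z k a ≤ y ∧ r = M.Z k v

structure Sem (M : Mdl) (s : St) (ρ : ℕ → E) (x : ℕ → ℝ) (φ : ℕ → L) (mm : ℕ → ℝ) : Prop where
  n27 : 27 ≤ s.n
  n255 : s.n ≤ 255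
  nf1 : 1 ≤ s.nf
  nf255 : s.nf ≤ 255
  rs : ∀ k ≤ 11, At s ρ (2 * k) k (M.s k)
  rt : ∀ k ≤ 11, At s ρ (2 * k + 1) k (M.t k)
  rx : At s ρ 24 0 M.xs
  ry : At s ρ 25 0 M.ys
  rw : At s ρ 26 0 M.ws
  f0 : φ 0 = M.φ ∧ mm 0 = M.m
  l11 : ∀ a < s.n, s.lv a ≤ 11
  vtx : ∀ a k p, At s ρ a k p → p ∈ lv M.V k ∧ x a = M.Z k p
  bnd : ∀ a < s.n, 0 ≤ x a ∧ x a ≤ 2 ^ s.lv a * M.W
  mid : ∀ a < s.n, fld s.kind a = 1 → ∃ k p q, At s ρ (fld s.pa a) k p ∧ At s ρ (fld s.pb a) k q ∧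
    Adj (lv M.V k) p q ∧ At s ρ a (k + 1) (midpoint ℝ p q)
  ch0 : ∀ c < s.n, fld s.kind c = 2 → ∃ p, At s ρ (fld s.pa c) (s.lv c) p ∧
    Base M (s.lv c) (M.Z (s.lv c) p) (x c)
  chs : ∀ c < s.n, fld s.kind c = 3 → ∃ k p, At s ρ (fld s.pa c) k p ∧ fld s.pb c < s.n ∧
    s.lv (fld s.pb c) = k ∧ s.lv c = k + 1 ∧ x c = M.Z k p + x (fld s.pb c)
  face : ∀ f < s.nf, φ f ≠ 0 ∧ Top3 (lv M.V (fld s.fb f)) (φ f) (mm f)
  ent : ∀ i < s.nent, EnP M s ρ (s.en i)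
  adj : ∀ a b, b < 256 → bit s.adj a b = true → Rel s ρ (fun k p q => Adj (lv M.V k) p q) a b
  ne : ∀ a b, b < 256 → bit s.ne a b = true → s.V a ∧ s.V b ∧ ρ a ≠ ρ b
  le : ∀ a b, b < 256 → bit s.le a b = true → Rel s ρ (fun k p q => M.Z k p ≤ M.Z k q) a b
  eq : ∀ a b, b < 256 → bit s.eq a b = true → Rel s ρ (fun _ p q => p = q) a b
  wit : ∀ a b, b < 256 → bit s.wit a b = true →
    Rel s ρ (fun k p q => ∀ y, Adj (lv M.V k) p y → M.u q ≤ M.u y) a b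
  dom : ∀ a c, c < 256 → bit s.dom a c = true →
    ∃ k p, At s ρ a k p ∧ c < s.n ∧ s.lv c = k ∧ M.Dom k p (x c)
  on : ∀ f a, a < 256 → bit s.on f a = true → f < s.nf ∧ s.V a ∧ φ f (ρ a) = mm f
  cap : ∀ f a, a < 256 → bit s.cap f a = true →
    f < s.nf ∧ ∃ k p, At s ρ a k p ∧ Cap (lv M.V k) (φ f) (mm f) p

def Good (M : Mdl) (s : St) : Prop := ∃ ρ x φ mm, Sem M s ρ x φ mm

variable {M : Mdl} {s : St} {ρ : ℕ → E} {x : ℕ → ℝ} {φ : ℕ → L} {mm : ℕ → ℝ}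

lemma At.uniq {a k j : ℕ} {p q : E} (h : At s ρ a k p) (g : At s ρ a j q) : k = j ∧ p = q :=
  ⟨h.2.1.symm.trans g.2.1, h.2.2.symm.trans g.2.2⟩

lemma St.V.at {a : ℕ} (h : s.V a) (ρ : ℕ → E) : At s ρ a (s.lv a) (ρ a) := ⟨h, rfl, rfl⟩

lemma isV_iff {a : ℕ} : s.isV a = true ↔ s.V a := by
  simp [St.isV, St.V, Nat.blt_eq]

lemma isL_iff {a k : ℕ} : s.isL a k = true ↔ At s ρ a k (ρ a) := by
  simp [St.isL, At, isV_iff]

lemma isK_iff {a k : ℕ} : s.isK a k = true ↔ a < s.n ∧ fld s.kind a = k := by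
  simp [St.isK, Nat.blt_eq]

lemma isE_iff {i k : ℕ} : s.isE i k = true ↔ i < s.nent ∧ fld (s.en i) 0 = k := by
  simp [St.isE, Nat.blt_eq]

lemma room_iff : s.room = true ↔ s.n < 255 := by simp [St.room, Nat.blt_eq]

lemma lo_iff {a : ℕ} : s.lo a = true ↔ s.lv a ≤ 10 := by simp [St.lo]

lemma top_eq (a : ℕ) : s.top a = 2 * s.lv a := rfl

lemma sec_eq (a : ℕ) : s.sec a = 2 * s.lv a + 1 := rfl

namespace Sem

section Use

variable (h : Sem M s ρ x φ mm)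
include h

lemma lt {a k : ℕ} {p : E} (ha : At s ρ a k p) : a < 256 := by
  have := ha.1.1; have := h.n255; omega

lemma ltV {a : ℕ} (ha : s.V a) : a < 256 := by
  have := ha.1; have := h.n255; omega

lemma lev {a k : ℕ} {p : E} (ha : At s ρ a k p) : k ≤ 11 := ha.2.1 ▸ h.l11 a ha.1.1

lemma mem {a k : ℕ} {p : E} (ha : At s ρ a k p) : p ∈ lv M.V k := (h.vtx a k p ha).1

lemma val {a k : ℕ} {p : E} (ha : At s ρ a k p) : x a = M.Z k p := (h.vtx a k p ha).2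

lemma isAdj {a b : ℕ} (hb : b < 256) (e : s.isAdj a b = true) :
    ∃ k p q, At s ρ a k p ∧ At s ρ b k q ∧ Adj (lv M.V k) p q := h.adj a b hb e

lemma isNe {a b : ℕ} (hb : b < 256) (e : s.isNe a b = true) : s.V a ∧ s.V b ∧ ρ a ≠ ρ b := by
  simp only [St.isNe, Bool.or_eq_true] at e
  rcases e with e | e
  · exact h.ne a b hb e
  · obtain ⟨k, p, q, h1, h2, h3⟩ := h.adj a b hb e
    exact ⟨h1.1, h2.1, by rw [h1.2.2, h2.2.2]; exact h3.2.2.1⟩

lemma isNe' {a b k j : ℕ} {p q : E} (ha : At s ρ a k p) (hb : At s ρ b j q)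
    (e : s.isNe a b = true) : p ≠ q := by
  have := (h.isNe (h.lt hb) e).2.2
  rwa [ha.2.2, hb.2.2] at this

/-- left side known -/
lemma isLe {a b k : ℕ} {p : E} (ha : At s ρ a k p) (hb : b < 256) (e : s.isLe a b = true) :
    ∃ q, At s ρ b k q ∧ M.Z k p ≤ M.Z k q := by
  simp only [St.isLe, Bool.or_eq_true, Nat.beq_eq] at e
  rcases e with rfl | e
  · exact ⟨p, ha, le_rfl⟩
  · obtain ⟨j, p', q, h1, h2, h3⟩ := h.le a b hb e
    obtain ⟨rfl, rfl⟩ := ha.uniq h1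
    exact ⟨q, h2, h3⟩

/-- right side known -/
lemma isLe' {a b k : ℕ} {q : E} (hb : At s ρ b k q) (e : s.isLe a b = true) :
    ∃ p, At s ρ a k p ∧ M.Z k p ≤ M.Z k q := by
  simp only [St.isLe, Bool.or_eq_true, Nat.beq_eq] at e
  rcases e with rfl | e
  · exact ⟨q, hb, le_rfl⟩
  · obtain ⟨j, p, q', h1, h2, h3⟩ := h.le a b (h.lt hb) e
    obtain ⟨rfl, rfl⟩ := hb.uniq h2
    exact ⟨p, h1, h3⟩

lemma isEq {a b k : ℕ} {p : E} (ha : At s ρ a k p) (hb : b < 256) (e : s.isEq a b = true) :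
    At s ρ b k p := by
  simp only [St.isEq, Bool.or_eq_true, Nat.beq_eq] at e
  rcases e with rfl | e
  · exact ha
  · obtain ⟨j, p', q, h1, h2, h3⟩ := h.eq a b hb e
    obtain ⟨rfl, rfl⟩ := ha.uniq h1
    exact h3 ▸ h2

lemma isEq' {a b k : ℕ} {p : E} (hb : At s ρ b k p) (e : s.isEq a b = true) : At s ρ a k p := by
  simp only [St.isEq, Bool.or_eq_true, Nat.beq_eq] at e
  rcases e with rfl | e
  · exact hb
  · obtain ⟨j, p', q, h1, h2, h3⟩ := h.eq a b (h.lt hb) e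
    obtain ⟨rfl, rfl⟩ := hb.uniq h2
    exact h3 ▸ h1

lemma bitEq {a b : ℕ} (hb : b < 256) (e : bit s.eq a b = true) :
    ∃ k p, At s ρ a k p ∧ At s ρ b k p := by
  obtain ⟨j, p, q, h1, h2, h3⟩ := h.eq a b hb e
  exact ⟨j, p, h1, h3 ▸ h2⟩

lemma isK1 {m : ℕ} (e : s.isK m 1 = true) : ∃ k p q, At s ρ (fld s.pa m) k p ∧
    At s ρ (fld s.pb m) k q ∧ Adj (lv M.V k) p q ∧ At s ρ m (k + 1) (midpoint ℝ p q) :=
  h.mid m (isK_iff.1 e).1 (isK_iff.1 e).2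

lemma isMid {m a b : ℕ} (e : s.isMid m a b = true) : ∃ k p q, At s ρ a k p ∧ At s ρ b k q ∧
    Adj (lv M.V k) p q ∧ At s ρ m (k + 1) (midpoint ℝ p q) := by
  simp only [St.isMid, Bool.and_eq_true, Bool.or_eq_true, Nat.beq_eq] at e
  obtain ⟨k, p, q, h1, h2, h3, h4⟩ := h.isK1 e.1
  rcases e.2 with ⟨rfl, rfl⟩ | ⟨rfl, rfl⟩
  · exact ⟨k, p, q, h1, h2, h3, h4⟩
  · exact ⟨k, q, p, h2, h1, h3.symm, midpoint_comm (R := ℝ) p q ▸ h4⟩

lemma isE {i k : ℕ} (e : s.isE i k = true) : EnP M s ρ (s.en i) ∧ fld (s.en i) 0 = k :=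
  ⟨h.ent i (isE_iff.1 e).1, (isE_iff.1 e).2⟩

lemma top {a k : ℕ} {p : E} (ha : At s ρ a k p) : At s ρ (s.top a) k (M.s k) := by
  rw [top_eq, ha.2.1]; exact h.rs k (h.lev ha)

lemma sec {a k : ℕ} {p : E} (ha : At s ρ a k p) : At s ρ (s.sec a) k (M.t k) := by
  rw [sec_eq, ha.2.1]; exact h.rt k (h.lev ha)

lemma sec2 {a k : ℕ} {p : E} (ha : At s ρ a k p) (hl : s.lo a = true) :
    At s ρ (Nat.add (s.sec a) 2) (k + 1) (M.t (k + 1)) := by
  have e : Nat.add (s.sec a) 2 = 2 * (s.lv a + 1) + 1 := by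
    change 2 * s.lv a + 1 + 2 = _
    ring
  have := lo_iff.1 hl
  rw [e, ha.2.1]
  exact h.rt _ (by rw [← ha.2.1]; omega)

/-- a face is a face on every later level -/
lemma faceAt {f k : ℕ} (hf : f < s.nf) (hk : fld s.fb f ≤ k) :
    φ f ≠ 0 ∧ Top3 (lv M.V k) (φ f) (mm f) := by
  refine ⟨(h.face f hf).1, ?_⟩
  induction k, hk using Nat.le_induction with
  | base => exact (h.face f hf).2
  | succ k _ ih => rw [M.lv_succ]; exact ih.nxt (M.cp k)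

end Use

section Add

variable (h : Sem M s ρ x φ mm)
include h

lemma addAdj {a b k : ℕ} {p q : E} (ha : At s ρ a k p) (hb : At s ρ b k q)
    (r : Adj (lv M.V k) p q) : Sem M (s.addAdj a b) ρ x φ mm :=
  { h with
    adj := fun c d hd e => by
      rcases bit_ins (h.lt ha) hd e with e | ⟨rfl, rfl⟩
      · rcases bit_ins (h.lt hb) hd e with e | ⟨rfl, rfl⟩
        · exact h.adj c d hd e
        · exact ⟨k, p, q, ha, hb, r⟩
      · exact ⟨k, q, p, hb, ha, r.symm⟩ }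

lemma addNe {a b k j : ℕ} {p q : E} (ha : At s ρ a k p) (hb : At s ρ b j q) (r : p ≠ q) :
    Sem M (s.addNe a b) ρ x φ mm :=
  { h with
    ne := fun c d hd e => by
      have r' : ρ a ≠ ρ b := by rwa [ha.2.2, hb.2.2]
      rcases bit_ins (h.lt ha) hd e with e | ⟨rfl, rfl⟩
      · rcases bit_ins (h.lt hb) hd e with e | ⟨rfl, rfl⟩
        · exact h.ne c d hd e
        · exact ⟨ha.1, hb.1, r'⟩
      · exact ⟨hb.1, ha.1, r'.symm⟩ }

lemma addLe {a b k : ℕ} {p q : E} (ha : At s ρ a k p) (hb : At s ρ b k q)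
    (r : M.Z k p ≤ M.Z k q) : Sem M (s.addLe a b) ρ x φ mm :=
  { h with
    le := fun c d hd e => by
      rcases bit_ins (h.lt hb) hd e with e | ⟨rfl, rfl⟩
      · exact h.le c d hd e
      · exact ⟨k, p, q, ha, hb, r⟩ }

lemma addEq {a b k : ℕ} {p : E} (ha : At s ρ a k p) (hb : At s ρ b k p) :
    Sem M (s.addEq a b) ρ x φ mm :=
  { h with
    eq := fun c d hd e => by
      rcases bit_ins (h.lt ha) hd e with e | ⟨rfl, rfl⟩
      · rcases bit_ins (h.lt hb) hd e with e | ⟨rfl, rfl⟩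
        · exact h.eq c d hd e
        · exact ⟨k, p, p, ha, hb, rfl⟩
      · exact ⟨k, p, p, hb, ha, rfl⟩ }

lemma addWit {a b k : ℕ} {p q : E} (ha : At s ρ a k p) (hb : At s ρ b k q)
    (r : ∀ y, Adj (lv M.V k) p y → M.u q ≤ M.u y) : Sem M (s.addWit a b) ρ x φ mm :=
  { h with
    wit := fun c d hd e => by
      rcases bit_ins (h.lt hb) hd e with e | ⟨rfl, rfl⟩
      · exact h.wit c d hd e
      · exact ⟨k, p, q, ha, hb, r⟩ }

lemma addDom {a c k : ℕ} {p : E} (ha : At s ρ a k p) (hc : c < s.n) (hl : s.lv c = k)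
    (r : M.Dom k p (x c)) : Sem M (s.addDom a c) ρ x φ mm :=
  { h with
    dom := fun a' d hd e => by
      rcases bit_ins (by have := h.n255; omega) hd e with e | ⟨rfl, rfl⟩
      · exact h.dom a' d hd e
      · exact ⟨k, p, ha, hc, hl, r⟩ }

lemma addOn {f a k : ℕ} {p : E} (hf : f < s.nf) (ha : At s ρ a k p) (r : φ f p = mm f) :
    Sem M (s.addOn f a) ρ x φ mm :=
  { h with
    on := fun c d hd e => by
      rcases bit_ins (h.lt ha) hd e with e | ⟨rfl, rfl⟩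
      · exact h.on c d hd e
      · exact ⟨hf, ha.1, ha.2.2 ▸ r⟩ }

lemma addCap {f a k : ℕ} {p : E} (hf : f < s.nf) (ha : At s ρ a k p)
    (r : Cap (lv M.V k) (φ f) (mm f) p) : Sem M (s.addCap f a) ρ x φ mm :=
  { h with
    cap := fun c d hd e => by
      rcases bit_ins (h.lt ha) hd e with e | ⟨rfl, rfl⟩
      · exact h.cap c d hd e
      · exact ⟨hf, k, p, ha, r⟩ }

lemma addE {e : ℕ} (he : e < 2 ^ 64) (r : EnP M s ρ e) : Sem M (s.addE e) ρ x φ mm :=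
  { h with
    ent := fun i hi => by
      have e1 : (s.addE e).en i = if i = s.nent then e else s.en i := wrd_setw he _ _ _
      have e2 : i < s.nent + 1 := hi
      rw [e1]
      split_ifs with h1
      · exact r
      · exact h.ent i (by omega) }

lemma addF {k : ℕ} (hk : k ≤ 11) (hf : s.nf < 255) {ψ : L} {m : ℝ} (h0 : ψ ≠ 0)
    (r : Top3 (lv M.V k) ψ m) :
    Sem M (s.addF k) ρ x (Function.update φ s.nf ψ) (Function.update mm s.nf m) :=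
  { h with
    nf1 := Nat.le_add_left _ _
    nf255 := hf
    f0 := by
      have := h.nf1
      rw [Function.update_of_ne (by omega), Function.update_of_ne (by omega)]
      exact h.f0
    face := fun f hf' => by
      have e1 : fld (s.addF k).fb f = if f = s.nf then k else fld s.fb f :=
        fld_setf (by omega) _ _ _
      have e2 : f < s.nf + 1 := hf'
      rw [e1]
      split_ifs with h1
      · subst h1
        simpa using ⟨h0, r⟩
      · rw [Function.update_of_ne h1, Function.update_of_ne h1]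
        exact h.face f (by omega)
    on := fun f a ha e => by
      obtain ⟨h1, h2, h3⟩ := h.on f a ha e
      rw [Function.update_of_ne h1.ne, Function.update_of_ne h1.ne]
      exact ⟨Nat.lt_succ_of_lt h1, h2, h3⟩
    cap := fun f a ha e => by
      obtain ⟨h1, h2⟩ := h.cap f a ha e
      rw [Function.update_of_ne h1.ne, Function.update_of_ne h1.ne]
      exact ⟨Nat.lt_succ_of_lt h1, h2⟩ }

/-- Changing the tables so that old names keep their meaning; `P` lists the names whose table rows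
are unchanged. -/
lemma frame {s' : St} {ρ' : ℕ → E} {x' : ℕ → ℝ} (hn : s.n ≤ s'.n) (h255 : s'.n ≤ 255)
    (e1 : s'.nf = s.nf) (e2 : s'.nent = s.nent) (e3 : s'.fb = s.fb) (e4 : s'.ent = s.ent)
    (e5 : s'.adj = s.adj) (e6 : s'.ne = s.ne) (e7 : s'.le = s.le) (e8 : s'.eq = s.eq)
    (e9 : s'.wit = s.wit) (e10 : s'.dom = s.dom) (e11 : s'.on = s.on) (e12 : s'.cap = s.cap)
    (hl : ∀ a < s.n, s'.lv a = s.lv a ∧ ρ' a = ρ a ∧ x' a = x a ∧
      (fld s.kind a ≤ 1 ↔ fld s'.kind a ≤ 1)) (c : ℕ)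
    (ho : ∀ a < s'.n, a ≠ c → a < s.n ∧ fld s'.kind a = fld s.kind a ∧ fld s'.pa a = fld s.pa a ∧
      fld s'.pb a = fld s.pb a)
    (l11 : s'.lv c ≤ 11) (vtx : ∀ k p, At s' ρ' c k p → p ∈ lv M.V k ∧ x' c = M.Z k p)
    (bnd : 0 ≤ x' c ∧ x' c ≤ 2 ^ s'.lv c * M.W)
    (mid : fld s'.kind c = 1 → ∃ k p q, At s' ρ' (fld s'.pa c) k p ∧ At s' ρ' (fld s'.pb c) k q ∧
      Adj (lv M.V k) p q ∧ At s' ρ' c (k + 1) (midpoint ℝ p q))
    (ch0 : fld s'.kind c = 2 → ∃ p, At s' ρ' (fld s'.pa c) (s'.lv c) p ∧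
      Base M (s'.lv c) (M.Z (s'.lv c) p) (x' c))
    (chs : fld s'.kind c = 3 → ∃ k p, At s' ρ' (fld s'.pa c) k p ∧ fld s'.pb c < s'.n ∧
      s'.lv (fld s'.pb c) = k ∧ s'.lv c = k + 1 ∧ x' c = M.Z k p + x' (fld s'.pb c)) :
    Sem M s' ρ' x' φ mm := by
  have v : ∀ {a}, s.V a → s'.V a := fun {a} ha => ⟨ha.1.trans_le hn, (hl a ha.1).2.2.2.1 ha.2⟩
  have t : ∀ {a k p}, At s ρ a k p → At s' ρ' a k p := fun {a k p} ha =>
    ⟨v ha.1, (hl a ha.1.1).1.trans ha.2.1, (hl a ha.1.1).2.1.trans ha.2.2⟩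
  have r : ∀ {R a b}, Rel s ρ R a b → Rel s' ρ' R a b := fun ⟨k, p, q, h1, h2, h3⟩ =>
    ⟨k, p, q, t h1, t h2, h3⟩
  refine ⟨h.n27.trans hn, h255, e1 ▸ h.nf1, e1 ▸ h.nf255, fun k hk => t (h.rs k hk),
    fun k hk => t (h.rt k hk), t h.rx, t h.ry, t h.rw, h.f0, fun a ha => ?_, fun a k p ha => ?_,
    fun a ha => ?_, fun a ha hk => ?_, fun a ha hk => ?_, fun a ha hk => ?_, ?_, fun i hi => ?_,
    fun a b hb e => r (h.adj a b hb (e5 ▸ e)), fun a b hb e => ?_,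
    fun a b hb e => r (h.le a b hb (e7 ▸ e)), fun a b hb e => r (h.eq a b hb (e8 ▸ e)),
    fun a b hb e => r (h.wit a b hb (e9 ▸ e)), fun a b hb e => ?_, fun a b hb e => ?_,
    fun a b hb e => ?_⟩
  · by_cases hc : a = c
    · exact hc ▸ l11
    · have := (ho a ha hc).1
      rw [(hl a this).1]; exact h.l11 a this
  · by_cases hc : a = c
    · subst hc; exact vtx k p ha
    · have h1 := (ho a ha.1.1 hc).1
      obtain ⟨h2, h3, h4, h5⟩ := hl a h1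
      rw [h4]
      exact h.vtx a k p ⟨⟨h1, h5.2 ha.1.2⟩, h2 ▸ ha.2.1, h3 ▸ ha.2.2⟩
  · by_cases hc : a = c
    · exact hc ▸ bnd
    · have h1 := (ho a ha hc).1
      rw [(hl a h1).1, (hl a h1).2.2.1]; exact h.bnd a h1
  · by_cases hc : a = c
    · subst hc; exact mid hk
    · obtain ⟨h1, h2, h3, h4⟩ := ho a ha hc
      obtain ⟨k, p, q, g1, g2, g3, g4⟩ := h.mid a h1 (h2 ▸ hk)
      exact ⟨k, p, q, h3 ▸ t g1, h4 ▸ t g2, g3, t g4⟩
  · by_cases hc : a = c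
    · subst hc; exact ch0 hk
    · obtain ⟨h1, h2, h3, h4⟩ := ho a ha hc
      obtain ⟨p, g1, g2⟩ := h.ch0 a h1 (h2 ▸ hk)
      rw [(hl a h1).1, (hl a h1).2.2.1, h3]
      exact ⟨p, t g1, g2⟩
  · by_cases hc : a = c
    · subst hc; exact chs hk
    · obtain ⟨h1, h2, h3, h4⟩ := ho a ha hc
      obtain ⟨k, p, g1, g2, g3, g4, g5⟩ := h.chs a h1 (h2 ▸ hk)
      rw [(hl a h1).1, (hl a h1).2.2.1, h3, h4, (hl _ g2).1, (hl _ g2).2.2.1]
      exact ⟨k, p, t g1, g2.trans_le hn, g3, g4, g5⟩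
  · rw [e1, e3]; exact h.face
  · obtain ⟨k, p1, p2, p3, p4, p5, g1, g2, g3, g4, g5, g6⟩ := h.ent i (e2 ▸ hi)
    have : s'.en i = s.en i := by rw [St.en, e4]; rfl
    rw [this]
    exact ⟨k, p1, p2, p3, p4, p5, t g1, t g2, t g3, t g4, t g5, g6⟩
  · obtain ⟨g1, g2, g3⟩ := h.ne a b hb (e6 ▸ e)
    exact ⟨v g1, v g2, by rwa [(hl a g1.1).2.1, (hl b g2.1).2.1]⟩
  · obtain ⟨k, p, g1, g2, g3, g4⟩ := h.dom a b hb (e10 ▸ e)
    exact ⟨k, p, t g1, g2.trans_le hn, (hl b g2).1.trans g3, by rwa [(hl b g2).2.2.1]⟩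
  · obtain ⟨g1, g2, g3⟩ := h.on a b hb (e11 ▸ e)
    exact ⟨e1 ▸ g1, v g2, by rwa [(hl b g2.1).2.1]⟩
  · obtain ⟨g1, k, p, g2, g3⟩ := h.cap a b hb (e12 ▸ e)
    exact ⟨e1 ▸ g1, k, p, t g2, g3⟩

omit h in
lemma At_setMid {m a b c k : ℕ} {p : E} (hc : At s ρ c k p) : At (s.setMid m a b) ρ c k p := by
  refine ⟨⟨hc.1.1, ?_⟩, hc.2.1, hc.2.2⟩
  have e : fld (s.setMid m a b).kind c = if c = m then 1 else fld s.kind c :=
    fld_setf (by norm_num) _ _ _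
  rw [e]
  split_ifs
  · exact le_rfl
  · exact hc.1.2

lemma setMid {m a b k : ℕ} {p q : E} (ha : At s ρ a k p) (hb : At s ρ b k q)
    (r : Adj (lv M.V k) p q) (hm : At s ρ m (k + 1) (midpoint ℝ p q)) :
    Sem M (s.setMid m a b) ρ x φ mm := by
  have e1 : ∀ c, fld (s.setMid m a b).kind c = if c = m then 1 else fld s.kind c :=
    fld_setf (by norm_num) _ _
  have e2 : ∀ c, fld (s.setMid m a b).pa c = if c = m then a else fld s.pa c :=
    fld_setf (h.lt ha) _ _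
  have e3 : ∀ c, fld (s.setMid m a b).pb c = if c = m then b else fld s.pb c :=
    fld_setf (h.lt hb) _ _
  refine h.frame le_rfl h.n255 rfl rfl rfl rfl rfl rfl rfl rfl rfl rfl rfl rfl
    (fun c _ => ⟨rfl, rfl, rfl, ?_⟩) m (fun c hc hne => ⟨hc, ?_, ?_, ?_⟩) (h.l11 m hm.1.1)
    (fun j y hy => h.vtx m j y ⟨hm.1, hy.2⟩) (h.bnd m hm.1.1) (fun _ => ?_) (fun e => ?_)
    (fun e => ?_)
  · rw [e1]
    split_ifs with hc
    · subst hc; simp [hm.1.2]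
    · rfl
  · rw [e1, if_neg hne]
  · rw [e2, if_neg hne]
  · rw [e3, if_neg hne]
  · rw [e2, e3, if_pos rfl, if_pos rfl]
    exact ⟨k, p, q, At_setMid ha, At_setMid hb, r, At_setMid hm⟩
  · rw [e1, if_pos rfl] at e; omega
  · rw [e1, if_pos rfl] at e; omega

/-- a new vertex -/
lemma addV {k : ℕ} (hk : k ≤ 11) (hr : s.n < 255) {v : E} (hv : v ∈ lv M.V k) :
    ∃ ρ' x', Sem M (s.addV k) ρ' x' φ mm ∧ At (s.addV k) ρ' s.n k v ∧
      ∀ {a j p}, At s ρ a j p → At (s.addV k) ρ' a j p := by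
  have e1 : ∀ c, fld (s.addV k).kind c = if c = s.n then 0 else fld s.kind c :=
    fld_setf (by norm_num) _ _
  have e2 : ∀ c, (s.addV k).lv c = if c = s.n then k else s.lv c := fld_setf (by omega) _ _
  have e3 : (s.addV k).n = s.n + 1 := rfl
  have hn : At (s.addV k) (Function.update ρ s.n v) s.n k v :=
    ⟨⟨by omega, by rw [e1, if_pos rfl]; omega⟩, by rw [e2, if_pos rfl], by simp⟩
  refine ⟨Function.update ρ s.n v, Function.update x s.n (M.Z k v), ?_, hn, fun {a j p} ha => ?_⟩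
  · refine h.frame (by omega) (by omega) rfl rfl rfl rfl rfl rfl rfl rfl rfl rfl rfl rfl
      (fun c hc => ?_) s.n (fun c hc hne => ⟨by omega, ?_, rfl, rfl⟩) ?_ (fun j y hy => ?_) ?_
      (fun e => ?_) (fun e => ?_) (fun e => ?_)
    · rw [e1, e2, if_neg hc.ne, if_neg hc.ne, Function.update_of_ne hc.ne,
        Function.update_of_ne hc.ne]
      exact ⟨rfl, rfl, rfl, Iff.rfl⟩
    · rw [e1, if_neg hne]
    · rw [e2, if_pos rfl]; exact hk
    · obtain ⟨rfl, rfl⟩ := hn.uniq hy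
      exact ⟨hv, by simp⟩
    · rw [e2, if_pos rfl, Function.update_self]
      exact ⟨M.Z_nonneg hv, M.Z_le hv⟩
    all_goals rw [e1, if_pos rfl] at e; omega
  · have hc := ha.1.1.ne
    exact ⟨⟨by have := ha.1.1; omega, by rw [e1, if_neg hc]; exact ha.1.2⟩,
      by rw [e2, if_neg hc]; exact ha.2.1, by rw [Function.update_of_ne hc]; exact ha.2.2⟩

/-- a new chain object -/
lemma addC {ki k a b : ℕ} (hk : k ≤ 11) (hr : s.n < 255) (ha : a < s.n) (hb : b < s.n) {r : ℝ}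
    (h0 : 0 ≤ r) (h1 : r ≤ 2 ^ k * M.W) (hki : ki = 2 ∨ ki = 3)
    (c0 : ki = 2 → ∃ p, At s ρ a k p ∧ Base M k (M.Z k p) r)
    (cs : ki = 3 → ∃ j p, At s ρ a j p ∧ s.lv b = j ∧ k = j + 1 ∧ r = M.Z j p + x b) :
    Good M (s.addC ki k a b) := by
  have e1 : ∀ c, fld (s.addC ki k a b).kind c = if c = s.n then ki else fld s.kind c :=
    fld_setf (by omega) _ _
  have e2 : ∀ c, (s.addC ki k a b).lv c = if c = s.n then k else s.lv c := fld_setf (by omega) _ _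
  have e3 : (s.addC ki k a b).n = s.n + 1 := rfl
  have e4 : ∀ c, fld (s.addC ki k a b).pa c = if c = s.n then a else fld s.pa c :=
    fld_setf (by omega) _ _
  have e5 : ∀ c, fld (s.addC ki k a b).pb c = if c = s.n then b else fld s.pb c :=
    fld_setf (by omega) _ _
  have t : ∀ {j p}, At s ρ a j p → At (s.addC ki k a b) ρ a j p := fun hp =>
    ⟨⟨by omega, by rw [e1, if_neg ha.ne]; exact hp.1.2⟩, by rw [e2, if_neg ha.ne]; exact hp.2.1,
      hp.2.2⟩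
  refine ⟨ρ, Function.update x s.n r, φ, mm, h.frame (by omega) (by omega) rfl rfl rfl rfl rfl rfl
    rfl rfl rfl rfl rfl rfl (fun c hc => ?_) s.n (fun c hc hne => ⟨by omega, ?_, ?_, ?_⟩) ?_
    (fun j y hy => ?_) ?_ (fun e => ?_) (fun e => ?_) (fun e => ?_)⟩
  · rw [e1, e2, if_neg hc.ne, if_neg hc.ne, Function.update_of_ne hc.ne]
    exact ⟨rfl, rfl, rfl, Iff.rfl⟩
  · rw [e1, if_neg hne]
  · rw [e4, if_neg hne]
  · rw [e5, if_neg hne]
  · rw [e2, if_pos rfl]; exact hk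
  · have := hy.1.2
    rw [e1, if_pos rfl] at this
    omega
  · rw [e2, if_pos rfl, Function.update_self]; exact ⟨h0, h1⟩
  · rw [e1, if_pos rfl] at e; omega
  · rw [e1, if_pos rfl] at e
    obtain ⟨p, g1, g2⟩ := c0 e
    rw [e2, e4, if_pos rfl, if_pos rfl, Function.update_self]
    exact ⟨p, t g1, g2⟩
  · rw [e1, if_pos rfl] at e
    obtain ⟨j, p, g1, g2, g3, g4⟩ := cs e
    rw [e4, e5, if_pos rfl, if_pos rfl, e2, e2, if_pos rfl, if_neg hb.ne, Function.update_self,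
      Function.update_of_ne hb.ne]
    exact ⟨j, p, t g1, by omega, g2, g3, g4⟩

lemma good : Good M s := ⟨ρ, x, φ, mm, h⟩

end Add

end Sem

end Pool.Agent.Lib.MP_7fdcdd_gt.BB
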