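import Pool.Agent.Lib.MP_7fdcdd_gt.BB.SkD
import Pool.Agent.Lib.MP_7fdcdd_gt.BB.Mono

/-! Composition of the pieces of a certificate along its upper part. -/

namespace Pool.Agent.Lib.MP_7fdcdd_gt.BB

variable {sec : Bool} {p q : ℕ} {a : Pa}

lemma skP_b {c r : ℕ} {s : St} {t : Sk} (e : run a = some s) (h : skOk t (brApp s c r) = true) :
    skP (.b a c r) t = true := by
  simp only [skP, run, e, h]

lemma okP_of {c : ℕ} {s : St} {z : Bool} (e : run a = some s)
    (h : (brOk s c && cond z (Nat.ble 3 (fld c 0)) (two s c)) = true) : okP a c z = true := by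
  simp only [okP, e, h]

theorem Cl.sU {k x : ℕ} {t : Sk} (h : skP a (.u k x t) = true)
    (h0 : skP (.u a k x) t = true → Cl sec p q (.u a k x)) : Cl sec p q a := by
  refine (h0 ?_).U
  unfold skP at h
  split at h
  · cases h
  · rename_i s e
    unfold skOk at h
    split at h
    · cases h
    · rename_i s' e'
      simp only [skP, run, e, e', h]

theorem Cl.sB {c : ℕ} {t0 t1 : Sk} (h : skP a (.b c t0 t1) = true)
    (h0 : skP (.b a c 0) t0 = true → Cl sec p q (.b a c 0))
    (h1 : skP (.b a c 1) t1 = true → Cl sec p q (.b a c 1)) : Cl sec p q a := by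
  unfold skP at h
  split at h
  · cases h
  · rename_i s e
    unfold skOk at h
    rw [Bool.and_eq_true, Bool.and_eq_true] at h
    exact Cl.B (okP_of e h.1.1) (h0 (skP_b e h.1.2)) (h1 (skP_b e h.2))

theorem Cl.sD {c : ℕ} {t0 t1 t2 : Sk} (h : skP a (.d c t0 t1 t2) = true)
    (h0 : skP (.b a c 0) t0 = true → Cl sec p q (.b a c 0))
    (h1 : skP (.b a c 1) t1 = true → Cl sec p q (.b a c 1))
    (h2 : skP (.b a c 2) t2 = true → Cl sec p q (.b a c 2)) : Cl sec p q a := by
  unfold skP at h
  split at h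
  · cases h
  · rename_i s e
    unfold skOk at h
    rw [Bool.and_eq_true, Bool.and_eq_true, Bool.and_eq_true] at h
    exact Cl.D (okP_of e h.1.1.1) (h0 (skP_b e h.1.1.2)) (h1 (skP_b e h.1.2)) (h2 (skP_b e h.2))

end Pool.Agent.Lib.MP_7fdcdd_gt.BB
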