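import Pool.Agent.Lib.MP_7fdcdd_gt.BB.Chk

/-! The upper part of a certificate tree, checked in one pass (definitions only). -/

namespace Pool.Agent.Lib.MP_7fdcdd_gt.BB

inductive Sk where
  | l : Sk
  | u (k x : ℕ) (t : Sk) : Sk
  | b (c : ℕ) (t0 t1 : Sk) : Sk
  | d (c : ℕ) (t0 t1 t2 : Sk) : Sk

def skOk : Sk → St → Bool
  | .l, _ => true
  | .u k x t, s =>
    match steps k s x with
    | none => false
    | some s' => skOk t s'
  | .b c t0 t1, s => (brOk s c && two s c) && skOk t0 (brApp s c 0) && skOk t1 (brApp s c 1)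
  | .d c t0 t1 t2, s => (brOk s c && Nat.ble 3 (fld c 0)) && skOk t0 (brApp s c 0) &&
      skOk t1 (brApp s c 1) && skOk t2 (brApp s c 2)

def skP (a : Pa) (t : Sk) : Bool :=
  match run a with
  | none => false
  | some s => skOk t s

end Pool.Agent.Lib.MP_7fdcdd_gt.BB
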