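import Pool.Agent.Lib.MP_7fdcdd_gt.BB.Br
import Pool.Agent.Lib.MP_7fdcdd_gt.BB.Leaf

/-! Soundness of trees, the root, and the composition of pieces along paths. -/

namespace Pool.Agent.Lib.MP_7fdcdd_gt.BB

open H77

variable {M : Mdl} {sec : Bool} {p q : ℕ}

theorem chk_sound (hpq : p ≤ q) (t : Tr) {s : St} (h : Good M s)
    (e : chk (gi sec) p q t s = true) : M.Goal sec p q := by
  induction t generalizing s with
  | l a b c => exact leaf_sound h hpq e
  | c a b =>
    obtain ⟨ρ, x, φ, mm, h⟩ := h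
    simp only [chk, Bool.and_eq_true, Nat.blt_eq] at e
    obtain ⟨k, y, h1, h2⟩ := h.bitEq e.1.1 e.1.2
    exact absurd rfl (h.isNe' h1 h2 e.2)
  | u k x t ih =>
    unfold chk at e
    split at e
    · cases e
    · rename_i s' e1
      exact ih (steps_sound h e1) e
  | b c t0 t1 ih0 ih1 =>
    simp only [chk, Bool.and_eq_true] at e
    rcases br_two h e.1.1.1 e.1.1.2 with g | g
    exacts [ih0 g e.1.2, ih1 g e.2]
  | d c t0 t1 t2 ih0 ih1 ih2 =>
    simp only [chk, Bool.and_eq_true, Nat.ble_eq] at e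
    rcases br_three h e.1.1.1.1 e.1.1.1.2 with g | g | g
    exacts [ih0 g e.1.1.2, ih1 g e.1.2, ih2 g e.2]

/-- the points named at the root -/
noncomputable def rootPt (M : Mdl) (a : ℕ) : E :=
  if a = 24 then M.xs else if a = 25 then M.ys else if a = 26 then M.ws else
    if a % 2 = 0 then M.s (a / 2) else M.t (a / 2)

lemma fld_zero (i : ℕ) : fld 0 i = 0 := by
  change (0 >>> (8 * i)) % 256 = 0
  simp

lemma root_lv : ∀ a < 27, (root0 0).lv a = if a < 24 then a / 2 else 0 := by decide +kernel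

lemma sem_root0 (M : Mdl) : Sem M (root0 0) (rootPt M)
    (fun a => M.Z ((root0 0).lv a) (rootPt M a)) (fun _ => M.φ) (fun _ => M.m) := by
  have hk : ∀ a, fld (root0 0).kind a = 0 := fld_zero
  have hn : (root0 0).n = 27 := rfl
  have hv : ∀ a < 27, (root0 0).V a := fun a ha => ⟨ha, by rw [hk]; omega⟩
  have hm : ∀ a < 27, rootPt M a ∈ lv M.V ((root0 0).lv a) := by
    intro a ha
    rw [root_lv a ha]
    unfold rootPt
    split_ifs <;> first
      | omega | exact M.hxy.1 | exact M.hxy.2.1 | exact M.hws | exact M.hs _ | exact M.ht _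
  have hb : ∀ {P : ℕ → ℕ → Prop} a b, b < 256 → bit 0 a b = true → P a b := fun a b _ e => by
    rw [bit_zero] at e; cases e
  refine ⟨le_rfl, by decide, le_rfl, by decide, fun k hk => ⟨hv _ (by omega), ?_, ?_⟩,
    fun k hk => ⟨hv _ (by omega), ?_, ?_⟩, ⟨hv _ (by omega), by decide, by simp [rootPt]⟩,
    ⟨hv _ (by omega), by decide, by simp [rootPt]⟩, ⟨hv _ (by omega), by decide, by simp [rootPt]⟩,
    ⟨rfl, rfl⟩, fun a ha => ?_, fun a k y ha => ?_,
    fun a ha => ⟨M.Z_nonneg (hm a ha), M.Z_le (hm a ha)⟩, fun a _ e => ?_, fun a _ e => ?_,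
    fun a _ e => ?_, fun f _ => ?_, fun i hi => absurd hi (Nat.not_lt_zero _),
    hb, hb, hb, hb, hb, hb, hb, hb⟩
  · rw [root_lv _ (by omega), if_pos (by omega)]; omega
  · unfold rootPt
    rw [if_neg (by omega), if_neg (by omega), if_neg (by omega), if_pos (by omega)]
    congr 1; omega
  · rw [root_lv _ (by omega), if_pos (by omega)]; omega
  · unfold rootPt
    rw [if_neg (by omega), if_neg (by omega), if_neg (by omega), if_neg (by omega)]
    congr 1; omega
  · rw [root_lv a ha]; split_ifs <;> omega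
  · obtain ⟨h1, rfl, rfl⟩ := ha
    exact ⟨hm a h1.1, rfl⟩
  · rw [hk] at e; omega
  · rw [hk] at e; omega
  · rw [hk] at e; omega
  · rw [show fld (root0 0).fb f = 0 from fld_zero f]
    exact ⟨M.hφ0, M.hφ⟩

lemma sem_root (M : Mdl) : Good M root := by
  have h0 : ∀ k ≤ 11, ∃ ρ x φ mm, Sem M (root0 k) ρ x φ mm ∧ 0 < (root0 k).nf := by
    intro k hk
    induction k with
    | zero => exact ⟨_, _, _, _, sem_root0 M, by decide⟩
    | succ k ih =>
      obtain ⟨ρ, x, φ, mm, h, h1⟩ := ih (by omega)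
      have a1 := h.rs k (by omega)
      have a2 := h.rt k (by omega)
      have a3 := h.rs (k + 1) hk
      rw [M.s_succ (by omega)] at a3
      exact ⟨ρ, x, φ, mm, (h.addAdj a1 a2 (M.adj_st (by omega))).setMid a1 a2
        (M.adj_st (by omega)) a3, h1⟩
  obtain ⟨ρ, x, φ, mm, h, h1⟩ := h0 11 le_rfl
  have a1 := h.rs 11 le_rfl
  have a2 := h.rt 11 le_rfl
  have a0 := h.rs 0 (by omega)
  exact (((((((((h.addAdj a1 a2 (M.adj_st (by omega))).addAdj h.rx h.ry M.hxy).addNe h.rw h.rx
    M.nwx).addNe h.rw h.ry M.nwy).addNe h.ry a0 M.ys_ne).addNe h.rw a0 M.ws_ne).addOn h1 h.rx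
    (by rw [h.f0.1, h.f0.2]; exact M.ex)).addOn h1 h.ry
    (by rw [h.f0.1, h.f0.2]; exact M.ey)).addOn h1 h.rw
    (by rw [h.f0.1, h.f0.2]; exact M.ew)).good

/-- the goal holds in every model of the state at the end of the path -/
def Cl (sec : Bool) (p q : ℕ) (a : Pa) : Prop :=
  ∃ s, run a = some s ∧ ∀ M : Mdl, Good M s → M.Goal sec p q

theorem Cl.C (hpq : Nat.ble p q = true) {a : Pa} {t : Tr} (e : chkP (gi sec) p q a t = true) :
    Cl sec p q a := by
  unfold chkP at e
  split at e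
  · cases e
  · rename_i s e1
    exact ⟨s, e1, fun M h => chk_sound (Nat.le_of_ble_eq_true hpq) t h e⟩

theorem Cl.U {a : Pa} {k x : ℕ} (h : Cl sec p q (.u a k x)) : Cl sec p q a := by
  obtain ⟨s, e, h⟩ := h
  unfold run at e
  split at e
  · cases e
  · rename_i s0 e1
    exact ⟨s0, e1, fun M g => h M (steps_sound g e)⟩

/-- the premises of a case distinction at the end of a path -/
def okP (a : Pa) (c : ℕ) (three : Bool) : Bool :=
  match run a with
  | none => false
  | some s => brOk s c && cond three (Nat.ble 3 (fld c 0)) (two s c)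

lemma Cl.branch {a : Pa} {c r : ℕ} {s : St} (e : run a = some s) (h : Cl sec p q (.b a c r)) :
    ∀ M : Mdl, Good M (brApp s c r) → M.Goal sec p q := by
  obtain ⟨s1, e1, h⟩ := h
  unfold run at e1
  rw [e] at e1
  obtain rfl := Option.some.inj e1
  exact h

theorem Cl.B {a : Pa} {c : ℕ} (e : okP a c false = true) (h0 : Cl sec p q (.b a c 0))
    (h1 : Cl sec p q (.b a c 1)) : Cl sec p q a := by
  unfold okP at e
  split at e
  · cases e
  · rename_i s e1
    rw [Bool.and_eq_true] at e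
    exact ⟨s, e1, fun M g => (br_two g e.1 e.2).elim (h0.branch e1 M) (h1.branch e1 M)⟩

theorem Cl.D {a : Pa} {c : ℕ} (e : okP a c true = true) (h0 : Cl sec p q (.b a c 0))
    (h1 : Cl sec p q (.b a c 1)) (h2 : Cl sec p q (.b a c 2)) : Cl sec p q a := by
  unfold okP at e
  split at e
  · cases e
  · rename_i s e1
    rw [Bool.and_eq_true] at e
    exact ⟨s, e1, fun M g => (br_three g e.1 (Nat.le_of_ble_eq_true e.2)).elim (h0.branch e1 M)
      fun g => g.elim (h1.branch e1 M) (h2.branch e1 M)⟩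

theorem Cl.goal (h : Cl sec p q .o) (M : Mdl) : M.Goal sec p q := by
  obtain ⟨s, e, h⟩ := h
  obtain rfl := Option.some.inj e
  exact h M (sem_root M)

end Pool.Agent.Lib.MP_7fdcdd_gt.BB
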