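import Pool.Agent.Lib.MP_7fdcdd_gt.BB.LeR

/-! Soundness of the rules without case distinction. -/

namespace Pool.Agent.Lib.MP_7fdcdd_gt.BB

open H77

variable {M : Mdl} {s : St} {ρ : ℕ → E} {x : ℕ → ℝ} {φ : ℕ → L} {mm : ℕ → ℝ}

open Classical in
lemma exists_max_of (V : Finset E) (f : E → ℝ) (P : E → Prop) (h : ∃ v ∈ V, P v) :
    ∃ v ∈ V, P v ∧ ∀ y ∈ V, P y → f y ≤ f v := by
  obtain ⟨v, hv, hp⟩ := h
  obtain ⟨w, hw, hm⟩ := Finset.exists_max_image (V.filter P) f ⟨v, Finset.mem_filter.2 ⟨hv, hp⟩⟩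
  rw [Finset.mem_filter] at hw
  exact ⟨w, hw.1, hw.2, fun y hy hy' => hm y (Finset.mem_filter.2 ⟨hy, hy'⟩)⟩

lemma Sem.mkE (h : Sem M s ρ x φ mm) {j a b c d e k : ℕ} {p1 p2 p3 p4 p5 : E} (hj : j < 256)
    (h1 : At s ρ a k p1) (h2 : At s ρ b k p2) (h3 : At s ρ c k p3) (h4 : At s ρ d k p4)
    (h5 : At s ρ e k p5)
    (r0 : j = 0 → ∀ y, Adj (lv M.V k) p1 y → y ≠ p3 → y ≠ p4 → y ≠ p5 → M.u y ≤ M.u p2)
    (r1 : j = 1 → ∀ y ∈ lv M.V k, y ≠ p3 → y ≠ p4 → y ≠ p5 → M.u y ≤ M.u p2)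
    (r2 : j = 2 → Adj (lv M.V (k + 1)) (midpoint ℝ p1 p2) (midpoint ℝ p1 p3)) :
    Sem M (s.addE (mkE j a b c d e)) ρ x φ mm := by
  obtain ⟨e0, e1, e2, e3, e4, e5⟩ := fld_mkE hj (h.lt h1) (h.lt h2) (h.lt h3) (h.lt h4) (h.lt h5)
  refine h.addE (mkE_lt hj (h.lt h1) (h.lt h2) (h.lt h3) (h.lt h4) (h.lt h5)) ?_
  unfold EnP
  rw [e0, e1, e2, e3, e4, e5]
  exact ⟨k, p1, p2, p3, p4, p5, h1, h2, h3, h4, h5, r0, r1, r2⟩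

lemma At_sub1 {a b c k j : ℕ} {p q : E} (ha : At s ρ a k p) (hb : At s ρ b j q)
    (hc : At s ρ c j q) : At s ρ (sub1 a b c) k p := by
  unfold sub1
  cases e : Nat.beq a b
  · exact ha
  · obtain rfl := Nat.eq_of_beq_eq_true e
    obtain ⟨rfl, rfl⟩ := ha.uniq hb
    exact hc

lemma Mdl.exists_base (M : Mdl) {k : ℕ} {p : E} (hp : p ∈ lv M.V k) :
    ∃ r, 0 ≤ r ∧ r ≤ 2 ^ k * M.W ∧ Base M k (M.Z k p) r := by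
  obtain ⟨z, hz, -⟩ := deg3 (M.cp k) (M.sp k) hp p p
  obtain ⟨v, hv, ⟨a, h1, h2⟩, h3⟩ := exists_max_of (lv M.V k) (M.Z k)
    (fun v => ∃ a, Adj (lv M.V k) a v ∧ M.Z k a ≤ M.Z k p) ⟨z, hz.2.1, p, hz, le_rfl⟩
  exact ⟨M.Z k v, M.Z_nonneg hv, M.Z_le hv, fun b _ hb y hy => h3 y hy.2.1 ⟨b, hy, hb⟩,
    a, v, h1, h2, rfl⟩

theorem un_sound (h : Sem M s ρ x φ mm) {c : ℕ} {s' : St} (hr : un s c = some s') :
    Good M s' := by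
  unfold un at hr
  have x1 := fld_lt c 1
  have x2 := fld_lt c 2
  have x3 := fld_lt c 3
  have x4 := fld_lt c 4
  have x5 := fld_lt c 5
  have x6 := fld_lt c 6
  generalize fld c 1 = a at *
  generalize fld c 2 = b at *
  generalize fld c 3 = d at *
  generalize fld c 4 = w at *
  generalize fld c 5 = v at *
  generalize fld c 6 = r at *
  simp only [] at hr
  split at hr
  case h_13 =>
    rcases leR_sound h (Nat.shiftRight c 8) none (fun a b => some (s.addLe a b)) with e | e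
    · rw [e] at hr; cases hr
    · obtain ⟨a, b, k, p, q, h1, h2, h3, e⟩ := e
      rw [e] at hr; cases hr
      exact (h.addLe h1 h2 h3).good
  case h_28 => cases hr
  all_goals obtain ⟨e, e'⟩ := cond_some hr
  all_goals cases e'
  all_goals try simp only [Bool.and_eq_true, Bool.or_eq_true, Nat.beq_eq, Nat.ble_eq, room_iff,
    lo_iff, Nat.blt_eq] at e
  · obtain ⟨⟨e1, e2⟩, e3⟩ := e
    obtain ⟨k, p, q, h1, h2, h3⟩ := h.isAdj x2 e1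
    rw [h1.2.1] at e2 ⊢
    obtain ⟨ρ', x', g, g1, t⟩ := h.addV (k := Nat.add k 1) (by change k + 1 ≤ 11; omega) e3
      (v := midpoint ℝ p q) (by change _ ∈ lv M.V (k + 1); rw [M.lv_succ]; exact h3.mid_mem)
    exact (g.setMid (t h1) (t h2) h3 g1).good
  · obtain ⟨k, p, q, h1, h2, -, h4⟩ := h.isK1 e.1
    obtain ⟨j, p', q', g1, g2, -, g4⟩ := h.isMid e.2
    obtain ⟨rfl, rfl⟩ := h1.uniq g1
    obtain ⟨-, rfl⟩ := h2.uniq g2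
    exact (h.addEq h4 g4).good
  · obtain ⟨⟨⟨⟨⟨e1, e2⟩, e3⟩, e4⟩, e5⟩, e6⟩ := e
    have ha := (isV_iff.1 e1).at ρ
    have hb := (isL_iff (ρ := ρ)).1 e2
    have hd := (isL_iff (ρ := ρ)).1 e3
    have hw := (isL_iff (ρ := ρ)).1 e4
    obtain ⟨z, hz, ⟨z1, z2, z3, z4⟩, hm⟩ := exists_max_of (lv M.V (s.lv a)) M.u
      (fun y => Adj (lv M.V (s.lv a)) (ρ a) y ∧ y ≠ ρ b ∧ y ≠ ρ d ∧ y ≠ ρ w) (by
        rcases e6 with rfl | ⟨⟨⟨e6, e7⟩, e8⟩, e9⟩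
        · obtain ⟨z, h1, h2, h3⟩ := deg3 (M.cp _) (M.sp _) (h.mem ha) (ρ b) (ρ d)
          exact ⟨z, h1.2.1, h1, h2, h3, h3⟩
        · obtain ⟨k, p, q, h1, h2, h3⟩ := h.isAdj x5 e6
          obtain ⟨rfl, rfl⟩ := ha.uniq h1
          exact ⟨q, h3.2.1, h3, h.isNe' h2 hb e7, h.isNe' h2 hd e8, h.isNe' h2 hw e9⟩)
    obtain ⟨ρ', x', g, g1, t⟩ := h.addV (h.lev ha) e5 hz
    exact (((((g.addAdj (t ha) g1 z1).addNe g1 (t hb) z2).addNe g1 (t hd) z3).addNe g1 (t hw)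
      z4).mkE (by norm_num) (t ha) g1 (t hb) (t hd) (t hw)
      (fun _ y y1 y2 y3 y4 => hm y y1.2.1 ⟨y1, y2, y3, y4⟩) (by omega) (by omega)).good
  · obtain ⟨⟨⟨⟨e1, e2⟩, e3⟩, e4⟩, e5⟩ := e
    have hb := (isL_iff (ρ := ρ)).1 e2
    have hd := (isL_iff (ρ := ρ)).1 e3
    have hw := (isL_iff (ρ := ρ)).1 e4
    obtain ⟨z, hz, ⟨z2, z3, z4⟩, hm⟩ := exists_max_of (lv M.V a) M.u
      (fun y => y ≠ ρ b ∧ y ≠ ρ d ∧ y ≠ ρ w) ((M.sp a).exists_ne _ _ _)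
    obtain ⟨ρ', x', g, g1, t⟩ := h.addV e1 e5 hz
    exact ((((g.addNe g1 (t hb) z2).addNe g1 (t hd) z3).addNe g1 (t hw)
      z4).mkE (by norm_num) g1 g1 (t hb) (t hd) (t hw) (by omega)
      (fun _ y y1 y2 y3 y4 => hm y y1 ⟨y2, y3, y4⟩) (by omega)).good
  · obtain ⟨⟨e1, e2⟩, e3⟩ := e
    obtain ⟨⟨k, p1, p2, p3, p4, p5, g1, g2, g3, -, -, -, -, g6⟩, e6⟩ := h.isE e1
    obtain ⟨j, p, q, h1, h2, -, h4⟩ := h.isMid e2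
    obtain ⟨j', p', q', h5, h6, -, h7⟩ := h.isMid e3
    obtain ⟨rfl, rfl⟩ := g1.uniq h1
    obtain ⟨rfl, rfl⟩ := g1.uniq h5
    obtain ⟨-, rfl⟩ := g2.uniq h2
    obtain ⟨-, rfl⟩ := g3.uniq h6
    exact (h.addAdj h4 h7 (g6 e6)).good
  · obtain ⟨⟨⟨e1, e2⟩, e3⟩, e4⟩ := e
    obtain ⟨k, p, q, h1, h2, h3⟩ := h.isAdj x2 e1
    obtain ⟨j, y, z, g1, -, g3, g4⟩ := h.isMid e2
    obtain ⟨j', y', z', g5, -, g6, g7⟩ := h.isMid e3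
    obtain ⟨rfl, rfl⟩ := g1.uniq g5
    obtain ⟨rfl, rfl⟩ := h1.uniq g4
    obtain ⟨-, rfl⟩ := h2.uniq g7
    obtain ⟨ψ, m, k0, k1, k2, k3, k4⟩ := fcap (M.cp j) (M.sp j) g3 g6 (M.lv_succ j ▸ h3)
    rw [h1.2.1]
    have g := h.addF (h.lev h1) e4 k0 (M.lv_succ j ▸ k1)
    have hf : s.nf < (s.addF (j + 1)).nf := Nat.lt_succ_self _
    exact (((g.addOn hf h1 (by simpa using k2)).addOn hf h2 (by simpa using k3)).addCap hf g1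
      (by simpa using k4)).good
  · obtain ⟨⟨⟨⟨e1, e2⟩, e3⟩, e4⟩, e5⟩ := e
    obtain ⟨k, p, q, h1, h2, h3⟩ := h.isAdj x3 e1
    obtain ⟨hf, -, g1⟩ := h.on a b x2 e2
    obtain ⟨-, -, g2⟩ := h.on a d x3 e3
    rw [h1.2.1] at e4 ⊢
    obtain ⟨y, y1, y2, y3⟩ := fnext (M.cp k) (h.faceAt hf e4).2 h3 (h1.2.2 ▸ g1) (h2.2.2 ▸ g2)
    obtain ⟨ρ', x', g, g3, t⟩ := h.addV (h.lev h1) e5 y1.2.1
    exact (((g.addAdj (t h1) g3 y1).addNe g3 (t h2) y3).addOn hf g3 y2).good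
  · obtain ⟨⟨⟨e1, e2⟩, e3⟩, e4⟩ := e
    obtain ⟨hf, k, p, h1, h2⟩ := h.cap a d x3 e1
    obtain ⟨-, g1, g2⟩ := h.on a b x2 e2
    have hb := g1.at ρ
    rw [e3, h1.2.1] at hb
    obtain ⟨y, y1, y2⟩ := h2 (ρ b) (M.lv_succ k ▸ h.mem hb) g2
    rw [h1.2.1]
    obtain ⟨ρ', x', g, g3, t⟩ := h.addV (h.lev h1) e4 y1.2.1
    exact ((g.addAdj (t h1) g3 y1).setMid (t h1) g3 y1 (y2 ▸ t hb)).good
  · obtain ⟨⟨e1, e2⟩, e3⟩ := e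
    obtain ⟨j, y, z, g1, g2, -, g4⟩ := h.isMid e1
    obtain ⟨j', y', z', g5, g6, -, g7⟩ := h.isMid e2
    obtain ⟨rfl, rfl⟩ := g1.uniq g5
    exact (h.addNe g2 g6 (fun e => h.isNe' g4 g7 e3 (by rw [e]))).good
  · obtain ⟨⟨⟨⟨e1, e2⟩, e3⟩, e4⟩, e5⟩ := e
    obtain ⟨k, p, q, h1, h2, h3, h4⟩ := h.isK1 e1
    obtain ⟨j, p', q', g1, g2, g3, g4⟩ := h.isK1 e2
    obtain rfl : k = j := by have := h4.2.1; have := g4.2.1; omega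
    refine (h.addNe h4 g4 (fun e => ?_)).good
    rcases g3.mid_unique h3.1 h3.2.1 h3.2.2.1 e with ⟨k1, k2⟩ | ⟨k1, k2⟩
    · rcases e4 with e4 | e4
      exacts [h.isNe' h1 g1 e4 k1, h.isNe' h2 g2 e4 k2]
    · rcases e5 with e5 | e5
      exacts [h.isNe' h1 g2 e5 k1, h.isNe' h2 g1 e5 k2]
  · obtain ⟨⟨⟨⟨⟨⟨e1, e2⟩, e3⟩, e4⟩, e5⟩, e6⟩, e7⟩ := e
    obtain ⟨k, p, q, h1, h2, h3, h4⟩ := h.isMid e5
    obtain ⟨j, p', q', g1, g2, g3, g4⟩ := h.isMid e6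
    obtain ⟨rfl, rfl⟩ := h1.uniq g1
    obtain ⟨hf, -, k1⟩ := h.on a b x2 e1
    obtain ⟨-, -, k2⟩ := h.on a d x3 e2
    obtain ⟨-, -, k3⟩ := h.on a w x4 e3
    rw [h1.2.2] at k1
    rw [h2.2.2] at k2
    rw [g2.2.2] at k3
    rw [h1.2.1] at e7
    obtain ⟨f1, f2⟩ := h.faceAt hf e7
    have := flink (M.cp k) (M.sp k) f1 f2 h3 g3 (h.isNe' h2 g2 e4) k1 k2 k3
    exact (((h.addAdj h4 g4 (M.lv_succ k ▸ this)).addOn hf h4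
      (by rw [H77.map_mid, k1, k2]; ring)).addOn hf g4 (by rw [H77.map_mid, k1, k3]; ring)).good
  · have ha := (isV_iff.1 e.1).at ρ
    obtain ⟨z0, hz0, -⟩ := deg3 (M.cp _) (M.sp _) (h.mem ha) (ρ a) (ρ a)
    obtain ⟨z, hz, z1, hm⟩ := exists_max_of (lv M.V (s.lv a)) (fun y => - M.u y)
      (fun y => Adj (lv M.V (s.lv a)) (ρ a) y) ⟨z0, hz0.2.1, hz0⟩
    obtain ⟨ρ', x', g, g1, t⟩ := h.addV (h.lev ha) e.2 hz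
    exact ((g.addAdj (t ha) g1 z1).addWit (t ha) g1
      (fun y hy => neg_le_neg_iff.1 (hm y hy.2.1 hy))).good
  · obtain ⟨⟨e1, e2⟩, e3⟩ := e
    obtain ⟨k, p, q, h1, h2, h3⟩ := h.le a b x2 e1
    obtain ⟨y, h4, h5⟩ := h.isLe h2 x3 e3
    refine (h.addNe h1 h4 (fun e => h.isNe' h1 h2 e2 ?_)).good
    subst e
    exact M.inj k (by have := h.lev h1; omega) _ (h.mem h1) _ (h.mem h2)
      (le_antisymm ((M.Z_le_iff _ _ _).1 h5) ((M.Z_le_iff _ _ _).1 h3))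
  · obtain ⟨k, p, q, h1, h2, h3⟩ := h.isAdj x2 e.1
    obtain ⟨j, y, g1, g2⟩ := h.bitEq x3 e.2
    obtain ⟨rfl, rfl⟩ := h1.uniq g2
    exact (h.addAdj g1 h2 h3).good
  · obtain ⟨j, y, g1, g2⟩ := h.bitEq x3 e.2
    have hb := (h.isNe x2 e.1).2.1.at ρ
    exact (h.addNe g1 hb (h.isNe' g2 hb e.1)).good
  · obtain ⟨k, p, q, h1, h2, h3⟩ := h.le d w x4 e.1.1
    exact (h.addLe (h.isEq h1 x1 e.1.2) (h.isEq h2 x2 e.2) h3).good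
  · obtain ⟨hf, -, g1⟩ := h.on a d x3 e.1
    obtain ⟨j, y, g2, g3⟩ := h.bitEq x2 e.2
    exact (h.addOn hf g3 (g2.2.2 ▸ g1)).good
  · obtain ⟨⟨⟨e1, e2⟩, e3⟩, e4⟩ := e
    obtain ⟨k, p, q, h1, h2, h3, h4⟩ := h.isK1 e1
    exact (h.setMid (h.isEq h1 x2 e3) (h.isEq h2 x3 e4) h3 (h.isEq h4 x1 e2)).good
  · obtain ⟨k, p, q, h1, h2, h3⟩ := h.wit d w x4 e.1.1
    exact (h.addWit (h.isEq h1 x1 e.1.2) (h.isEq h2 x2 e.2) h3).good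
  · obtain ⟨hf, k, p, h1, h2⟩ := h.cap a d x3 e.1
    obtain ⟨j, y, g2, g3⟩ := h.bitEq x2 e.2
    obtain ⟨rfl, rfl⟩ := h1.uniq g2
    exact (h.addCap hf g3 h2).good
  · obtain ⟨k, p1, p2, p3, p4, p5, g1, g2, g3, g4, g5, g6, g7, g8⟩ := h.ent a e.1
    obtain ⟨j, y, h1, h2⟩ := h.bitEq x3 e.2
    exact (h.mkE (fld_lt _ _) (At_sub1 g1 h1 h2) (At_sub1 g2 h1 h2) (At_sub1 g3 h1 h2)
      (At_sub1 g4 h1 h2) (At_sub1 g5 h1 h2) g6 g7 g8).good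
  · obtain ⟨j, y, h1, h2⟩ := h.bitEq x2 e.1
    obtain ⟨j', y', h3, h4⟩ := h.bitEq x3 e.2
    obtain ⟨rfl, rfl⟩ := h2.uniq h3
    exact (h.addEq h1 h4).good
  · have ha := (isV_iff.1 e.1.1).at ρ
    obtain ⟨y, y1, y2, y3⟩ := M.exists_base (h.mem ha)
    exact h.addC e.1.2 e.2 ha.1.1 ha.1.1 y1 y2 (Or.inl rfl) (fun _ => ⟨_, ha, y3⟩) (by omega)
  · obtain ⟨⟨⟨⟨e1, e2⟩, e3⟩, e4⟩, e5⟩ := e
    have ha := (isV_iff.1 e1).at ρ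
    have hb : b < s.n := by rcases e2 with e2 | e2 <;> exact (isK_iff.1 e2).1
    have h1 := h.bnd b hb
    have h2 := M.Z_nonneg (h.mem ha)
    have h3 := M.Z_le (h.mem ha)
    refine h.addC (r := M.Z (s.lv a) (ρ a) + x b) (by change s.lv a + 1 ≤ 11; omega) e5 ha.1.1 hb
      (by linarith) ?_ (Or.inr rfl) (by omega) (fun _ => ⟨_, _, ha, e3.symm, rfl, rfl⟩)
    change _ ≤ 2 ^ (s.lv a + 1) * M.W
    rw [← e3] at h1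
    rw [pow_succ]
    linarith
  · obtain ⟨p, h1, h2, -⟩ := h.ch0 b (isK_iff.1 e.1).1 (isK_iff.1 e.1).2
    obtain ⟨q, h3, h4⟩ := h.isLe' h1 e.2
    exact (h.addDom h3 (isK_iff.1 e.1).1 rfl (h2 q (h.mem h3) h4)).good
  · obtain ⟨⟨⟨⟨⟨e1, e2⟩, e3⟩, e4⟩, e5⟩, e6⟩ := e
    obtain ⟨k, p, q, h1, h2, h3, h4⟩ := h.isK1 e1
    obtain ⟨j, y, g1, g2, g3, g4, g5⟩ := h.chs b (isK_iff.1 e2).1 (isK_iff.1 e2).2
    obtain ⟨y1, k1, k2⟩ := h.isLe h1 (fld_lt _ _) e3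
    obtain ⟨y2, k3, k4⟩ := h.isLe h2 (fld_lt _ _) e4
    obtain ⟨rfl, rfl⟩ := k1.uniq g1
    obtain ⟨-, rfl⟩ := k1.uniq k3
    obtain ⟨j1, p1, m1, -, -, m2⟩ := h.dom _ _ (fld_lt _ _) e5
    obtain ⟨j2, p2, m3, -, -, m4⟩ := h.dom _ _ (fld_lt _ _) e6
    obtain ⟨rfl, rfl⟩ := h1.uniq m1
    obtain ⟨rfl, rfl⟩ := h2.uniq m3
    exact (h.addDom h4 (isK_iff.1 e2).1 g4 (g5 ▸ M.dom_step h3 m2 m4 k2 k4)).good

end Pool.Agent.Lib.MP_7fdcdd_gt.BB
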